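import Pool.Agent.H25.SD.Win
import Pool.Agent.H81.L2.WinK

/-!
# Kernel check of all windows at once (H25/SD)

`Tab F c p0 Er Lmax L W`: `L_r` is the list of the values of `c F r (p0 (21/20)^i)`, `i = 0, …, W`, rounded
down, with error at most `Er`, all entries at most `Lmax`.
-/

namespace Pool.Agent.H25.SD

open Finset H81.L2

/-- the tables -/
structure Tab (F : ℕ → ℝ → ℝ) (c p0 : ℝ) (Er Lmax : ℕ) (L : List (List ℕ)) (W : ℕ) : Prop where
  cpos : 0 < c
  p0pos : 0 < p0
  len : ∀ r < L.length, (L.getD r []).length = W + 1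
  lo : ∀ r < L.length, ∀ i ≤ W, ((L.getD r []).getD i 0 : ℝ) ≤ c * F r (p0 * (21 / 20) ^ i)
  up : ∀ r < L.length, ∀ i ≤ W, c * F r (p0 * (21 / 20) ^ i) ≤ ((L.getD r []).getD i 0 : ℝ) + Er
  mx : ∀ r < L.length, ∀ i ≤ W, (L.getD r []).getD i 0 ≤ Lmax

/-- positive part of the dot product -/
def dP : List ℤ → List ℕ → ℕ
  | a :: l, b :: m => a.toNat * b + dP l m
  | _, _ => 0

/-- negative part of the dot product -/
def dN : List ℤ → List ℕ → ℕ
  | a :: l, b :: m => (-a).toNat * b + dN l m
  | _, _ => 0

/-- sum of the positive parts -/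
def sP : List ℤ → ℕ
  | [] => 0
  | a :: l => a.toNat + sP l

/-- sum of the negative parts -/
def sN : List ℤ → ℕ
  | [] => 0
  | a :: l => (-a).toNat + sN l

/-- the digit column `i` of a list of lists -/
def colD (L : List (List ℕ)) (i : ℕ) : List ℕ := L.map (fun l => l.getD i 0)

theorem dP_packed (B k : ℕ) (L : List (List ℕ)) (q : List ℕ) (d : ℕ → ℕ)
    (hq : q = L.map (fun l => ∑ i ∈ range k, l.getD (d i) 0 * B ^ i)) (w : List ℤ) :
    dP w q = ∑ i ∈ range k, dP w (colD L (d i)) * B ^ i := by
  subst hq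
  induction w generalizing L with
  | nil => cases L <;> simp [dP]
  | cons a w ih =>
    cases L with
    | nil => simp [dP, colD]
    | cons l L =>
      have h1 : ∀ i, dP (a :: w) (colD (l :: L) (d i)) = a.toNat * l.getD (d i) 0 + dP w (colD L (d i)) :=
        fun i => rfl
      simp only [h1, add_mul, Finset.sum_add_distrib, List.map_cons, dP]
      rw [ih L, Finset.mul_sum]
      congr 1
      exact Finset.sum_congr rfl fun i _ => by ring

theorem dN_packed (B k : ℕ) (L : List (List ℕ)) (q : List ℕ) (d : ℕ → ℕ)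
    (hq : q = L.map (fun l => ∑ i ∈ range k, l.getD (d i) 0 * B ^ i)) (w : List ℤ) :
    dN w q = ∑ i ∈ range k, dN w (colD L (d i)) * B ^ i := by
  subst hq
  induction w generalizing L with
  | nil => cases L <;> simp [dN]
  | cons a w ih =>
    cases L with
    | nil => simp [dN, colD]
    | cons l L =>
      have h1 : ∀ i, dN (a :: w) (colD (l :: L) (d i)) = (-a).toNat * l.getD (d i) 0 + dN w (colD L (d i)) :=
        fun i => rfl
      simp only [h1, add_mul, Finset.sum_add_distrib, List.map_cons, dN]
      rw [ih L, Finset.mul_sum]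
      congr 1
      exact Finset.sum_congr rfl fun i _ => by ring

theorem dP_le (w : List ℤ) : ∀ (m : List ℕ) (X : ℕ), (∀ x ∈ m, x ≤ X) → dP w m ≤ sP w * X := by
  induction w with
  | nil => intro m X _; simp [dP, sP]
  | cons a w ih =>
    intro m X h
    cases m with
    | nil => simp [dP]
    | cons b m =>
      simp only [dP, sP, add_mul]
      exact add_le_add (Nat.mul_le_mul_left _ (h b (List.mem_cons_self ..)))
        (ih m X fun x hx => h x (List.mem_cons_of_mem _ hx))

theorem dN_le (w : List ℤ) : ∀ (m : List ℕ) (X : ℕ), (∀ x ∈ m, x ≤ X) → dN w m ≤ sN w * X := by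
  induction w with
  | nil => intro m X _; simp [dN, sN]
  | cons a w ih =>
    intro m X h
    cases m with
    | nil => simp [dN]
    | cons b m =>
      simp only [dN, sN, add_mul]
      exact add_le_add (Nat.mul_le_mul_left _ (h b (List.mem_cons_self ..)))
        (ih m X fun x hx => h x (List.mem_cons_of_mem _ hx))

/-- the column `b` of the list of polynomials -/
def colZ (A : List (List ℤ)) (b : ℕ) : List ℤ := A.map (fun l => l.getD b 0)

/-- the list of the polynomials `wl`, `r = 0, …, M` -/
def wls (T : ℤ) (I M : ℕ) (β : List ℤ) : List (List ℤ) := (List.range (M + 1)).map (wl T I M β 0)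

/-- the check for one coefficient index `b` -/
def chk1 (B W : ℕ) (ones Er Lmax c1 c2 : ℕ) (qm qr : List ℕ) (col βn : List ℤ) : Bool :=
  Nat.ble (2 * (c1 * (sN col * Lmax) + c1 * (Er * sN col) + (c2 * (sP βn * Lmax) + c2 * (Er * sP βn))) + 2) B &&
  (Nat.blt (c1 * (sP col * Lmax)) B &&
  ltK B ones (c1 * dN col qm + c1 * (Er * sN col) * ones + (c2 * dP βn qr + c2 * (Er * sP βn) * ones))
    (c1 * dP col qm))

/-- all coefficient indices -/
def chkB (B W T I K Er Lmax ones : ℕ) (qm qr : List ℕ) (β : List ℤ) : ℕ → List ℤ → List (List ℤ) → Bool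
  | _, [], _ => true
  | b, N :: Ns, A =>
      (decide (0 ≤ N) && chk1 B W ones Er Lmax ((I + 1) * T ^ (I + 1)) (2 * N.toNat) qm qr (colZ A b) (β.map negp)) &&
      chkB B W T I K Er Lmax ones qm qr β (b + 1) Ns A

/-- the complete check for one vector `β` -/
def chkV (B W T I K Er Lmax ones : ℕ) (qm qr : List ℕ) (β : List ℤ) : Bool :=
  decide (β.length ≤ K + 1) && (lenle (K + I + 1) (wls T I (K + I) β) &&
    ((lpow [(T : ℤ), T] (K + I)).length == K + I + 1 &&
      chkB B W T I K Er Lmax ones qm (qr.drop (I + 1)) β 0 (lpow [(T : ℤ), T] (K + I)) (wls T I (K + I) β)))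

/-- real lower bound of a dot product -/
theorem dot_bounds (F : ℕ → ℝ → ℝ) (c p : ℝ) (Er : ℕ) (hc : 0 < c) (w : List ℤ) :
    ∀ (m : List ℕ) (k : ℕ), w.length ≤ m.length →
    (∀ j < m.length, (m.getD j 0 : ℝ) ≤ c * F (k + j) p ∧ c * F (k + j) p ≤ (m.getD j 0 : ℝ) + Er) →
    (dP w m : ℝ) - ((dN w m : ℝ) + Er * sN w) ≤ c * lin F k w p ∧
    c * lin F k w p ≤ (dP w m : ℝ) + Er * sP w - (dN w m : ℝ) := by
  induction w with
  | nil => intro m k _ _; simp [dP, dN, sN, sP, lin]
  | cons a w ih =>
    intro m k hl h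
    cases m with
    | nil => simp at hl
    | cons b m =>
      have h0 := h 0 (by simp)
      simp only [List.getD_cons_zero, add_zero] at h0
      have hl' : w.length ≤ m.length := by simpa using hl
      obtain ⟨i1, i2⟩ := ih m (k + 1) hl' (fun j hj => by
        have := h (j + 1) (by simpa using hj)
        simp only [List.getD_cons_succ] at this
        have e : k + 1 + j = k + (j + 1) := by ring
        rw [e]
        exact this)
      simp only [dP, dN, sN, sP, lin]
      push_cast
      rw [mul_add]
      rcases le_total 0 a with ha | ha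
      · have e1 : ((a.toNat : ℕ) : ℝ) = (a : ℝ) := by
          have : ((a.toNat : ℤ) : ℝ) = (a : ℝ) := by rw [Int.toNat_of_nonneg ha]
          exact_mod_cast this
        have e2 : ((-a).toNat : ℕ) = 0 := by omega
        have haR : (0:ℝ) ≤ a := by exact_mod_cast ha
        rw [e1, e2]
        have u1 := mul_le_mul_of_nonneg_left h0.1 haR
        have u2 := mul_le_mul_of_nonneg_left h0.2 haR
        constructor
        · push_cast; nlinarith [u1, i1]
        · push_cast; nlinarith [u2, i2]
      · have e1 : (((-a).toNat : ℕ) : ℝ) = -(a : ℝ) := by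
          have : (((-a).toNat : ℤ) : ℝ) = ((-a : ℤ) : ℝ) := by rw [Int.toNat_of_nonneg (by omega)]
          push_cast at this ⊢
          exact_mod_cast this
        have e2 : (a.toNat : ℕ) = 0 := by omega
        have haR : (a:ℝ) ≤ 0 := by exact_mod_cast ha
        rw [e1, e2]
        have u1 := mul_le_mul_of_nonpos_left h0.1 haR
        have u2 := mul_le_mul_of_nonpos_left h0.2 haR
        constructor
        · push_cast; nlinarith [u2, i1]
        · push_cast; nlinarith [u1, i2]

end Pool.Agent.H25.SD
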