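import Pool.Agent.H25.SD.SegD
import Pool.Agent.H25.SD.D4

/-!
# Dimension 4: the check of (D) in pieces (H25/SD)
-/

namespace Pool.Agent.H25.SD.D4

open H46.SB H49.SG H81.SG

theorem cD0 : partD Q 2 5528 LmaxN LL qd 0 4 = true := by decide +kernel

theorem cD4 : partD Q 2 5528 LmaxN LL qd 4 16 = true := by decide +kernel

theorem cD16 : partD Q 2 5528 LmaxN LL qd 16 24 = true := by decide +kernel

theorem cD24 : partD Q 2 5528 LmaxN LL qd 24 32 = true := by decide +kernel

theorem cD32 : partD Q 2 5528 LmaxN LL qd 32 40 = true := by decide +kernel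

theorem cD40 : partD Q 2 5528 LmaxN LL qd 40 48 = true := by decide +kernel

theorem cD48 : partD Q 2 5528 LmaxN LL qd 48 56 = true := by decide +kernel

theorem cD56 : partD Q 2 5528 LmaxN LL qd 56 64 = true := by decide +kernel

theorem tailD : TailD Q 2 5528 LmaxN LL qd 0 [4, 16, 24, 32, 40, 48, 56, 64] :=
  TailD.cons cD0
    (TailD.cons cD4
    (TailD.cons cD16
    (TailD.cons cD24
    (TailD.cons cD32
    (TailD.cons cD40
    (TailD.cons cD48
    (TailD.cons cD56
    (TailD.nil Q 2 5528 LmaxN LL qd))))))))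

end Pool.Agent.H25.SD.D4
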