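import Pool.Agent.H25.SD.Seg
import Pool.Agent.H25.SD.D4

/-!
# Dimension 4: the right staircase in pieces, part 2 (H25/SD)
-/

namespace Pool.Agent.H25.SD.D4

open H46.SB H49.SG H81.SG

theorem cR77 : partR P LL qp 40915 51868 77 11 dr = true := by decide +kernel

theorem cR88 : partR P LL qp 51868 57632 88 11 dr = true := by decide +kernel

theorem cR99 : partR P LL qp 57632 62396 99 11 dr = true := by decide +kernel

theorem cR110 : partR P LL qp 62396 67542 110 11 dr = true := by decide +kernel

theorem cR121 : partR P LL qp 67542 75882 121 11 dr = true := by decide +kernel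

theorem cR132 : partR P LL qp 75882 132882 132 11 dr = true := by decide +kernel

theorem cR143 : partR P LL qp 132882 186575 143 1 dr = true := by decide +kernel

theorem cRlast : lastR P LL qp 186575 144 dr = true := by decide +kernel

end Pool.Agent.H25.SD.D4
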