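import Pool.Agent.H25.SD.D4PL
import Pool.Agent.H25.SD.D4PR1
import Pool.Agent.H25.SD.D4PR2
import Pool.Agent.H46.SB.Sgn4

/-!
# Dimension 4: the primal condition (P) (H25/SD)
-/

namespace Pool.Agent.H25.SD.D4

open H46.SB H49.SG H81.SG

theorem parP : parB P qp LmaxN LL.length = true := by decide +kernel

theorem tailR : TailR P LL qp P.w 0 dr :=
  TailR.step (n := 0) (m := 11) cR0
    (TailR.step (n := 11) (m := 11) cR11
    (TailR.step (n := 22) (m := 11) cR22
    (TailR.step (n := 33) (m := 11) cR33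
    (TailR.step (n := 44) (m := 11) cR44
    (TailR.step (n := 55) (m := 11) cR55
    (TailR.step (n := 66) (m := 11) cR66
    (TailR.step (n := 77) (m := 11) cR77
    (TailR.step (n := 88) (m := 11) cR88
    (TailR.step (n := 99) (m := 11) cR99
    (TailR.step (n := 110) (m := 11) cR110
    (TailR.step (n := 121) (m := 11) cR121
    (TailR.step (n := 132) (m := 11) cR132
    (TailR.step (n := 143) (m := 1) cR143
    (TailR.last (n := 144) cRlast))))))))))))))

theorem chkP : primF P LL qp dl dr = true := primF_of tailL tailR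

/-- (P) in dimension 4 -/
theorem prim4 (r : ℝ) (hr : 0 ≤ r) (hr1 : r ≠ 1) : ∑ k ∈ Finset.range (7 + 1),
    ck h4 k ((a4 : ℝ) ^ 2 * r ^ 2 / ((a4 : ℝ) ^ 2 * r ^ 2 + (b4 : ℝ) ^ 2)) *
      Fk 2 k (((a4 : ℝ) ^ 2 * r ^ 2 + (b4 : ℝ) ^ 2) / |r - 1|) ≤ 0 :=
  prim_final (P := P) tab (fun ρ h0 h1 x y hx hxy hle => sgn4 ρ h0 h1 x y hx hxy hle) parP entP (by norm_num) chkP
    (by unfold a4; norm_num [P]) (by unfold b4; norm_num [P]) hr hr1

end Pool.Agent.H25.SD.D4
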