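import Pool.Agent.H25.SD.D5DP

/-!
# Dimension 5: the dual condition (D) (H25/SD)
-/

namespace Pool.Agent.H25.SD.D5

open H46.SB H49.SG H81.SG

theorem parQ : parB Q qd LmaxN LL3.length = true := by decide +kernel

theorem chkQ : dualF Q 3 9799 LmaxN LL3 qd [16, 20, 24, 32, 40, 48, 56, 64] = true := dualF_of tailD

theorem tabQ : Tab (Fk 3) (2 ^ 72 / hh ^ 3) ((20 / 21) ^ Q.J) Q.Er LmaxN LL3 Q.W := by
  have h : ((20 / 21 : ℝ)) ^ Q.J = (21 / 20 : ℝ) ^ (-130 : ℤ) := by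
    rw [zpow_neg, ← inv_zpow, inv_div]
    norm_cast
  rw [h]
  exact tab3

/-- (D) in dimension 5 -/
theorem dual5 (ρ p : ℝ) (h0 : 0 ≤ ρ) (h1 : ρ ≤ 1) (hp : 0 < p) :
    0 ≤ ∑ k ∈ Finset.range (5 + 1), ck (hat 5 h5) k ρ * Fk 3 k p :=
  dual_final tabQ parQ entD (by norm_num) (e := 384) rfl (by norm_num) headU chkQ h0 h1 hp

end Pool.Agent.H25.SD.D5
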