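import Pool.Agent.H25.SD.Seg
import Pool.Agent.H25.SD.D5

/-!
# Dimension 5: the right staircase in pieces, part 1 (H25/SD)
-/

namespace Pool.Agent.H25.SD.D5

open H46.SB H49.SG H81.SG

theorem cR0 : partR P LL3 qp P.w 16686 0 11 dr = true := by decide +kernel

theorem cR11 : partR P LL3 qp 16686 17402 11 11 dr = true := by decide +kernel

theorem cR22 : partR P LL3 qp 17402 18028 22 11 dr = true := by decide +kernel

theorem cR33 : partR P LL3 qp 18028 19343 33 11 dr = true := by decide +kernel

theorem cR44 : partR P LL3 qp 19343 42323 44 11 dr = true := by decide +kernel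

end Pool.Agent.H25.SD.D5
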