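import Pool.Agent.H25.SD.Seg
import Pool.Agent.H25.SD.D5

/-!
# Dimension 5: the right staircase in pieces, part 2 (H25/SD)
-/

namespace Pool.Agent.H25.SD.D5

open H46.SB H49.SG H81.SG

theorem cR55 : partR P LL3 qp 42323 48152 55 11 dr = true := by decide +kernel

theorem cR66 : partR P LL3 qp 48152 51539 66 11 dr = true := by decide +kernel

theorem cR77 : partR P LL3 qp 51539 56733 77 11 dr = true := by decide +kernel

theorem cR88 : partR P LL3 qp 56733 95613 88 8 dr = true := by decide +kernel

theorem cRlast : lastR P LL3 qp 95613 96 dr = true := by decide +kernel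

end Pool.Agent.H25.SD.D5
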