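import Pool.Agent.H25.SD.D5PL
import Pool.Agent.H25.SD.D5PR1
import Pool.Agent.H25.SD.D5PR2
import Pool.Agent.H46.SB.Sgn5

/-!
# Dimension 5: the primal condition (P) (H25/SD)
-/

namespace Pool.Agent.H25.SD.D5

open H46.SB H49.SG H81.SG

theorem parP : parB P qp LmaxN LL3.length = true := by decide +kernel

theorem tailR : TailR P LL3 qp P.w 0 dr :=
  TailR.step (n := 0) (m := 11) cR0
    (TailR.step (n := 11) (m := 11) cR11
    (TailR.step (n := 22) (m := 11) cR22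
    (TailR.step (n := 33) (m := 11) cR33
    (TailR.step (n := 44) (m := 11) cR44
    (TailR.step (n := 55) (m := 11) cR55
    (TailR.step (n := 66) (m := 11) cR66
    (TailR.step (n := 77) (m := 11) cR77
    (TailR.step (n := 88) (m := 8) cR88
    (TailR.last (n := 96) cRlast)))))))))

theorem chkP : primF P LL3 qp dl dr = true := primF_of tailL tailR

theorem tabP : Tab (Fk 3) (2 ^ 72 / hh ^ 3) ((20 / 21) ^ P.J) P.Er LmaxN LL3 P.W := by
  have h : ((20 / 21 : ℝ)) ^ P.J = (21 / 20 : ℝ) ^ (-130 : ℤ) := by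
    rw [zpow_neg, ← inv_zpow, inv_div]
    norm_cast
  rw [h]
  exact tab3

/-- (P) in dimension 5 -/
theorem prim5 (r : ℝ) (hr : 0 ≤ r) (hr1 : r ≠ 1) : ∑ k ∈ Finset.range (5 + 1),
    ck h5 k ((a5 : ℝ) ^ 2 * r ^ 2 / ((a5 : ℝ) ^ 2 * r ^ 2 + (b5 : ℝ) ^ 2)) *
      Fk 3 k (((a5 : ℝ) ^ 2 * r ^ 2 + (b5 : ℝ) ^ 2) / |r - 1|) ≤ 0 :=
  prim_final tabP (fun ρ h0 h1 x y hx hxy hle => sgn5 ρ h0 h1 x y hx hxy hle) parP entP (by norm_num) chkP
    (by unfold a5; norm_num [P]) (by unfold b5; norm_num [P]) hr hr1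

end Pool.Agent.H25.SD.D5
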