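import Pool.Agent.H25.SD.D6DP

/-!
# Dimension 6: the dual condition (D) (H25/SD)
-/

namespace Pool.Agent.H25.SD.D6

open H46.SB H49.SG H81.SG

theorem parQ : parB Q qd LmaxN LL.length = true := by decide +kernel

theorem chkQ : dualF Q 4 17368 LmaxN LL qd [16, 20, 24, 32, 40, 48, 56, 64] = true := dualF_of tailD

/-- (D) in dimension 6 -/
theorem dual6 (ρ p : ℝ) (h0 : 0 ≤ ρ) (h1 : ρ ≤ 1) (hp : 0 < p) :
    0 ≤ ∑ k ∈ Finset.range (7 + 1), ck (hat 7 h6) k ρ * Fk 4 k p :=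
  dual_final (P := Q) tab parQ entD (by norm_num) (e := 384) rfl (by norm_num) headU chkQ h0 h1 hp

end Pool.Agent.H25.SD.D6
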