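import Pool.Agent.H25.SD.Seg
import Pool.Agent.H25.SD.D6

/-!
# Dimension 6: the right staircase in pieces, part 1 (H25/SD)
-/

namespace Pool.Agent.H25.SD.D6

open H46.SB H49.SG H81.SG

theorem cR0 : partR P LL qp P.w 15287 0 11 dr = true := by decide +kernel

theorem cR11 : partR P LL qp 15287 15935 11 11 dr = true := by decide +kernel

theorem cR22 : partR P LL qp 15935 16339 22 11 dr = true := by decide +kernel

theorem cR33 : partR P LL qp 16339 16789 33 11 dr = true := by decide +kernel

theorem cR44 : partR P LL qp 16789 17602 44 11 dr = true := by decide +kernel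

theorem cR55 : partR P LL qp 17602 20660 55 11 dr = true := by decide +kernel

theorem cR66 : partR P LL qp 20660 41065 66 11 dr = true := by decide +kernel

end Pool.Agent.H25.SD.D6
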