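import Pool.Agent.H25.SD.Seg
import Pool.Agent.H25.SD.D6

/-!
# Dimension 6: the left staircase in pieces (H25/SD)
-/

namespace Pool.Agent.H25.SD.D6

open H46.SB H49.SG H81.SG

theorem cL0 : partL P LL qp 0 4730 0 11 dl = true := by decide +kernel

theorem cL11 : partL P LL qp 4730 5378 11 11 dl = true := by decide +kernel

theorem cL22 : partL P LL qp 5378 5621 22 11 dl = true := by decide +kernel

theorem cL33 : partL P LL qp 5621 5786 33 11 dl = true := by decide +kernel

theorem cL44 : partL P LL qp 5786 6007 44 11 dl = true := by decide +kernel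

theorem cL55 : partL P LL qp 6007 6568 55 11 dl = true := by decide +kernel

theorem cL66 : partL P LL qp 6568 P.w 66 6 dl = true := by decide +kernel

theorem tailL : TailL P LL qp 0 0 dl :=
  TailL.step (n := 0) (m := 11) cL0
    (TailL.step (n := 11) (m := 11) cL11
    (TailL.step (n := 22) (m := 11) cL22
    (TailL.step (n := 33) (m := 11) cL33
    (TailL.step (n := 44) (m := 11) cL44
    (TailL.step (n := 55) (m := 11) cL55
    (TailL.last (n := 66) (m := 6) cL66 (by decide)))))))

end Pool.Agent.H25.SD.D6
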