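import Pool.Agent.H25.SD.Stair

/-!
# Packed tables (H25/SD): digits
-/

namespace Pool.Agent.H25.SD

open Finset H81.L2

/-- digit `i` of all the packed rows -/
def colQ (B i : ℕ) (qs : List ℕ) : List ℕ := qs.map fun q => Nat.mod (Nat.div q (Nat.pow B i)) B

theorem pack_dig {B : ℕ} (hB : 0 < B) {l : List ℕ} (hl : ∀ x ∈ l, x < B) (i : ℕ) :
    packL B l / B ^ i % B = l.getD i 0 := by
  have hc : ∀ m, (fun j => l.getD j 0) m < B := by
    intro m
    simp only
    rcases lt_or_ge m l.length with h | h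
    · rw [List.getD_eq_getElem _ _ h]; exact hl _ (List.getElem_mem h)
    · rw [List.getD_eq_default _ _ h]; exact hB
  rw [packL_eq B l (l.length + i + 1) (by omega), pk_div_pow hB i _ _ hc]
  have e : l.length + i + 1 - i = l.length + 1 := by omega
  rw [e, pk_mod _ (by simpa using hc (0 + i))]
  simp

/-- the packed rows have the right columns -/
theorem colQ_eq {B : ℕ} (hB : 0 < B) {L : List (List ℕ)} (hL : ∀ l ∈ L, ∀ x ∈ l, x < B) (i : ℕ) :
    colQ B i (L.map (packL B)) = colD L i := by
  unfold colQ colD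
  rw [List.map_map]
  refine List.map_congr_left fun l hl => ?_
  exact pack_dig hB (hL l hl) i

theorem pack_tail {B : ℕ} (hB : 0 < B) {l : List ℕ} (hl : ∀ x ∈ l, x < B) {W : ℕ} (hlen : l.length = W + 1) :
    packL B l / B = ∑ i ∈ range W, l.getD (i + 1) 0 * B ^ i := by
  have hc : ∀ m, (fun j => l.getD j 0) m < B := by
    intro m
    simp only
    rcases lt_or_ge m l.length with h | h
    · rw [List.getD_eq_getElem _ _ h]; exact hl _ (List.getElem_mem h)
    · rw [List.getD_eq_default _ _ h]; exact hB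
  rw [packL_eq B l (W + 1) hlen.le, pk_div W (by simpa using hc 0)]
  rfl

theorem pk_lt {B : ℕ} (c : ℕ → ℕ) : ∀ n, (∀ m < n, c m < B) → pk B c n < B ^ n := by
  intro n
  induction n with
  | zero => intro _; simp [pk]
  | succ n ih =>
    intro h
    unfold pk
    rw [Finset.sum_range_succ]
    have h1 := ih fun m hm => h m (by omega)
    unfold pk at h1
    have h2 : c n + 1 ≤ B := h n (by omega)
    have h3 : (c n + 1) * B ^ n ≤ B * B ^ n := Nat.mul_le_mul_right _ h2
    have h4 : B ^ (n + 1) = B * B ^ n := by rw [pow_succ]; ring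
    rw [h4]
    have h5 : (c n + 1) * B ^ n = c n * B ^ n + B ^ n := by ring
    omega

theorem pack_init {B : ℕ} {l : List ℕ} (hl : ∀ x ∈ l, x < B) {W : ℕ} (hlen : l.length = W + 1) :
    packL B l % B ^ W = ∑ i ∈ range W, l.getD i 0 * B ^ i := by
  rw [packL_eq B l (W + 1) hlen.le]
  unfold pk
  rw [Finset.sum_range_succ, Nat.add_mul_mod_self_right, Nat.mod_eq_of_lt]
  refine pk_lt (B := B) (fun i => l.getD i 0) W fun m hm => ?_
  rw [List.getD_eq_getElem _ _ (by omega)]
  exact hl _ (List.getElem_mem _)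

theorem ones_eq {B : ℕ} (hB : 2 ≤ B) (W : ℕ) : (B ^ W - 1) / (B - 1) = ∑ i ∈ range W, B ^ i := by
  rw [Nat.geomSum_eq hB]

/-- a computable bound: all entries less than `B` -/
def allLt (B : ℕ) : List ℕ → Bool
  | [] => true
  | x :: l => Nat.blt x B && allLt B l

theorem allLt_spec {B : ℕ} {l : List ℕ} (h : allLt B l = true) : ∀ x ∈ l, x < B := by
  induction l with
  | nil => intro x hx; simp at hx
  | cons a l ih =>
    simp only [allLt, Bool.and_eq_true, Nat.blt_eq] at h
    intro x hx
    rcases List.mem_cons.1 hx with rfl | h2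
    · exact h.1
    · exact ih h.2 x h2

end Pool.Agent.H25.SD
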