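import Pool.Agent.H25.SD.Sound
import Pool.Agent.H46.SB.Cross

/-!
# HEAD: positivity of `lin (Fk n) 0 β p` for small `p`

Let `θ = p d/dp`.  By `Fam (Fk n)`: `-θ F_k = F_(k+1) - k F_k`, so `(-θ)^i (lin F 0 β) = lin F 0 (stepB^[i] β)`.
With `F_m` for `Fk m` and `z = p exp (-t/2)`:
* `lin F_(m+1) 0 γ p = ∫ exp (-exp t) lin F_m 0 γ z dt` (`Jn_fubini`);
* `lin F_(m+1) 0 (stepB γ) p = 2 ∫ exp (t - exp t) lin F_m 0 γ z dt` (integration by parts), if `lin F_m 0 γ` is bounded;
* hence by induction `2^m (b0 - C p √π^m) ≤ lin F_m 0 (stepB^[m] β) p` if `b0 - C z ≤ lin F_0 0 β z` for all `z > 0`.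
So `y_n := lin F 0 (stepB^[n] β) > 0` on `(0, p0]`, and `y_i' = -y_(i+1)/p`, `y_i(p0) > 0`, give
`y_i > 0` on `(0, p0]` for `i = n-1, …, 0`.
-/

namespace Pool.Agent.H25.SD

open Finset MeasureTheory H46.SB H49.SG H81.LP Filter Topology

/-- `-θ` on coefficient lists: `(stepB β)_k = β_(k-1) - k β_k` -/
def stepA : ℕ → ℤ → List ℤ → List ℤ
  | _, b', [] => [b']
  | k, b', b :: β => (b' - k * b) :: stepA (k + 1) b β

/-- `-θ` on coefficient lists -/
def stepB (β : List ℤ) : List ℤ := stepA 0 0 β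

/-- `∑_(k ≥ 1) (k-1)! β_k^-` for the list `[β_1, β_2, …]`, `k` = index of the head -/
def headN : ℕ → List ℤ → ℕ
  | _, [] => 0
  | k, b :: β => (k - 1).factorial * (-b).toNat + headN (k + 1) β

theorem lin_derA {F : ℕ → ℝ → ℝ} (hF : Fam F) (γ : List ℤ) : ∀ (k : ℕ) (b' : ℤ) {p : ℝ}, 0 < p →
    HasDerivAt (fun x => lin F k γ x) (-(lin F k (stepA k b' γ) p - b' * F k p) / p) p := by
  induction γ with
  | nil =>
    intro k b' p hp
    have h1 : HasDerivAt (fun x : ℝ => (0 : ℝ)) 0 p := hasDerivAt_const p 0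
    refine h1.congr_deriv ?_
    simp [stepA, lin]
  | cons b β ih =>
    intro k b' p hp
    have h1 := ih (k + 1) b hp
    have h2 := (hF.der k p hp).const_mul (b : ℝ)
    have h3 := h2.add h1
    refine h3.congr_deriv ?_
    simp only [stepA, lin]
    push_cast
    field_simp
    ring

theorem lin_der {F : ℕ → ℝ → ℝ} (hF : Fam F) (γ : List ℤ) {p : ℝ} (hp : 0 < p) :
    HasDerivAt (fun x => lin F 0 γ x) (-lin F 0 (stepB γ) p / p) p := by
  have h := lin_derA hF γ 0 0 hp
  refine h.congr_deriv ?_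
  unfold stepB
  simp

theorem lin_fubini (m : ℕ) (γ : List ℤ) : ∀ (k : ℕ) {p : ℝ}, 0 < p →
    Integrable (fun t : ℝ => Real.exp (-Real.exp t) * lin (Fk m) k γ (p * Real.exp (-t / 2))) ∧
    lin (Fk (m + 1)) k γ p =
      ∫ t : ℝ, Real.exp (-Real.exp t) * lin (Fk m) k γ (p * Real.exp (-t / 2)) := by
  induction γ with
  | nil => intro k p hp; simp [lin]
  | cons b β ih =>
    intro k p hp
    obtain ⟨h1, h2⟩ := ih (k + 1) hp
    obtain ⟨h3, h4⟩ := Jn_fubini (dec_pow k) m hp
    have h5 : ∀ t : ℝ, Real.exp (-Real.exp t) * lin (Fk m) k (b :: β) (p * Real.exp (-t / 2)) =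
        (b : ℝ) * (Real.exp (-Real.exp t) *
          Jn m (fun z => z ^ k * Real.exp (-z)) (p * Real.exp (-t / 2))) +
        Real.exp (-Real.exp t) * lin (Fk m) (k + 1) β (p * Real.exp (-t / 2)) := by
      intro t
      simp only [lin, Fk]
      ring
    constructor
    · simp only [h5]
      exact (h3.const_mul _).add h1
    · simp only [h5]
      rw [integral_add (h3.const_mul _) h1, integral_const_mul, ← h4, ← h2]
      rfl

theorem Fk_bound (m k : ℕ) : ∃ C, ∀ p, 0 < p → |Fk m k p| ≤ C / p := by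
  obtain ⟨hc, C, hC⟩ := dec_pow k
  refine ⟨C * (Real.Gamma (1 / 2)) ^ m, fun p hp => ?_⟩
  obtain ⟨g1, g2⟩ := prod_gamma m (a := 1 / 2) (by norm_num)
  have h1 := g1.const_mul (C / p)
  have h2 : |Fk m k p| ≤ ∫ v : Fin m → ℝ, C / p * ∏ i, Real.exp (-Real.exp (v i) + 1 / 2 * v i) := by
    rw [← Real.norm_eq_abs]
    refine norm_integral_le_of_norm_le h1 (Filter.Eventually.of_forall fun v => ?_)
    rw [Real.norm_eq_abs, abs_mul, abs_of_pos (Real.exp_pos _)]
    have h2 := hC (p * Real.exp (-(∑ i, v i) / 2)) (by positivity)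
    have h3 : ∏ i, Real.exp (-Real.exp (v i) + 1 / 2 * v i) =
        Real.exp (-(∑ i, Real.exp (v i))) * Real.exp ((∑ i, v i) / 2) := by
      rw [← Real.exp_sum, ← Real.exp_add, Finset.sum_add_distrib, Finset.sum_neg_distrib,
        ← Finset.mul_sum]
      congr 1
      ring
    rw [h3]
    calc Real.exp (-∑ i, Real.exp (v i)) * |(p * Real.exp (-(∑ i, v i) / 2)) ^ k *
          Real.exp (-(p * Real.exp (-(∑ i, v i) / 2)))|
        ≤ Real.exp (-∑ i, Real.exp (v i)) * (C / (p * Real.exp (-(∑ i, v i) / 2))) :=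
          mul_le_mul_of_nonneg_left h2 (Real.exp_pos _).le
      _ = C / p * (Real.exp (-∑ i, Real.exp (v i)) * Real.exp ((∑ i, v i) / 2)) := by
          rw [div_mul_eq_div_div, neg_div, Real.exp_neg ((∑ i, v i) / 2)]
          rw [div_inv_eq_mul]
          ring
  rw [integral_const_mul, g2] at h2
  calc |Fk m k p| ≤ C / p * Real.Gamma (1 / 2) ^ m := h2
    _ = _ := by ring

theorem lin_bound (m : ℕ) (γ : List ℤ) : ∀ k : ℕ, ∃ C, ∀ p, 0 < p → |lin (Fk m) k γ p| ≤ C / p := by
  induction γ with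
  | nil => intro k; exact ⟨0, fun p _ => by simp [lin]⟩
  | cons b β ih =>
    intro k
    obtain ⟨C1, h1⟩ := ih (k + 1)
    obtain ⟨C2, h2⟩ := Fk_bound m k
    refine ⟨|(b : ℝ)| * C2 + C1, fun p hp => ?_⟩
    simp only [lin]
    calc |(b : ℝ) * Fk m k p + lin (Fk m) (k + 1) β p|
        ≤ |(b : ℝ) * Fk m k p| + |lin (Fk m) (k + 1) β p| := abs_add_le _ _
      _ ≤ |(b : ℝ)| * (C2 / p) + C1 / p := by
          rw [abs_mul]
          exact add_le_add (mul_le_mul_of_nonneg_left (h2 p hp) (abs_nonneg _)) (h1 p hp)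
      _ = _ := by ring

/-- integration by parts -/
theorem lin_step (m : ℕ) (hF : Fam (Fk m)) (γ : List ℤ) {B : ℝ}
    (hB : ∀ p, 0 < p → |lin (Fk m) 0 γ p| ≤ B) {p : ℝ} (hp : 0 < p) :
    Integrable (fun t : ℝ => Real.exp (t - Real.exp t) * lin (Fk m) 0 γ (p * Real.exp (-t / 2))) ∧
    lin (Fk (m + 1)) 0 (stepB γ) p =
      2 * ∫ t : ℝ, Real.exp (t - Real.exp t) * lin (Fk m) 0 γ (p * Real.exp (-t / 2)) := by
  have hder : ∀ t : ℝ, HasDerivAt (fun t : ℝ => lin (Fk m) 0 γ (p * Real.exp (-t / 2)))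
      (1 / 2 * lin (Fk m) 0 (stepB γ) (p * Real.exp (-t / 2))) t := by
    intro t
    have h1 := lin_der hF γ (p := p * Real.exp (-t / 2)) (by positivity)
    have h2 : HasDerivAt (fun t : ℝ => p * Real.exp (-t / 2)) (p * (Real.exp (-t / 2) * (-1 / 2))) t :=
      (((hasDerivAt_neg t).div_const 2).exp).const_mul p
    have h3 := h1.comp t h2
    refine h3.congr_deriv ?_
    have : p * Real.exp (-t / 2) ≠ 0 := by positivity
    field_simp
  have hcont : Continuous (fun t : ℝ => lin (Fk m) 0 γ (p * Real.exp (-t / 2))) :=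
    continuous_iff_continuousAt.2 fun t => (hder t).continuousAt
  have hi1 : Integrable (fun t : ℝ => Real.exp (t - Real.exp t) *
      lin (Fk m) 0 γ (p * Real.exp (-t / 2))) := by
    have h1 := (exp_gamma_integrable (a := 1) one_pos).1.mul_const B
    refine h1.mono' (by fun_prop) (Filter.Eventually.of_forall fun t => ?_)
    rw [Real.norm_eq_abs, abs_mul, abs_of_pos (Real.exp_pos _)]
    have h2 : t - Real.exp t = -Real.exp t + 1 * t := by ring
    rw [h2]
    exact mul_le_mul_of_nonneg_left (hB _ (by positivity)) (Real.exp_pos _).le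
  refine ⟨hi1, ?_⟩
  obtain ⟨hi2, he⟩ := lin_fubini m (stepB γ) 0 hp
  have hE : ∀ t : ℝ, HasDerivAt (fun t : ℝ => Real.exp (-Real.exp t) *
      lin (Fk m) 0 γ (p * Real.exp (-t / 2)))
      (1 / 2 * (Real.exp (-Real.exp t) * lin (Fk m) 0 (stepB γ) (p * Real.exp (-t / 2))) -
        Real.exp (t - Real.exp t) * lin (Fk m) 0 γ (p * Real.exp (-t / 2))) t := by
    intro t
    have h1 : HasDerivAt (fun t : ℝ => Real.exp (-Real.exp t))
        (Real.exp (-Real.exp t) * -Real.exp t) t := ((Real.hasDerivAt_exp t).neg).exp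
    refine (h1.mul (hder t)).congr_deriv ?_
    rw [sub_eq_add_neg t, Real.exp_add]
    ring
  have hbot : Tendsto (fun t : ℝ => Real.exp (-Real.exp t) *
      lin (Fk m) 0 γ (p * Real.exp (-t / 2))) atBot (𝓝 0) := by
    obtain ⟨C, hC⟩ := lin_bound m γ 0
    have h1 : Tendsto (fun t : ℝ => C / p * Real.exp (t / 2)) atBot (𝓝 (C / p * 0)) := by
      refine Tendsto.const_mul _ ?_
      exact Real.tendsto_exp_atBot.comp (tendsto_id.atBot_div_const (by norm_num))
    rw [mul_zero] at h1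
    refine squeeze_zero_norm (fun t => ?_) h1
    rw [Real.norm_eq_abs, abs_mul, abs_of_pos (Real.exp_pos _)]
    have h2 := hC (p * Real.exp (-t / 2)) (by positivity)
    have h3 : C / (p * Real.exp (-t / 2)) = C / p * Real.exp (t / 2) := by
      rw [neg_div, Real.exp_neg, div_mul_eq_div_div, div_inv_eq_mul]
    rw [h3] at h2
    calc Real.exp (-Real.exp t) * |lin (Fk m) 0 γ (p * Real.exp (-t / 2))|
        ≤ 1 * |lin (Fk m) 0 γ (p * Real.exp (-t / 2))| :=
          mul_le_mul_of_nonneg_right (Real.exp_le_one_iff.2 (by linarith [Real.exp_pos t])) (abs_nonneg _)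
      _ ≤ _ := by rw [one_mul]; exact h2
  have htop : Tendsto (fun t : ℝ => Real.exp (-Real.exp t) *
      lin (Fk m) 0 γ (p * Real.exp (-t / 2))) atTop (𝓝 0) := by
    have h1 : Tendsto (fun t : ℝ => Real.exp (-Real.exp t) * B) atTop (𝓝 (0 * B)) := by
      refine Tendsto.mul_const _ ?_
      exact Real.tendsto_exp_atBot.comp (tendsto_neg_atTop_atBot.comp Real.tendsto_exp_atTop)
    rw [zero_mul] at h1
    refine squeeze_zero_norm (fun t => ?_) h1
    rw [Real.norm_eq_abs, abs_mul, abs_of_pos (Real.exp_pos _)]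
    exact mul_le_mul_of_nonneg_left (hB _ (by positivity)) (Real.exp_pos _).le
  have h1 := integral_of_hasDerivAt_of_tendsto hE ((hi2.const_mul _).sub hi1) hbot htop
  rw [integral_sub (hi2.const_mul _) hi1, integral_const_mul, ← he] at h1
  linarith

theorem head_key (hF : ∀ m, Fam (Fk m)) {β : List ℤ} {b C B : ℝ}
    (h0 : ∀ z, 0 < z → b - C * z ≤ lin (Fk 0) 0 β z)
    (hB : ∀ z, 0 < z → |lin (Fk 0) 0 β z| ≤ B) (m : ℕ) : ∀ p, 0 < p →
    2 ^ m * (b - C * (p * √Real.pi ^ m)) ≤ lin (Fk m) 0 (stepB^[m] β) p ∧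
      |lin (Fk m) 0 (stepB^[m] β) p| ≤ 2 ^ m * B := by
  induction m with
  | zero =>
    intro p hp
    simpa using ⟨by linarith [h0 p hp], hB p hp⟩
  | succ m ih =>
    intro p hp
    obtain ⟨h1, h2⟩ := lin_step m (hF m) (stepB^[m] β) (B := 2 ^ m * B) (fun q hq => (ih q hq).2) hp
    rw [Function.iterate_succ_apply', h2]
    obtain ⟨g1, g2⟩ := exp_gamma_integrable (a := 1) one_pos
    obtain ⟨g3, g4⟩ := exp_gamma_integrable (a := 1 / 2) (by norm_num)
    rw [Real.Gamma_one] at g2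
    rw [Real.Gamma_one_half_eq] at g4
    constructor
    · have h3 : ∀ t : ℝ, 2 ^ m * b * Real.exp (-Real.exp t + 1 * t) -
          2 ^ m * C * (p * √Real.pi ^ m) * Real.exp (-Real.exp t + 1 / 2 * t) ≤
          Real.exp (t - Real.exp t) * lin (Fk m) 0 (stepB^[m] β) (p * Real.exp (-t / 2)) := by
        intro t
        have h4 := mul_le_mul_of_nonneg_left (ih (p * Real.exp (-t / 2)) (by positivity)).1
          (Real.exp_pos (t - Real.exp t)).le
        refine le_trans (le_of_eq ?_) h4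
        have e1 : -Real.exp t + 1 * t = t - Real.exp t := by ring
        have e2 : -Real.exp t + 1 / 2 * t = (t - Real.exp t) + -t / 2 := by ring
        rw [e1, e2, Real.exp_add]
        ring
      have h5 := integral_mono ((g1.const_mul (2 ^ m * b)).sub
        (g3.const_mul (2 ^ m * C * (p * √Real.pi ^ m)))) h1 h3
      simp only [Pi.sub_apply] at h5
      rw [integral_sub (g1.const_mul _) (g3.const_mul _), integral_const_mul, integral_const_mul,
        g2, g4] at h5
      calc 2 ^ (m + 1) * (b - C * (p * √Real.pi ^ (m + 1)))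
          = 2 * (2 ^ m * b * 1 - 2 ^ m * C * (p * √Real.pi ^ m) * √Real.pi) := by ring
        _ ≤ _ := mul_le_mul_of_nonneg_left h5 (by norm_num)
    · rw [abs_mul, abs_of_pos (by norm_num : (0:ℝ) < 2), pow_succ, mul_comm (2 ^ m) 2, mul_assoc]
      refine mul_le_mul_of_nonneg_left ?_ (by norm_num)
      have h6 : |∫ t : ℝ, Real.exp (t - Real.exp t) *
          lin (Fk m) 0 (stepB^[m] β) (p * Real.exp (-t / 2))| ≤
          ∫ t : ℝ, Real.exp (-Real.exp t + 1 * t) * (2 ^ m * B) := by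
        rw [← Real.norm_eq_abs]
        refine norm_integral_le_of_norm_le (g1.mul_const _) (Filter.Eventually.of_forall fun t => ?_)
        rw [Real.norm_eq_abs, abs_mul, abs_of_pos (Real.exp_pos _)]
        have e1 : -Real.exp t + 1 * t = t - Real.exp t := by ring
        rw [e1]
        exact mul_le_mul_of_nonneg_left (ih _ (by positivity)).2 (Real.exp_pos _).le
      rw [integral_mul_const, g2, one_mul] at h6
      exact h6

theorem Fk_zero (k : ℕ) (z : ℝ) : Fk 0 k z = z ^ k * Real.exp (-z) := by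
  unfold Fk
  rw [Jn_zero]

theorem pow_exp_le (k : ℕ) {z : ℝ} (hz : 0 < z) : z ^ k * Real.exp (-z) ≤ k.factorial := by
  have h1 : z ^ k / k.factorial ≤ Real.exp z := Real.pow_div_factorial_le_exp z hz.le _
  rw [div_le_iff₀ (by positivity)] at h1
  calc z ^ k * Real.exp (-z) ≤ (Real.exp z * k.factorial) * Real.exp (-z) :=
        mul_le_mul_of_nonneg_right h1 (Real.exp_pos _).le
    _ = k.factorial * (Real.exp z * Real.exp (-z)) := by ring
    _ = k.factorial := by rw [← Real.exp_add]; simp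

theorem lin0_bdd (γ : List ℤ) : ∀ k : ℕ, ∃ B, ∀ z, 0 < z → |lin (Fk 0) k γ z| ≤ B := by
  induction γ with
  | nil => intro k; exact ⟨0, fun p _ => by simp [lin]⟩
  | cons b β ih =>
    intro k
    obtain ⟨C1, h1⟩ := ih (k + 1)
    refine ⟨|(b : ℝ)| * k.factorial + C1, fun p hp => ?_⟩
    simp only [lin]
    refine (abs_add_le _ _).trans (add_le_add ?_ (h1 p hp))
    rw [abs_mul, Fk_zero, abs_of_nonneg (by positivity : (0:ℝ) ≤ p ^ k * Real.exp (-p))]
    exact mul_le_mul_of_nonneg_left (pow_exp_le k hp) (abs_nonneg _)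

theorem lin0_lower (γ : List ℤ) : ∀ k : ℕ, 1 ≤ k → ∀ z, 0 < z →
    -((headN k γ : ℝ) * z) ≤ lin (Fk 0) k γ z := by
  induction γ with
  | nil => intro k _ z _; simp [lin, headN]
  | cons b β ih =>
    intro k hk z hz
    have h1 := ih (k + 1) (by omega) z hz
    simp only [lin, headN, Fk_zero]
    obtain ⟨j, rfl⟩ : ∃ j, k = j + 1 := ⟨k - 1, by omega⟩
    rw [Nat.add_sub_cancel]
    have h2 : z ^ (j + 1) * Real.exp (-z) ≤ j.factorial * z := by
      rw [pow_succ]
      nlinarith [pow_exp_le j hz]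
    have h3 : (-(((-b).toNat : ℕ) : ℝ)) ≤ (b : ℝ) := by
      have : (-b) ≤ (((-b).toNat : ℕ) : ℤ) := Int.self_le_toNat _
      have h4 : (-(b : ℝ)) ≤ (((-b).toNat : ℕ) : ℝ) := by exact_mod_cast this
      linarith
    have h5 : (0 : ℝ) ≤ z ^ (j + 1) * Real.exp (-z) := by positivity
    have h6 : -((((-b).toNat : ℕ) : ℝ) * (j.factorial * z)) ≤ (b : ℝ) * (z ^ (j + 1) * Real.exp (-z)) := by
      calc -((((-b).toNat : ℕ) : ℝ) * (j.factorial * z))
          ≤ -((((-b).toNat : ℕ) : ℝ) * (z ^ (j + 1) * Real.exp (-z))) :=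
            neg_le_neg (mul_le_mul_of_nonneg_left h2 (Nat.cast_nonneg _))
        _ = (-(((-b).toNat : ℕ) : ℝ)) * (z ^ (j + 1) * Real.exp (-z)) := by ring
        _ ≤ _ := mul_le_mul_of_nonneg_right h3 h5
    push_cast
    nlinarith

theorem head_pos (n : ℕ) (hF : ∀ m, Fam (Fk m)) {b0 : ℤ} {β : List ℤ} {p0 : ℝ} (hp0 : 0 < p0)
    (hpos : ∀ i < n, 0 < lin (Fk n) 0 (stepB^[i] (b0 :: β)) p0)
    (hb : p0 * √Real.pi ^ n * ((b0 : ℝ) + headN 1 β) < b0) (hb0 : 0 < b0)
    {p : ℝ} (hp : 0 < p) (hpp : p ≤ p0) : 0 < lin (Fk n) 0 (b0 :: β) p := by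
  have hb0' : (0 : ℝ) < b0 := by exact_mod_cast hb0
  obtain ⟨B, hB⟩ := lin0_bdd (b0 :: β) 0
  have h0 : ∀ z, 0 < z → (b0 : ℝ) - ((b0 : ℝ) + headN 1 β) * z ≤ lin (Fk 0) 0 (b0 :: β) z := by
    intro z hz
    have h1 := lin0_lower β 1 le_rfl z hz
    simp only [lin, Fk_zero, pow_zero, one_mul]
    have h2 : 1 - z ≤ Real.exp (-z) := by
      have := Real.add_one_le_exp (-z)
      linarith
    have h3 := mul_le_mul_of_nonneg_left h2 hb0'.le
    nlinarith
  have hn : ∀ q, 0 < q → q ≤ p0 → 0 < lin (Fk n) 0 (stepB^[n] (b0 :: β)) q := by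
    intro q hq hqp
    refine lt_of_lt_of_le ?_ (head_key hF h0 hB n q hq).1
    refine mul_pos (by positivity) ?_
    have h1 : ((b0 : ℝ) + headN 1 β) * (q * √Real.pi ^ n) ≤
        ((b0 : ℝ) + headN 1 β) * (p0 * √Real.pi ^ n) :=
      mul_le_mul_of_nonneg_left (mul_le_mul_of_nonneg_right hqp (by positivity)) (by positivity)
    linarith
  -- descending induction
  have hdesc : ∀ j, j ≤ n → ∀ q, 0 < q → q ≤ p0 → 0 < lin (Fk n) 0 (stepB^[n - j] (b0 :: β)) q := by
    intro j
    induction j with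
    | zero => intro _ q hq hqp; simpa using hn q hq hqp
    | succ j ih =>
      intro hj q hq hqp
      have ih' := ih (by omega)
      have e1 : n - j = (n - (j + 1)) + 1 := by omega
      rw [e1] at ih'
      simp only [Function.iterate_succ_apply'] at ih'
      set γ := stepB^[n - (j + 1)] (b0 :: β) with hγ
      have hanti : AntitoneOn (fun x => lin (Fk n) 0 γ x) (Set.Ioc 0 p0) := by
        refine antitoneOn_of_deriv_nonpos (convex_Ioc 0 p0) ?_ ?_ ?_
        · intro z hz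
          exact (lin_der (hF n) γ hz.1).continuousAt.continuousWithinAt
        · intro z hz
          exact (lin_der (hF n) γ (interior_subset hz).1).differentiableAt.differentiableWithinAt
        · intro z hz
          have hz' := interior_subset hz
          rw [(lin_der (hF n) γ hz'.1).deriv]
          have := ih' z hz'.1 hz'.2
          exact div_nonpos_of_nonpos_of_nonneg (by linarith) hz'.1.le
      have h1 := hanti ⟨hq, hqp⟩ ⟨hp0, le_rfl⟩ hqp
      exact lt_of_lt_of_le (hpos _ (by omega)) h1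
  have := hdesc n le_rfl p hp hpp
  simpa using this

end Pool.Agent.H25.SD
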