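import Pool.Agent.H25.SD.Sound
import Pool.Agent.H46.SB.Cross

/-!
# TAIL: nonnegativity of `lin (Fk n) 0 β p` for large `p`

`tailB β` replaces every coefficient except the last one by `min b 0`.  As `F > 0`,
`lin F 0 β ≥ lin F 0 (tailB β)`; the function `φ z = -(∑ (tailB β)_k z^k) exp (-z)` satisfies
`φ x ≤ 0 → φ y ≤ 0` for `0 < x ≤ y` (the last coefficient is `≥ 0`, all others are `≤ 0`, so
`(∑_(k<K) ψ_k z^k)/z^K` is increasing), `lin (Fk n) 0 (tailB β) p = -Jn n φ p` (`Jn_poly`), and
`H46.SB.cross` applies (`dec_poly`).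
-/

namespace Pool.Agent.H25.SD

open Finset H46.SB

/-- all coefficients but the last one are replaced by their negative parts -/
def tailB : List ℤ → List ℤ
  | [] => []
  | [b] => [b]
  | b :: β => min b 0 :: tailB β

/-- the last coefficient is nonnegative -/
def lastNN : List ℤ → Bool
  | [] => true
  | [b] => decide (0 ≤ b)
  | _ :: β => lastNN β

/-- the polynomial with the coefficient list `γ` -/
theorem lin_jn (n : ℕ) (γ : List ℤ) : ∀ k : ℕ,
    Dec (fun z => lin (fun k z => z ^ k) k γ z * Real.exp (-z)) ∧ ∀ p, 0 < p →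
    H49.SG.Jn n (fun z => lin (fun k z => z ^ k) k γ z * Real.exp (-z)) p = lin (Fk n) k γ p := by
  induction γ with
  | nil =>
    intro k
    simp only [lin, zero_mul]
    exact ⟨Dec.zero, fun p _ => Jn_zero_fun n p⟩
  | cons b β ih =>
    intro k
    obtain ⟨h1, h2⟩ := ih (k + 1)
    have h3 : (fun z : ℝ => lin (fun k z => z ^ k) k (b :: β) z * Real.exp (-z)) =
        fun z => (b : ℝ) * (z ^ k * Real.exp (-z)) +
          lin (fun k z => z ^ k) (k + 1) β z * Real.exp (-z) := by
      funext z
      simp only [lin]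
      ring
    rw [h3]
    refine ⟨((dec_pow k).const_mul _).add h1, fun p hp => ?_⟩
    rw [Jn_add ((dec_pow k).const_mul _) h1 n hp, Jn_const_mul, h2 p hp]
    rfl

theorem tail_le (β : List ℤ) {F : ℕ → ℝ → ℝ} (hF : Fam F) {p : ℝ} (hp : 0 < p) : ∀ k : ℕ,
    lin F k (tailB β) p ≤ lin F k β p := by
  induction β with
  | nil => intro k; exact le_rfl
  | cons b β ih =>
    intro k
    cases β with
    | nil => exact le_rfl
    | cons c β =>
      have h1 := ih (k + 1)
      simp only [tailB, lin] at h1 ⊢
      refine add_le_add (mul_le_mul_of_nonneg_right ?_ (hF.pos k p hp).le) h1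
      exact_mod_cast min_le_left _ _

theorem tail_grow (β : List ℤ) {x y : ℝ} (hx : 0 < x) (hxy : x ≤ y) : ∀ k : ℕ,
    (y / x) ^ (k + β.length - 1) * lin (fun k z => z ^ k) k (tailB β) x ≤
      lin (fun k z => z ^ k) k (tailB β) y := by
  induction β with
  | nil => intro k; simp [tailB, lin]
  | cons b β ih =>
    intro k
    cases β with
    | nil =>
      simp only [tailB, lin, List.length_cons, List.length_nil, zero_add, Nat.add_sub_cancel, add_zero]
      rw [div_pow]
      field_simp
      exact le_rfl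
    | cons c β =>
      have h1 := ih (k + 1)
      have e1 : k + (b :: c :: β).length - 1 = k + 1 + (c :: β).length - 1 := by
        simp only [List.length_cons]
        omega
      rw [e1]
      simp only [tailB, lin] at h1 ⊢
      rw [mul_add]
      refine add_le_add ?_ h1
      have h2 : ((min b 0 : ℤ) : ℝ) ≤ 0 := by exact_mod_cast min_le_right b 0
      have h3 : (1 : ℝ) ≤ y / x := by rw [le_div_iff₀ hx]; simpa using hxy
      have h4 : y ^ k ≤ (y / x) ^ (k + 1 + (c :: β).length - 1) * x ^ k := by
        have h5 : y ^ k = (y / x) ^ k * x ^ k := by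
          rw [div_pow]
          field_simp
        rw [h5]
        refine mul_le_mul_of_nonneg_right ?_ (by positivity)
        refine pow_le_pow_right₀ h3 ?_
        simp only [List.length_cons]
        omega
      calc (y / x) ^ (k + 1 + (c :: β).length - 1) * (((min b 0 : ℤ) : ℝ) * x ^ k)
          = ((min b 0 : ℤ) : ℝ) * ((y / x) ^ (k + 1 + (c :: β).length - 1) * x ^ k) := by ring
        _ ≤ ((min b 0 : ℤ) : ℝ) * y ^ k := mul_le_mul_of_nonpos_left h4 h2

theorem tail_nonneg (n : ℕ) (hF : Fam (Fk n)) {β : List ℤ} (_hl : lastNN β = true) {pW p : ℝ}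
    (hpW : 0 < pW) (h : 0 ≤ lin (Fk n) 0 (tailB β) pW) (hp : pW ≤ p) : 0 ≤ lin (Fk n) 0 β p := by
  obtain ⟨h1, h2⟩ := lin_jn n (tailB β) 0
  have hp0 : 0 < p := hpW.trans_le hp
  refine le_trans ?_ (tail_le β hF hp0 0)
  have hc := cross (h1.const_mul (-1)) (fun x y hx hxy hle => ?_) n pW p hpW hp ?_
  · rw [Jn_const_mul, h2 p hp0] at hc
    linarith
  · have h3 : 0 ≤ lin (fun k z => z ^ k) 0 (tailB β) x := by
      have h4 := Real.exp_pos (-x)
      by_contra hcon
      push Not at hcon
      have := mul_neg_of_neg_of_pos hcon h4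
      linarith
    have h5 := tail_grow β hx hxy 0
    have h6 : 0 ≤ lin (fun k z => z ^ k) 0 (tailB β) y := by
      refine le_trans ?_ h5
      exact mul_nonneg (pow_nonneg (div_nonneg (hx.le.trans hxy) hx.le) _) h3
    have := mul_nonneg h6 (Real.exp_pos (-y)).le
    linarith
  · rw [Jn_const_mul, h2 pW hpW]
    linarith

end Pool.Agent.H25.SD
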