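import Pool.Agent.H25.SD.Prim
import Pool.Agent.H25.SD.Head
import Pool.Agent.H25.SD.Tail

/-!
# (D) from the window checks, HEAD and TAIL (H25/SD)
-/

namespace Pool.Agent.H25.SD

open Finset H46.SB

/-- `lin F 0 w p > 0` from the column at `p` -/
def colPos (Er : ℕ) (w : List ℤ) (col : List ℕ) : Bool := Nat.blt (dN w col + Er * sN w) (dP w col)

/-- `lin F 0 w p ≥ 0` from the column at `p` -/
def colNN (Er : ℕ) (w : List ℤ) (col : List ℕ) : Bool := Nat.ble (dN w col + Er * sN w) (dP w col)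

/-- the conditions `y_i(p0) > 0`, `i < n` -/
def headPos (Er : ℕ) (col : List ℕ) : ℕ → List ℤ → Bool
  | 0, _ => true
  | n + 1, β => (Nat.ble β.length col.length && colPos Er β col) && headPos Er col n (stepB β)

/-- the complete check for one coefficient vector; `u/10^6 ≥ p0 √π^n` -/
def chkBeta (P : Par) (n u Lmax ones : ℕ) (qm qr c0 cW : List ℕ) : List ℤ → Bool
  | [] => true
  | b0 :: β =>
    ((Nat.blt 0 b0.toNat && Nat.blt (u * (b0.toNat + headN 1 β)) (1000000 * b0.toNat)) &&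
      headPos P.Er c0 n (b0 :: β)) &&
    ((lastNN (b0 :: β) && (Nat.ble (tailB (b0 :: β)).length cW.length && colNN P.Er (tailB (b0 :: β)) cW)) &&
      chkV P.B P.W 21 P.I P.K P.Er Lmax ones qm qr (b0 :: β))

theorem col_real {F : ℕ → ℝ → ℝ} {c p0 : ℝ} {Er Lmax : ℕ} {L : List (List ℕ)} {W : ℕ}
    (hT : Tab F c p0 Er Lmax L W) {i : ℕ} (hi : i ≤ W) (w : List ℤ) (hw : w.length ≤ (colD L i).length) :
    (dP w (colD L i) : ℝ) - ((dN w (colD L i) : ℝ) + Er * sN w) ≤ c * lin F 0 w (p0 * (21 / 20) ^ i) := by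
  refine (dot_bounds F c (p0 * (21 / 20) ^ i) Er hT.cpos w (colD L i) 0 hw ?_).1
  intro j hj
  have hj' : j < L.length := by simpa [colD] using hj
  have e1 : (colD L i).getD j 0 = (L.getD j []).getD i 0 := by
    rw [List.getD_eq_getElem _ _ hj, List.getD_eq_getElem _ _ hj']
    simp [colD]
  rw [e1, zero_add]
  exact ⟨hT.lo j hj' i hi, hT.up j hj' i hi⟩

theorem colPos_spec {F : ℕ → ℝ → ℝ} {c p0 : ℝ} {Er Lmax : ℕ} {L : List (List ℕ)} {W : ℕ}
    (hT : Tab F c p0 Er Lmax L W) {i : ℕ} (hi : i ≤ W) (w : List ℤ) (hw : w.length ≤ (colD L i).length)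
    (h : colPos Er w (colD L i) = true) : 0 < lin F 0 w (p0 * (21 / 20) ^ i) := by
  have h1 := col_real hT hi w hw
  unfold colPos at h
  rw [Nat.blt_eq] at h
  have h2 : (dN w (colD L i) : ℝ) + Er * sN w < dP w (colD L i) := by exact_mod_cast h
  have h3 : 0 < c * lin F 0 w (p0 * (21 / 20) ^ i) := by linarith
  exact (pos_iff_pos_of_mul_pos h3).1 hT.cpos

theorem colNN_spec {F : ℕ → ℝ → ℝ} {c p0 : ℝ} {Er Lmax : ℕ} {L : List (List ℕ)} {W : ℕ}
    (hT : Tab F c p0 Er Lmax L W) {i : ℕ} (hi : i ≤ W) (w : List ℤ) (hw : w.length ≤ (colD L i).length)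
    (h : colNN Er w (colD L i) = true) : 0 ≤ lin F 0 w (p0 * (21 / 20) ^ i) := by
  have h1 := col_real hT hi w hw
  unfold colNN at h
  have h2' := Nat.le_of_ble_eq_true h
  have h2 : (dN w (colD L i) : ℝ) + Er * sN w ≤ dP w (colD L i) := by exact_mod_cast h2'
  have h3 : 0 ≤ c * lin F 0 w (p0 * (21 / 20) ^ i) := by linarith
  by_contra hneg
  push Not at hneg
  have := mul_neg_of_pos_of_neg hT.cpos hneg
  linarith

theorem headPos_spec {F : ℕ → ℝ → ℝ} {c p0 : ℝ} {Er Lmax : ℕ} {L : List (List ℕ)} {W : ℕ}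
    (hT : Tab F c p0 Er Lmax L W) (n : ℕ) : ∀ β : List ℤ, headPos Er (colD L 0) n β = true →
    ∀ i < n, 0 < lin F 0 (stepB^[i] β) p0 := by
  induction n with
  | zero => intro β _ i hi; omega
  | succ n ih =>
    intro β h i hi
    simp only [headPos, Bool.and_eq_true] at h
    obtain ⟨⟨hl, hc⟩, hr⟩ := h
    cases i with
    | zero =>
      have := colPos_spec hT (Nat.zero_le W) β (Nat.le_of_ble_eq_true hl) hc
      simpa using this
    | succ i =>
      rw [Function.iterate_succ_apply]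
      exact ih (stepB β) hr i (by omega)

/-- one coefficient vector -/
theorem chkBeta_sound {n : ℕ} (hFam : ∀ m, Fam (Fk m)) {c : ℝ} {Lmax : ℕ} {L : List (List ℕ)}
    {q : List (List ℤ)} {P : Par} (H : ParOK (Fk n) c Lmax L q P) {e : ℕ} (hBe : P.B = 2 ^ e) (he : 1 ≤ e)
    {u : ℕ} (hu : (20 / 21 : ℝ) ^ P.J * √Real.pi ^ n ≤ (u : ℝ) / 1000000) {qm qr : List ℕ}
    (hqm : qm = L.map (fun l => ∑ i ∈ range P.W, l.getD (i + 1) 0 * P.B ^ i))
    (hqr : qr = L.map (fun l => ∑ i ∈ range P.W, l.getD i 0 * P.B ^ i)) {β : List ℤ}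
    (h : chkBeta P n u Lmax (∑ i ∈ range P.W, P.B ^ i) qm qr (colD L 0) (colD L P.W) β = true) {p : ℝ}
    (hp : 0 < p) : 0 ≤ lin (Fk n) 0 β p := by
  cases β with
  | nil => simp [lin]
  | cons b0 β =>
    simp only [chkBeta, Bool.and_eq_true, Nat.blt_eq] at h
    obtain ⟨⟨⟨hb0, hb⟩, hhead⟩, ⟨hlast, htl, htail⟩, hwin⟩ := h
    have hp0 : (0:ℝ) < (20 / 21) ^ P.J := by positivity
    have hb0' : 0 < b0 := by omega
    have hcast : ((b0.toNat : ℕ) : ℝ) = (b0 : ℝ) := by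
      have : ((b0.toNat : ℤ) : ℝ) = (b0 : ℝ) := by rw [Int.toNat_of_nonneg hb0'.le]
      exact_mod_cast this
    rcases le_or_gt p ((20 / 21 : ℝ) ^ P.J) with h1 | h1
    · refine (head_pos n hFam hp0 (headPos_spec H.tab n (b0 :: β) hhead) ?_ hb0' hp h1).le
      have h2 : (u : ℝ) * ((b0.toNat : ℝ) + headN 1 β) < 1000000 * (b0.toNat : ℝ) := by exact_mod_cast hb
      rw [hcast] at h2
      have h3 : (0:ℝ) ≤ (b0 : ℝ) + headN 1 β := by
        have : (0:ℝ) < b0 := by exact_mod_cast hb0'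
        positivity
      calc (20 / 21 : ℝ) ^ P.J * √Real.pi ^ n * ((b0 : ℝ) + headN 1 β)
          ≤ (u : ℝ) / 1000000 * ((b0 : ℝ) + headN 1 β) := mul_le_mul_of_nonneg_right hu h3
        _ < b0 := by
          rw [div_mul_eq_mul_div, div_lt_iff₀ (by norm_num)]
          linarith
    · rcases le_or_gt p ((20 / 21 : ℝ) ^ P.J * (21 / 20) ^ P.W) with h2 | h2
      · exact (chkV_sound H.fam H.tab hBe he H.hL H.hlam hqm hqr hwin h1 h2).le
      · refine tail_nonneg n H.fam hlast (by positivity) ?_ h2.le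
        exact colNN_spec H.tab le_rfl _ (Nat.le_of_ble_eq_true htl) htail

/-- all the pieces in `ρ`, from `x` to `y` -/
def chkD (P : Par) (n u Lmax ones : ℕ) (qm qr c0 cW : List ℕ) (q : List (List ℤ)) : ℕ → List ℕ → Bool
  | x, [] => Nat.beq x P.y
  | x, x' :: xs =>
    ((Nat.blt x x' && lenle (P.K + 1) (piece P.K q x x' P.y)) &&
      (List.range (P.K + 1)).all fun al => chkBeta P n u Lmax ones qm qr c0 cW (bvec (piece P.K q x x' P.y) al)) &&
      chkD P n u Lmax ones qm qr c0 cW q x' xs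

theorem chkD_sound {n : ℕ} (hFam : ∀ m, Fam (Fk m)) {c : ℝ} {Lmax : ℕ} {L : List (List ℕ)}
    {q : List (List ℤ)} {P : Par} (H : ParOK (Fk n) c Lmax L q P) {e : ℕ} (hBe : P.B = 2 ^ e) (he : 1 ≤ e)
    {u : ℕ} (hu : (20 / 21 : ℝ) ^ P.J * √Real.pi ^ n ≤ (u : ℝ) / 1000000) {qm qr : List ℕ}
    (hqm : qm = L.map (fun l => ∑ i ∈ range P.W, l.getD (i + 1) 0 * P.B ^ i))
    (hqr : qr = L.map (fun l => ∑ i ∈ range P.W, l.getD i 0 * P.B ^ i)) (xs : List ℕ) :
    ∀ x, chkD P n u Lmax (∑ i ∈ range P.W, P.B ^ i) qm qr (colD L 0) (colD L P.W) q x xs = true →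
    ∀ ρ p : ℝ, (x : ℝ) ≤ P.y * ρ → (xs = [] → (x : ℝ) < P.y * ρ) → ρ ≤ 1 → 0 < p →
      0 ≤ two (Fk n) 0 q ρ p := by
  have hyR : (0:ℝ) < P.y := by exact_mod_cast H.hy
  induction xs with
  | nil =>
    intro x h ρ p _ h1 h2 hp
    simp only [chkD] at h
    have h3 : x = P.y := Nat.eq_of_beq_eq_true h
    have h4 := h1 rfl
    rw [h3] at h4
    nlinarith
  | cons x' xs ih =>
    intro x h ρ p h1 _ h2 hp
    simp only [chkD, Bool.and_eq_true, Nat.blt_eq, List.all_eq_true, List.mem_range] at h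
    obtain ⟨⟨⟨hx, hlen⟩, hall⟩, hrec⟩ := h
    rcases le_or_gt ((P.y : ℝ) * ρ) (x' : ℝ) with h3 | h3
    · refine piece_nonneg (Fk n) H.wf H.hq (by exact_mod_cast H.hy) (by exact_mod_cast hx) hlen ?_
        (by exact_mod_cast h1) (by exact_mod_cast h3)
      intro al hal
      exact chkBeta_sound hFam H hBe he hu hqm hqr (hall al hal) hp
    · exact ih x' hrec ρ p h3.le (fun _ => h3) h2 hp

/-- (D) -/
theorem dual_sound {n : ℕ} (hFam : ∀ m, Fam (Fk m)) {c : ℝ} {Lmax : ℕ} {L : List (List ℕ)}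
    {q : List (List ℤ)} {P : Par} (H : ParOK (Fk n) c Lmax L q P) {e : ℕ} (hBe : P.B = 2 ^ e) (he : 1 ≤ e)
    {u : ℕ} (hu : (20 / 21 : ℝ) ^ P.J * √Real.pi ^ n ≤ (u : ℝ) / 1000000) (xs : List ℕ)
    (hlen : ∀ l ∈ L, l.length = P.W + 1)
    (h : chkD P n u Lmax ((P.B ^ P.W - 1) / (P.B - 1)) ((L.map (H81.L2.packL P.B)).map fun q => Nat.div q P.B)
      ((L.map (H81.L2.packL P.B)).map fun q => Nat.mod q (Nat.pow P.B P.W))
      (colQ P.B 0 (L.map (H81.L2.packL P.B))) (colQ P.B P.W (L.map (H81.L2.packL P.B))) q 0 xs = true)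
    {ρ p : ℝ} (h1 : 0 ≤ ρ) (h2 : ρ ≤ 1) (hp : 0 < p) : 0 ≤ two (Fk n) 0 q ρ p := by
  have hyR : (0:ℝ) < P.y := by exact_mod_cast H.hy
  have hB2 : 2 ≤ P.B := by
    rw [hBe]
    calc 2 = 2 ^ 1 := by norm_num
      _ ≤ 2 ^ e := Nat.pow_le_pow_right (by norm_num) he
  rw [ones_eq hB2, colQ_eq H.hB H.hLB, colQ_eq H.hB H.hLB] at h
  refine chkD_sound hFam H hBe he hu ?_ ?_ xs 0 h ρ p (by simpa using by positivity) ?_ h2 hp
  · rw [List.map_map]
    refine List.map_congr_left fun l hl => ?_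
    exact pack_tail H.hB (H.hLB l hl) (hlen l hl)
  · rw [List.map_map]
    refine List.map_congr_left fun l hl => ?_
    exact pack_init (H.hLB l hl) (hlen l hl)
  · intro hxs
    subst hxs
    simp only [chkD] at h
    have h3 : 0 = P.y := Nat.eq_of_beq_eq_true h
    have := H.hy
    omega

end Pool.Agent.H25.SD
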