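import Pool.Agent.H25.SD.Poly

/-!
# The family `F k` (H25/SD): Taylor expansion from the differential relation

`Fam F`: `F k p > 0` and `p F_k' = k F_k - F_(k+1)`.  With `G_k = F_k / p^k` one has `G_k' = -G_(k+1)`.
-/

namespace Pool.Agent.H25.SD

open Finset

/-- the abstract family (`F k p = p^k ∫ … `) -/
structure Fam (F : ℕ → ℝ → ℝ) : Prop where
  pos : ∀ k p, 0 < p → 0 < F k p
  der : ∀ k p, 0 < p → HasDerivAt (F k) (((k : ℝ) * F k p - F (k + 1) p) / p) p

variable {F : ℕ → ℝ → ℝ}

/-- `G_k = F_k / p^k` -/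
noncomputable def G (F : ℕ → ℝ → ℝ) (k : ℕ) (p : ℝ) : ℝ := F k p / p ^ k

theorem G_pos (hF : Fam F) (k : ℕ) {p : ℝ} (hp : 0 < p) : 0 < G F k p :=
  div_pos (hF.pos k p hp) (pow_pos hp k)

theorem G_der (hF : Fam F) (k : ℕ) {p : ℝ} (hp : 0 < p) :
    HasDerivAt (G F k) (-G F (k + 1) p) p := by
  have h1 := hF.der k p hp
  have h2 : HasDerivAt (fun x : ℝ => x ^ k) ((k : ℝ) * p ^ (k - 1)) p := hasDerivAt_pow k p
  have h3 := h1.div h2 (pow_pos hp k).ne'
  refine h3.congr_deriv ?_
  unfold G
  have hp' : p ≠ 0 := hp.ne'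
  rcases Nat.eq_zero_or_pos k with rfl | hk
  · simp
    field_simp
  · obtain ⟨m, rfl⟩ : ∃ m, k = m + 1 := ⟨k - 1, by omega⟩
    simp only [Nat.add_sub_cancel]
    push_cast
    field_simp
    ring

theorem G_anti (hF : Fam F) (k : ℕ) {x y : ℝ} (hx : 0 < x) (hxy : x ≤ y) : G F k y ≤ G F k x := by
  have h : AntitoneOn (G F k) (Set.Ioi 0) := by
    refine antitoneOn_of_deriv_nonpos (convex_Ioi 0) ?_ ?_ ?_
    · intro z hz
      exact (G_der hF k hz).continuousAt.continuousWithinAt
    · intro z hz
      rw [interior_Ioi] at hz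
      exact (G_der hF k hz).differentiableAt.differentiableWithinAt
    · intro z hz
      rw [interior_Ioi] at hz
      rw [(G_der hF k hz).deriv]
      have := G_pos hF (k + 1) hz
      linarith
  exact h hx (lt_of_lt_of_le hx hxy) hxy

/-- Taylor, lower bound -/
theorem G_lower (hF : Fam F) (I : ℕ) : ∀ (k : ℕ) {p x : ℝ}, 0 ≤ x → x < p →
    ∑ i ∈ range (I + 1), G F (k + i) p * x ^ i / (i.factorial : ℝ) ≤ G F k (p - x) := by
  induction I with
  | zero =>
    intro k p x hx hxp
    simp
    exact G_anti hF k (by linarith) (by linarith)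
  | succ I ih =>
    intro k p x hx hxp
    -- h(y) = G_k(p-y) - sum, h(0)=0, h' >= 0
    have hder : ∀ y ∈ Set.Ico (0:ℝ) p, HasDerivAt
        (fun y => G F k (p - y) - ∑ i ∈ range (I + 1 + 1), G F (k + i) p * y ^ i / (i.factorial : ℝ))
        (G F (k + 1) (p - y) - ∑ i ∈ range (I + 1), G F (k + 1 + i) p * y ^ i / (i.factorial : ℝ)) y := by
      intro y hy
      have h1 : HasDerivAt (fun y => G F k (p - y)) (G F (k + 1) (p - y)) y := by
        have h2 := G_der hF k (p := p - y) (by linarith [hy.2])
        have h3 : HasDerivAt (fun y : ℝ => p - y) (-1) y := by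
          simpa using (hasDerivAt_id y).const_sub p
        have h4 : HasDerivAt (fun y => G F k (p - y)) (-G F (k + 1) (p - y) * -1) y := h2.comp y h3
        exact h4.congr_deriv (by ring)
      have h5 : HasDerivAt (fun y : ℝ => ∑ i ∈ range (I + 1 + 1), G F (k + i) p * y ^ i / (i.factorial : ℝ))
          (∑ i ∈ range (I + 1), G F (k + 1 + i) p * y ^ i / (i.factorial : ℝ)) y := by
        have h6 : ∀ i ∈ range (I + 1 + 1), HasDerivAt
            (fun y : ℝ => G F (k + i) p * y ^ i / (i.factorial : ℝ))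
            (G F (k + i) p * ((i : ℝ) * y ^ (i - 1)) / (i.factorial : ℝ)) y := by
          intro i _
          exact ((hasDerivAt_pow i y).const_mul _).div_const _
        have h7 := HasDerivAt.fun_sum h6
        refine h7.congr_deriv ?_
        rw [Finset.sum_range_succ']
        simp only [Nat.cast_zero, zero_mul, mul_zero, zero_div, add_zero]
        refine Finset.sum_congr rfl fun i _ => ?_
        have e1 : k + (i + 1) = k + 1 + i := by ring
        rw [e1, Nat.factorial_succ, Nat.add_sub_cancel]
        have : ((i.factorial : ℕ) : ℝ) ≠ 0 := by positivity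
        have h8 : ((i : ℝ) + 1) ≠ 0 := by positivity
        push_cast
        field_simp
      exact h1.sub h5
    have hmono : MonotoneOn (fun y => G F k (p - y) -
        ∑ i ∈ range (I + 1 + 1), G F (k + i) p * y ^ i / (i.factorial : ℝ)) (Set.Ico 0 p) := by
      refine monotoneOn_of_deriv_nonneg (convex_Ico 0 p) ?_ ?_ ?_
      · intro z hz
        exact (hder z hz).continuousAt.continuousWithinAt
      · intro z hz
        have hz' := interior_subset hz
        exact (hder z hz').differentiableAt.differentiableWithinAt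
      · intro z hz
        have hz' := interior_subset hz
        rw [(hder z hz').deriv]
        have := ih (k + 1) (p := p) (x := z) hz'.1 hz'.2
        linarith
    have h0 : (0:ℝ) ∈ Set.Ico 0 p := ⟨le_refl _, by linarith⟩
    have h9 := hmono h0 ⟨hx, hxp⟩ hx
    have h10 : ∑ i ∈ range (I + 1 + 1), G F (k + i) p * (0:ℝ) ^ i / (i.factorial : ℝ) = G F k p := by
      rw [Finset.sum_range_succ']
      simp
    simp only [h10, sub_zero, sub_self] at h9
    linarith

/-- Taylor, upper bound: `Mx` bounds `G_(k+I+1)` on the interval -/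
theorem G_upper (hF : Fam F) (I : ℕ) : ∀ (k : ℕ) {p x τ : ℝ}, 0 ≤ x → x ≤ τ → τ < p →
    G F k (p - x) ≤ ∑ i ∈ range (I + 1), G F (k + i) p * x ^ i / (i.factorial : ℝ) +
      G F (k + I + 1) (p - τ) * x ^ (I + 1) / ((I + 1).factorial : ℝ) := by
  induction I with
  | zero =>
    intro k p x τ hx hxτ hτ
    -- G_k(p-x) - G_k(p) ≤ x G_(k+1)(p-τ)
    have hder : ∀ y ∈ Set.Icc (0:ℝ) τ, HasDerivAt
        (fun y => G F k (p - y) - G F (k + 1) (p - τ) * y)
        (G F (k + 1) (p - y) - G F (k + 1) (p - τ)) y := by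
      intro y hy
      have h2 := G_der hF k (p := p - y) (by linarith [hy.2])
      have h3 : HasDerivAt (fun y : ℝ => p - y) (-1) y := by
        simpa using (hasDerivAt_id y).const_sub p
      have h4 := h2.comp y h3
      have h5 : HasDerivAt (fun y : ℝ => G F (k + 1) (p - τ) * y) (G F (k + 1) (p - τ)) y := by
        simpa using (hasDerivAt_id y).const_mul (G F (k + 1) (p - τ))
      refine (h4.sub h5).congr_deriv ?_
      simp
    have hanti : AntitoneOn (fun y => G F k (p - y) - G F (k + 1) (p - τ) * y) (Set.Icc 0 τ) := by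
      refine antitoneOn_of_deriv_nonpos (convex_Icc 0 τ) ?_ ?_ ?_
      · intro z hz
        exact (hder z hz).continuousAt.continuousWithinAt
      · intro z hz
        exact (hder z (interior_subset hz)).differentiableAt.differentiableWithinAt
      · intro z hz
        have hz' := interior_subset hz
        rw [(hder z hz').deriv]
        have := G_anti hF (k + 1) (x := p - τ) (y := p - z) (by linarith) (by linarith [hz'.2])
        linarith
    have h9 := hanti ⟨le_refl _, hx.trans hxτ⟩ ⟨hx, hxτ⟩ hx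
    simp only [sub_zero, mul_zero] at h9
    simp
    linarith
  | succ I ih =>
    intro k p x τ hx hxτ hτ
    have hder : ∀ y ∈ Set.Icc (0:ℝ) τ, HasDerivAt
        (fun y => G F k (p - y) - (∑ i ∈ range (I + 1 + 1), G F (k + i) p * y ^ i / (i.factorial : ℝ) +
          G F (k + (I + 1) + 1) (p - τ) * y ^ (I + 1 + 1) / ((I + 1 + 1).factorial : ℝ)))
        (G F (k + 1) (p - y) - (∑ i ∈ range (I + 1), G F (k + 1 + i) p * y ^ i / (i.factorial : ℝ) +
          G F (k + 1 + I + 1) (p - τ) * y ^ (I + 1) / ((I + 1).factorial : ℝ))) y := by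
      intro y hy
      have h1 : HasDerivAt (fun y => G F k (p - y)) (G F (k + 1) (p - y)) y := by
        have h2 := G_der hF k (p := p - y) (by linarith [hy.2])
        have h3 : HasDerivAt (fun y : ℝ => p - y) (-1) y := by
          simpa using (hasDerivAt_id y).const_sub p
        have h4 : HasDerivAt (fun y => G F k (p - y)) (-G F (k + 1) (p - y) * -1) y := h2.comp y h3
        exact h4.congr_deriv (by ring)
      have h5 : HasDerivAt (fun y : ℝ => ∑ i ∈ range (I + 1 + 1), G F (k + i) p * y ^ i / (i.factorial : ℝ))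
          (∑ i ∈ range (I + 1), G F (k + 1 + i) p * y ^ i / (i.factorial : ℝ)) y := by
        have h6 : ∀ i ∈ range (I + 1 + 1), HasDerivAt
            (fun y : ℝ => G F (k + i) p * y ^ i / (i.factorial : ℝ))
            (G F (k + i) p * ((i : ℝ) * y ^ (i - 1)) / (i.factorial : ℝ)) y := by
          intro i _
          exact ((hasDerivAt_pow i y).const_mul _).div_const _
        have h7 := HasDerivAt.fun_sum h6
        refine h7.congr_deriv ?_
        rw [Finset.sum_range_succ']
        simp only [Nat.cast_zero, zero_mul, mul_zero, zero_div, add_zero]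
        refine Finset.sum_congr rfl fun i _ => ?_
        have e1 : k + (i + 1) = k + 1 + i := by ring
        rw [e1, Nat.factorial_succ, Nat.add_sub_cancel]
        have : ((i.factorial : ℕ) : ℝ) ≠ 0 := by positivity
        have h8 : ((i : ℝ) + 1) ≠ 0 := by positivity
        push_cast
        field_simp
      have h11 : HasDerivAt (fun y : ℝ => G F (k + (I + 1) + 1) (p - τ) * y ^ (I + 1 + 1) /
          ((I + 1 + 1).factorial : ℝ))
          (G F (k + 1 + I + 1) (p - τ) * y ^ (I + 1) / ((I + 1).factorial : ℝ)) y := by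
        have h12 := ((hasDerivAt_pow (I + 1 + 1) y).const_mul (G F (k + (I + 1) + 1) (p - τ))).div_const
          (((I + 1 + 1).factorial : ℕ) : ℝ)
        refine h12.congr_deriv ?_
        have e1 : k + (I + 1) + 1 = k + 1 + I + 1 := by ring
        rw [e1, Nat.factorial_succ (I + 1), Nat.add_sub_cancel]
        have : (((I + 1).factorial : ℕ) : ℝ) ≠ 0 := by positivity
        have h8 : ((I : ℝ) + 1 + 1) ≠ 0 := by positivity
        push_cast
        field_simp
      exact h1.sub (h5.add h11)
    have hanti : AntitoneOn (fun y => G F k (p - y) -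
        (∑ i ∈ range (I + 1 + 1), G F (k + i) p * y ^ i / (i.factorial : ℝ) +
          G F (k + (I + 1) + 1) (p - τ) * y ^ (I + 1 + 1) / ((I + 1 + 1).factorial : ℝ)))
          (Set.Icc 0 τ) := by
      refine antitoneOn_of_deriv_nonpos (convex_Icc 0 τ) ?_ ?_ ?_
      · intro z hz
        exact (hder z hz).continuousAt.continuousWithinAt
      · intro z hz
        exact (hder z (interior_subset hz)).differentiableAt.differentiableWithinAt
      · intro z hz
        have hz' := interior_subset hz
        rw [(hder z hz').deriv]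
        have := ih (k + 1) (p := p) (x := z) (τ := τ) hz'.1 hz'.2 hτ
        linarith
    have h9 := hanti ⟨le_refl _, hx.trans hxτ⟩ ⟨hx, hxτ⟩ hx
    have h10 : ∑ i ∈ range (I + 1 + 1), G F (k + i) p * (0:ℝ) ^ i / (i.factorial : ℝ) = G F k p := by
      rw [Finset.sum_range_succ']
      simp
    simp only [h10, sub_zero] at h9
    have h13 : G F (k + (I + 1) + 1) (p - τ) * (0:ℝ) ^ (I + 1 + 1) / ((I + 1 + 1).factorial : ℝ) = 0 := by
      simp
    rw [h13] at h9
    linarith

/-- Taylor for `F`: `F_k (P (1-t)) = (1-t)^k (∑_{i ≤ I} F_(k+i)(P) t^i/i! + R)`, `0 ≤ R ≤ …` -/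
theorem F_taylor (hF : Fam F) (I k : ℕ) {P t τ : ℝ} (hP : 0 < P) (ht : 0 ≤ t) (htτ : t ≤ τ)
    (hτ : τ < 1) :
    (1 - t) ^ k * ∑ i ∈ range (I + 1), F (k + i) P * t ^ i / (i.factorial : ℝ) ≤ F k (P * (1 - t)) ∧
    F k (P * (1 - t)) ≤ (1 - t) ^ k * (∑ i ∈ range (I + 1), F (k + i) P * t ^ i / (i.factorial : ℝ) +
      F (k + I + 1) (P * (1 - τ)) * (1 / (1 - τ)) ^ (k + I + 1) * t ^ (I + 1) /
        ((I + 1).factorial : ℝ)) := by
  have hPt : 0 < P * (1 - t) := mul_pos hP (by linarith)
  have e0 : P - P * t = P * (1 - t) := by ring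
  have e0' : P - P * τ = P * (1 - τ) := by ring
  have e1 : F k (P * (1 - t)) = (P * (1 - t)) ^ k * G F k (P - P * t) := by
    rw [e0]; unfold G; field_simp
  have e2 : ∀ i, G F (k + i) P * (P * t) ^ i = F (k + i) P * t ^ i / P ^ k := by
    intro i; unfold G; rw [pow_add, mul_pow]; field_simp
  have e3 : ∑ i ∈ range (I + 1), G F (k + i) P * (P * t) ^ i / (i.factorial : ℝ) =
      (∑ i ∈ range (I + 1), F (k + i) P * t ^ i / (i.factorial : ℝ)) / P ^ k := by
    rw [Finset.sum_div]
    refine Finset.sum_congr rfl fun i _ => ?_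
    rw [e2]; field_simp
  have h1 := G_lower hF I k (p := P) (x := P * t) (by positivity) (by nlinarith)
  have h2 := G_upper hF I k (p := P) (x := P * t) (τ := P * τ) (by positivity)
    (by nlinarith) (by nlinarith)
  rw [e3] at h1 h2
  have h1t : 0 < 1 - t := by linarith
  have h1τ : 0 < 1 - τ := by linarith
  constructor
  · rw [e1, mul_pow]
    calc (1 - t) ^ k * ∑ i ∈ range (I + 1), F (k + i) P * t ^ i / (i.factorial : ℝ)
        = P ^ k * (1 - t) ^ k * ((∑ i ∈ range (I + 1), F (k + i) P * t ^ i / (i.factorial : ℝ)) / P ^ k) := by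
          field_simp
      _ ≤ _ := mul_le_mul_of_nonneg_left h1 (by positivity)
  · rw [e1, mul_pow]
    have h3 : G F (k + I + 1) (P - P * τ) * (P * t) ^ (I + 1) =
        (F (k + I + 1) (P * (1 - τ)) * (1 / (1 - τ)) ^ (k + I + 1) * t ^ (I + 1)) / P ^ k := by
      rw [e0']; unfold G
      have : k + I + 1 = k + (I + 1) := by ring
      rw [this, mul_pow, mul_pow, pow_add P, one_div, inv_pow]
      field_simp
    rw [h3] at h2
    calc P ^ k * (1 - t) ^ k * G F k (P - P * t)
        ≤ P ^ k * (1 - t) ^ k * _ := mul_le_mul_of_nonneg_left h2 (by positivity)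
      _ = _ := by field_simp

end Pool.Agent.H25.SD
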