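import Pool.Agent.H25.SD.Dual

/-!
# Fast kernel evaluation (H25/SD): every intermediate list is evaluated once
-/

namespace Pool.Agent.H25.SD

open Finset H81.L2

/-- evaluate a list of naturals -/
def forceL (l : List ℕ) : (List ℕ → Bool) → Bool :=
  List.rec (motive := fun _ => (List ℕ → Bool) → Bool) (fun k => k [])
    (fun x _ ih k => force1 x fun v => ih fun m => k (v :: m)) l

/-- evaluate an integer -/
def forceI (z : ℤ) (k : ℤ → Bool) : Bool :=
  match z with
  | Int.ofNat n => force1 n fun v => k (Int.ofNat v)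
  | Int.negSucc n => force1 n fun v => k (Int.negSucc v)

/-- evaluate a list of integers -/
def forceZ (l : List ℤ) : (List ℤ → Bool) → Bool :=
  List.rec (motive := fun _ => (List ℤ → Bool) → Bool) (fun k => k [])
    (fun x _ ih k => forceI x fun v => ih fun m => k (v :: m)) l

/-- evaluate a list of lists of integers -/
def forceZZ (l : List (List ℤ)) : (List (List ℤ) → Bool) → Bool :=
  List.rec (motive := fun _ => (List (List ℤ) → Bool) → Bool) (fun k => k [])
    (fun x _ ih k => forceZ x fun v => ih fun m => k (v :: m)) l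

/-- evaluate a list of lists of lists of integers -/
def forceZZZ (l : List (List (List ℤ))) : (List (List (List ℤ)) → Bool) → Bool :=
  List.rec (motive := fun _ => (List (List (List ℤ)) → Bool) → Bool) (fun k => k [])
    (fun x _ ih k => forceZZ x fun v => ih fun m => k (v :: m)) l

theorem forceI_eq (z : ℤ) (k : ℤ → Bool) : forceI z k = k z := by
  cases z <;> rfl

theorem forceL_eq (l : List ℕ) : ∀ k, forceL l k = k l := by
  induction l with
  | nil => intro k; rfl
  | cons x l ih =>
    intro k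
    show force1 x (fun v => forceL l fun m => k (v :: m)) = _
    rw [force1_eq, ih]

theorem forceZ_eq (l : List ℤ) : ∀ k, forceZ l k = k l := by
  induction l with
  | nil => intro k; rfl
  | cons x l ih =>
    intro k
    show forceI x (fun v => forceZ l fun m => k (v :: m)) = _
    rw [forceI_eq, ih]

theorem forceZZ_eq (l : List (List ℤ)) : ∀ k, forceZZ l k = k l := by
  induction l with
  | nil => intro k; rfl
  | cons x l ih =>
    intro k
    show forceZ x (fun v => forceZZ l fun m => k (v :: m)) = _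
    rw [forceZ_eq, ih]

theorem forceZZZ_eq (l : List (List (List ℤ))) : ∀ k, forceZZZ l k = k l := by
  induction l with
  | nil => intro k; rfl
  | cons x l ih =>
    intro k
    show forceZZ x (fun v => forceZZZ l fun m => k (v :: m)) = _
    rw [forceZZ_eq, ih]

/-! ### (P) -/

/-- fast `okB` -/
def okBf (P : Par) (qs : List ℕ) (q : List (List ℤ)) (d : St) : Bool :=
  forceZZ (piece P.K q d.xa d.xb P.y) fun A =>
  forceL (colQ P.B (d.i + 1) qs) fun c1 =>
  forceL (nlo d.s P.I P.K c1) fun lo =>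
  forceL (nup d.s P.I P.K P.Er c1 (colQ P.B d.i qs)) fun up =>
  (Nat.blt d.i P.W && (Nat.ble d.s 40 && (Nat.blt d.xa d.xb && lenle (P.K + 1) A))) &&
  (List.range (P.K + 1)).all fun al => forceZ (bvec A al) fun b => Nat.ble (dN b up) (dP b lo)

theorem okBf_eq (P : Par) (qs : List ℕ) (q : List (List ℤ)) (d : St) : okBf P qs q d = okB P qs q d := by
  unfold okBf okB
  rw [forceZZ_eq, forceL_eq, forceL_eq, forceL_eq]
  simp only [forceZ_eq]

/-- fast `stL` -/
def stLf (P : Par) (qs : List ℕ) (q : List (List ℤ)) : ℕ → List St → Bool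
  | ua, [] => Nat.beq ua P.w
  | ua, d :: ds =>
    (okMu P d && okBf P qs q d) && ((okA P ua d && okR P d) &&
      ((Nat.ble ua P.w && Nat.ble (d.mu * (P.w - ua) * P.w * P.Di) (1000000 * (P.Ai * ua ^ 2 + P.Bi * P.w ^ 2))) &&
        stLf P qs q d.ub ds))

theorem stLf_eq (P : Par) (qs : List ℕ) (q : List (List ℤ)) (ds : List St) :
    ∀ ua, stLf P qs q ua ds = stL P qs q ua ds := by
  induction ds with
  | nil => intro ua; rfl
  | cons d ds ih => intro ua; simp only [stLf, stL, okBf_eq, ih]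

/-- fast `stR` -/
def stRf (P : Par) (qs : List ℕ) (q : List (List ℤ)) : ℕ → List St → Bool
  | _, [] => false
  | ua, d :: ds =>
    (okMu P d && okBf P qs q d) && ((okA P ua d &&
      (Nat.ble P.w ua && Nat.ble (d.mu * (ua - P.w) * P.w * P.Di) (1000000 * (P.Ai * ua ^ 2 + P.Bi * P.w ^ 2)))) &&
      (if d.ub = 0 then Nat.ble P.y d.xb && Nat.ble (d.mu * P.Di * P.w) (2 * 1000000 * P.Ai * ua)
       else (okR P d && (Nat.ble ua d.ub &&
        (Nat.ble (d.mu * (d.ub - P.w) * P.w * P.Di) (1000000 * (P.Ai * d.ub ^ 2 + P.Bi * P.w ^ 2)) &&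
         Nat.ble (P.Di * d.mu * (ua + d.ub - 2 * P.w) * P.w) (2 * 1000000 * (P.Ai * ua * d.ub + P.Bi * P.w ^ 2))))) &&
        stRf P qs q d.ub ds))

theorem stRf_eq (P : Par) (qs : List ℕ) (q : List (List ℤ)) (ds : List St) :
    ∀ ua, stRf P qs q ua ds = stR P qs q ua ds := by
  induction ds with
  | nil => intro ua; rfl
  | cons d ds ih => intro ua; simp only [stRf, stR, okBf_eq, ih]

/-- the two staircases, all evaluations forced -/
def primF (P : Par) (L : List (List ℕ)) (q : List (List ℤ)) (dl dr : List St) : Bool :=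
  forceL (L.map (packL P.B)) fun qs => stLf P qs q 0 dl && stRf P qs q P.w dr

theorem primF_eq {P : Par} {L : List (List ℕ)} {q : List (List ℤ)} {dl dr : List St}
    (h : primF P L q dl dr = true) : stL P (L.map (packL P.B)) q 0 dl = true ∧
    stR P (L.map (packL P.B)) q P.w dr = true := by
  unfold primF at h
  rw [forceL_eq, stLf_eq, stRf_eq, Bool.and_eq_true] at h
  exact h

/-! ### (D) -/

/-- the table of the polynomials `bpoly` -/
def bT (T : ℤ) (I K : ℕ) : List (List (List ℤ)) :=
  (List.range (K + 1)).map fun k => (List.range (I + 1)).map fun i => bpoly T I (K + I) k i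

/-- `wl` from the table -/
def wlB (I : ℕ) (BT : List (List (List ℤ))) : List ℤ → ℕ → ℕ → List ℤ
  | [], _, _ => []
  | b :: β, k, r => ladd (if k ≤ r ∧ r ≤ k + I then lsmul b ((BT.getD k []).getD (r - k) []) else [])
      (wlB I BT β (k + 1) r)

theorem wlB_eq (T : ℤ) (I K : ℕ) (β : List ℤ) : ∀ k r, k + β.length ≤ K + 1 →
    wlB I (bT T I K) β k r = wl T I (K + I) β k r := by
  induction β with
  | nil => intro k r _; rfl
  | cons b β ih =>
    intro k r hk
    simp only [List.length_cons] at hk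
    simp only [wlB, wl]
    rw [ih (k + 1) r (by omega)]
    congr 1
    split_ifs with h
    · congr 1
      have h1 : (bT T I K).getD k [] = (List.range (I + 1)).map fun i => bpoly T I (K + I) k i := by
        unfold bT
        rw [List.getD_eq_getElem _ _ (by simp; omega)]
        simp only [List.getElem_map, List.getElem_range]
      rw [h1, List.getD_eq_getElem _ _ (by simp; omega)]
      simp only [List.getElem_map, List.getElem_range]
    · rfl

/-- fast `chkB` -/
def chkBf (B W T I K Er Lmax ones : ℕ) (qm qr : List ℕ) (bn : List ℤ) : ℕ → List ℤ → List (List ℤ) → Bool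
  | _, [], _ => true
  | b, N :: Ns, A =>
      (decide (0 ≤ N) && forceZ (colZ A b) fun col =>
        chk1 B W ones Er Lmax ((I + 1) * T ^ (I + 1)) (2 * N.toNat) qm qr col bn) &&
      chkBf B W T I K Er Lmax ones qm qr bn (b + 1) Ns A

theorem chkBf_eq (B W T I K Er Lmax ones : ℕ) (qm qr : List ℕ) (β : List ℤ) (Ns : List ℤ) (A : List (List ℤ)) :
    ∀ b, chkBf B W T I K Er Lmax ones qm qr (β.map negp) b Ns A = chkB B W T I K Er Lmax ones qm qr β b Ns A := by
  induction Ns with
  | nil => intro b; rfl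
  | cons N Ns ih => intro b; simp only [chkBf, chkB, forceZ_eq, ih]

/-- fast `chkV`; `N = lpow [T, T] (K+I)`, `qr1 = qr.drop (I+1)` -/
def chkVf (B W T I K Er Lmax ones : ℕ) (qm qr1 : List ℕ) (BT : List (List (List ℤ))) (N β : List ℤ) : Bool :=
  decide (β.length ≤ K + 1) &&
  forceZZ ((List.range (K + I + 1)).map (wlB I BT β 0)) fun A =>
  forceZ (β.map negp) fun bn =>
    lenle (K + I + 1) A && ((N.length == K + I + 1) && chkBf B W T I K Er Lmax ones qm qr1 bn 0 N A)

theorem chkVf_eq {B W T I K Er Lmax ones : ℕ} {qm qr : List ℕ} {β : List ℤ}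
    (h : chkVf B W T I K Er Lmax ones qm (qr.drop (I + 1)) (bT T I K) (lpow [(T : ℤ), T] (K + I)) β = true) :
    chkV B W T I K Er Lmax ones qm qr β = true := by
  unfold chkVf at h
  rw [Bool.and_eq_true, decide_eq_true_eq] at h
  obtain ⟨hβ, h⟩ := h
  rw [forceZZ_eq, forceZ_eq, chkBf_eq] at h
  have hA : (List.range (K + I + 1)).map (wlB I (bT T I K) β 0) = wls T I (K + I) β := by
    unfold wls
    refine List.map_congr_left fun r _ => ?_
    exact wlB_eq T I K β 0 r (by omega)
  rw [hA] at h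
  unfold chkV
  rw [Bool.and_eq_true, decide_eq_true_eq]
  exact ⟨hβ, h⟩

/-- fast `chkBeta` -/
def chkBetaF (P : Par) (n u Lmax ones : ℕ) (qm qr1 c0 cW : List ℕ) (BT : List (List (List ℤ))) (N : List ℤ) :
    List ℤ → Bool
  | [] => true
  | b0 :: β =>
    ((Nat.blt 0 b0.toNat && Nat.blt (u * (b0.toNat + headN 1 β)) (1000000 * b0.toNat)) &&
      headPos P.Er c0 n (b0 :: β)) &&
    ((lastNN (b0 :: β) && (Nat.ble (tailB (b0 :: β)).length cW.length && colNN P.Er (tailB (b0 :: β)) cW)) &&
      chkVf P.B P.W 21 P.I P.K P.Er Lmax ones qm qr1 BT N (b0 :: β))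

theorem chkBetaF_eq {P : Par} {n u Lmax ones : ℕ} {qm qr c0 cW : List ℕ} {β : List ℤ}
    (h : chkBetaF P n u Lmax ones qm (qr.drop (P.I + 1)) c0 cW (bT ((21 : ℕ) : ℤ) P.I P.K)
      (lpow [((21 : ℕ) : ℤ), ((21 : ℕ) : ℤ)] (P.K + P.I)) β = true) :
    chkBeta P n u Lmax ones qm qr c0 cW β = true := by
  cases β with
  | nil => rfl
  | cons b0 β =>
    simp only [chkBetaF, chkBeta, Bool.and_eq_true] at h ⊢
    exact ⟨h.1, h.2.1, chkVf_eq h.2.2⟩

/-- fast `chkD` -/
def chkDf (P : Par) (n u Lmax ones : ℕ) (qm qr1 c0 cW : List ℕ) (BT : List (List (List ℤ))) (N : List ℤ)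
    (q : List (List ℤ)) : ℕ → List ℕ → Bool
  | x, [] => Nat.beq x P.y
  | x, x' :: xs =>
    (Nat.blt x x' && forceZZ (piece P.K q x x' P.y) fun A => lenle (P.K + 1) A &&
      (List.range (P.K + 1)).all fun al => forceZ (bvec A al) fun b =>
        chkBetaF P n u Lmax ones qm qr1 c0 cW BT N b) &&
      chkDf P n u Lmax ones qm qr1 c0 cW BT N q x' xs

theorem chkDf_eq {P : Par} {n u Lmax ones : ℕ} {qm qr c0 cW : List ℕ} {q : List (List ℤ)} (xs : List ℕ) :
    ∀ x, chkDf P n u Lmax ones qm (qr.drop (P.I + 1)) c0 cW (bT ((21 : ℕ) : ℤ) P.I P.K)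
      (lpow [((21 : ℕ) : ℤ), ((21 : ℕ) : ℤ)] (P.K + P.I)) q x xs = true →
    chkD P n u Lmax ones qm qr c0 cW q x xs = true := by
  induction xs with
  | nil => intro x h; exact h
  | cons x' xs ih =>
    intro x h
    simp only [chkDf, forceZZ_eq, forceZ_eq, Bool.and_eq_true, List.all_eq_true] at h
    simp only [chkD, Bool.and_eq_true, List.all_eq_true]
    exact ⟨⟨⟨h.1.1, h.1.2.1⟩, fun al hal => chkBetaF_eq (h.1.2.2 al hal)⟩, ih x' h.2⟩

/-- the complete check of (D) on the pieces from `x0` (list `xs`), all evaluations forced -/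
def dualF (P : Par) (n u Lmax : ℕ) (L : List (List ℕ)) (q : List (List ℤ)) (xs : List ℕ) : Bool :=
  forceL (L.map (packL P.B)) fun qs =>
  forceL (qs.map fun q => Nat.div q P.B) fun qm =>
  forceL ((qs.map fun q => Nat.mod q (Nat.pow P.B P.W)).drop (P.I + 1)) fun qr1 =>
  forceL (colQ P.B 0 qs) fun c0 => forceL (colQ P.B P.W qs) fun cW =>
  force1 ((P.B ^ P.W - 1) / (P.B - 1)) fun ones =>
  forceZZZ (bT ((21 : ℕ) : ℤ) P.I P.K) fun BT =>
  forceZ (lpow [((21 : ℕ) : ℤ), ((21 : ℕ) : ℤ)] (P.K + P.I)) fun N =>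
    chkDf P n u Lmax ones qm qr1 c0 cW BT N q 0 xs

theorem dualF_eq {P : Par} {n u Lmax : ℕ} {L : List (List ℕ)} {q : List (List ℤ)} {xs : List ℕ}
    (h : dualF P n u Lmax L q xs = true) :
    chkD P n u Lmax ((P.B ^ P.W - 1) / (P.B - 1)) ((L.map (packL P.B)).map fun q => Nat.div q P.B)
      ((L.map (packL P.B)).map fun q => Nat.mod q (Nat.pow P.B P.W))
      (colQ P.B 0 (L.map (packL P.B))) (colQ P.B P.W (L.map (packL P.B))) q 0 xs = true := by
  unfold dualF at h
  simp only [forceL_eq, force1_eq, forceZZZ_eq, forceZ_eq] at h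
  exact chkDf_eq xs 0 h

end Pool.Agent.H25.SD
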