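import Pool.Agent.H25.SD.Prim
import Pool.Agent.H46.SB.CondOf
import Pool.Agent.H81.L2.Kron

/-!
# LINK: from the lists of integers to the polynomials of the certificate (H25/SD)

* `two_eq`: `two F 0 q ρ p = den · ∑ ck h k ρ · F k p` if the list `q` has the entries `den · h a (k-a)`;
* `prim_of_good`: `Good` and the single sign change give the inequality (P);
-/

namespace Pool.Agent.H25.SD

open Finset H46.SB H49.SG

theorem two_eq_sum (F : ℕ → ℝ → ℝ) (ρ p : ℝ) (q : List (List ℤ)) : ∀ k : ℕ,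
    two F k q ρ p = ∑ j ∈ range q.length, F (k + j) p * hv (k + j) 0 (q.getD j []) ρ (1 - ρ) := by
  induction q with
  | nil => intro k; simp [two]
  | cons l q ih =>
    intro k
    simp only [two, List.length_cons]
    rw [Finset.sum_range_succ', ih (k + 1), add_comm]
    congr 1
    refine Finset.sum_congr rfl fun j _ => ?_
    have e1 : k + 1 + j = k + (j + 1) := by ring
    rw [e1, List.getD_cons_succ]

theorem hv_eq_sum (k : ℕ) (x y : ℝ) (l : List ℤ) : ∀ a : ℕ,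
    hv k a l x y = ∑ j ∈ range l.length, ((l.getD j 0 : ℤ) : ℝ) * x ^ (a + j) * y ^ (k - (a + j)) := by
  induction l with
  | nil => intro a; simp [hv]
  | cons c l ih =>
    intro a
    simp only [hv, List.length_cons]
    rw [Finset.sum_range_succ', ih (a + 1), add_comm]
    congr 1
    refine Finset.sum_congr rfl fun j _ => ?_
    have e1 : a + 1 + j = a + (j + 1) := by ring
    rw [e1, List.getD_cons_succ]

theorem two_eq {F : ℕ → ℝ → ℝ} {h : ℕ → ℕ → ℚ} {den : ℚ} {K : ℕ} {q : List (List ℤ)}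
    (hq : q.length = K + 1) (hlen : ∀ k < K + 1, (q.getD k []).length = k + 1)
    (hval : ∀ k < K + 1, ∀ a < k + 1, (((q.getD k []).getD a 0 : ℤ) : ℚ) = den * h a (k - a)) (ρ p : ℝ) :
    two F 0 q ρ p = (den : ℝ) * ∑ k ∈ range (K + 1), ck h k ρ * F k p := by
  rw [two_eq_sum, hq, Finset.mul_sum]
  refine Finset.sum_congr rfl fun k hk => ?_
  rw [Finset.mem_range] at hk
  rw [zero_add, hv_eq_sum, hlen k hk]
  unfold ck
  rw [Finset.sum_mul, Finset.mul_sum, Finset.mul_sum]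
  refine Finset.sum_congr rfl fun a ha => ?_
  rw [Finset.mem_range] at ha
  have h1 : (((q.getD k []).getD a 0 : ℤ) : ℝ) = (den : ℝ) * (h a (k - a) : ℝ) := by
    have h2 := hval k hk a ha
    have h3 : ((((q.getD k []).getD a 0 : ℤ) : ℚ) : ℝ) = ((den * h a (k - a) : ℚ) : ℝ) := by rw [h2]
    push_cast at h3
    exact h3
  rw [zero_add, h1]
  ring

theorem prim_of_good {n K : ℕ} {h : ℕ → ℕ → ℚ} {den : ℚ} {q : List (List ℤ)} {P : Par}
    (hS : ∀ ρ : ℝ, 0 ≤ ρ → ρ ≤ 1 → ∀ x y : ℝ, 0 < x → x ≤ y →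
      ∑ k ∈ range (K + 1), ck h k ρ * x ^ k ≤ 0 → ∑ k ∈ range (K + 1), ck h k ρ * y ^ k ≤ 0)
    (hq : q.length = K + 1) (hlen : ∀ k < K + 1, (q.getD k []).length = k + 1)
    (hval : ∀ k < K + 1, ∀ a < k + 1, (((q.getD k []).getD a 0 : ℤ) : ℚ) = den * h a (k - a))
    (hden : den < 0) (hA : 0 < P.Ai) (hB : 0 < P.Bi) (hD : 0 < P.Di) {r : ℝ}
    (hr1 : r ≠ 1) (hg : Good (Fk n) q P r) :
    ∑ k ∈ range (K + 1), ck h k (((P.Ai : ℝ) / P.Di) * r ^ 2 / (((P.Ai : ℝ) / P.Di) * r ^ 2 +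
      (P.Bi : ℝ) / P.Di)) * Fk n k ((((P.Ai : ℝ) / P.Di) * r ^ 2 + (P.Bi : ℝ) / P.Di) / |r - 1|) ≤ 0 := by
  obtain ⟨μ, hμ, hμr, hg⟩ := hg
  have hAR : (0:ℝ) < P.Ai := by exact_mod_cast hA
  have hBR : (0:ℝ) < P.Bi := by exact_mod_cast hB
  have hDR : (0:ℝ) < P.Di := by exact_mod_cast hD
  rw [two_eq hq hlen hval] at hg
  set A : ℝ := (P.Ai : ℝ) / P.Di with hAd
  set B : ℝ := (P.Bi : ℝ) / P.Di with hBd
  have hA0 : 0 < A := by positivity
  have hB0 : 0 < B := by positivity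
  have hq0 : 0 < A * r ^ 2 + B := by positivity
  set ρ : ℝ := A * r ^ 2 / (A * r ^ 2 + B) with hρ
  have hρ0 : 0 ≤ ρ := by positivity
  have hρ1 : ρ ≤ 1 := by
    rw [hρ, div_le_one hq0]
    linarith
  have hdenR : (den : ℝ) < 0 := by exact_mod_cast hden
  have h1 : ∑ k ∈ range (K + 1), ck h k ρ * Fk n k μ ≤ 0 := by
    by_contra hcon
    push Not at hcon
    have := mul_neg_of_neg_of_pos hdenR hcon
    linarith
  have hle : μ ≤ (A * r ^ 2 + B) / |r - 1| := by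
    rw [le_div_iff₀ (abs_pos.2 (sub_ne_zero.2 hr1))]
    exact hμr
  have hc := cross (dec_poly K (fun k => ck h k ρ)) (fun x y hx hxy hle => ?_) n μ _ hμ hle ?_
  · rw [Jn_poly K _ n (hμ.trans_le hle)] at hc
    exact hc
  · have h3 : ∑ k ∈ range (K + 1), ck h k ρ * x ^ k ≤ 0 := by
      by_contra hcon
      push Not at hcon
      exact absurd hle (not_le.2 (mul_pos hcon (Real.exp_pos _)))
    exact mul_nonpos_of_nonpos_of_nonneg (hS ρ hρ0 hρ1 x y hx hxy h3) (Real.exp_pos _).le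
  · rw [Jn_poly K _ n hμ]
    exact h1

end Pool.Agent.H25.SD
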