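import Pool.Agent.H25.SD.Fast
import Pool.Agent.H25.SD.Link
import Pool.Agent.H46.SB.FamFk

/-!
# (P) and (D) from the Boolean checks (H25/SD)
-/

namespace Pool.Agent.H25.SD

open Finset H46.SB H49.SG

theorem tab_lt {F : ℕ → ℝ → ℝ} {c p0 : ℝ} {Er Lmax : ℕ} {L : List (List ℕ)} {W : ℕ}
    (hT : Tab F c p0 Er Lmax L W) {B : ℕ} (hB : Lmax < B) : ∀ l ∈ L, ∀ x ∈ l, x < B := by
  intro l hl x hx
  obtain ⟨r, hr, rfl⟩ := List.getElem_of_mem hl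
  obtain ⟨i, hi, rfl⟩ := List.getElem_of_mem hx
  have h1 := hT.len r hr
  rw [List.getD_eq_getElem _ _ hr] at h1
  have h2 := hT.mx r hr i (by omega)
  rw [List.getD_eq_getElem _ _ hr, List.getD_eq_getElem _ _ hi] at h2
  omega

theorem tab_len {F : ℕ → ℝ → ℝ} {c p0 : ℝ} {Er Lmax : ℕ} {L : List (List ℕ)} {W : ℕ}
    (hT : Tab F c p0 Er Lmax L W) : ∀ l ∈ L, l.length = W + 1 := by
  intro l hl
  obtain ⟨r, hr, rfl⟩ := List.getElem_of_mem hl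
  have h1 := hT.len r hr
  rwa [List.getD_eq_getElem _ _ hr] at h1

/-- static conditions on the parameters, decidable -/
def parB (P : Par) (q : List (List ℤ)) (Lmax Llen : ℕ) : Bool :=
  (Nat.blt Lmax P.B && Nat.ble (P.K + P.I + 2) Llen) &&
  ((Nat.ble (21 ^ (P.K + P.I + 1)) (2 * 20 ^ (P.K + P.I + 1)) && (Nat.blt 0 P.y && Nat.blt 0 P.w)) &&
  (((Nat.blt 0 P.Ai && Nat.blt 0 P.Bi) && Nat.blt 0 P.Di) && (wf 0 q && Nat.ble q.length (P.K + 1))))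

theorem parOK_of {n : ℕ} {c : ℝ} {Lmax : ℕ} {L : List (List ℕ)} {q : List (List ℤ)} {P : Par}
    (hT : Tab (Fk n) c ((20 / 21) ^ P.J) P.Er Lmax L P.W) (h : parB P q Lmax L.length = true) :
    ParOK (Fk n) c Lmax L q P := by
  simp only [parB, Bool.and_eq_true, Nat.blt_eq] at h
  obtain ⟨⟨h1, h2⟩, ⟨h3, h4, h5⟩, ⟨⟨h6, h7⟩, h8⟩, h9, h10⟩ := h
  refine ⟨fam n, hT, by omega, tab_lt hT h1, Nat.le_of_ble_eq_true h2, ?_, h4, h5, h6, h7, h8, h9,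
    Nat.le_of_ble_eq_true h10⟩
  have h3' := Nat.le_of_ble_eq_true h3
  have h3R : (21 : ℝ) ^ (P.K + P.I + 1) ≤ 2 * 20 ^ (P.K + P.I + 1) := by exact_mod_cast h3'
  rw [div_pow, div_le_iff₀ (by positivity)]
  exact h3R

/-- the entries of the coefficient lists -/
def entB (K : ℕ) (den : ℚ) (h : ℕ → ℕ → ℚ) (q : List (List ℤ)) : Bool :=
  decide (q.length = K + 1) && (List.range (K + 1)).all fun k =>
    decide ((q.getD k []).length = k + 1) && (List.range (k + 1)).all fun a =>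
      decide ((((q.getD k []).getD a 0 : ℤ) : ℚ) = den * h a (k - a))

theorem entB_spec {K : ℕ} {den : ℚ} {h : ℕ → ℕ → ℚ} {q : List (List ℤ)} (hb : entB K den h q = true) :
    q.length = K + 1 ∧ (∀ k < K + 1, (q.getD k []).length = k + 1) ∧
    (∀ k < K + 1, ∀ a < k + 1, (((q.getD k []).getD a 0 : ℤ) : ℚ) = den * h a (k - a)) := by
  simp only [entB, Bool.and_eq_true, decide_eq_true_eq, List.all_eq_true, List.mem_range] at hb
  exact ⟨hb.1, fun k hk => (hb.2 k hk).1, fun k hk a ha => (hb.2 k hk).2 a ha⟩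

/-- (D) -/
theorem dual_final {n K : ℕ} {h : ℕ → ℕ → ℚ} {den : ℚ} {c : ℝ} {Lmax : ℕ} {L : List (List ℕ)}
    {q : List (List ℤ)} {P : Par} (hT : Tab (Fk n) c ((20 / 21) ^ P.J) P.Er Lmax L P.W)
    (hP : parB P q Lmax L.length = true) (hent : entB K den h q = true) (hden : 0 < den)
    {e : ℕ} (hBe : P.B = 2 ^ e) (he : 1 ≤ e) {u : ℕ}
    (hu : (20 / 21 : ℝ) ^ P.J * √Real.pi ^ n ≤ (u : ℝ) / 1000000) {xs : List ℕ}
    (hchk : dualF P n u Lmax L q xs = true) {ρ p : ℝ} (h0 : 0 ≤ ρ) (h1 : ρ ≤ 1) (hp : 0 < p) :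
    0 ≤ ∑ k ∈ range (K + 1), ck h k ρ * Fk n k p := by
  obtain ⟨e1, e2, e3⟩ := entB_spec hent
  have hd := dual_sound fam (parOK_of hT hP) hBe he hu xs (tab_len hT) (dualF_eq hchk) h0 h1 hp
  rw [two_eq e1 e2 e3] at hd
  have hdenR : (0:ℝ) < den := by exact_mod_cast hden
  by_contra hneg
  push Not at hneg
  have := mul_neg_of_pos_of_neg hdenR hneg
  linarith

/-- (P) -/
theorem prim_final {n K : ℕ} {h : ℕ → ℕ → ℚ} {den : ℚ} {c : ℝ} {Lmax : ℕ} {L : List (List ℕ)}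
    {q : List (List ℤ)} {P : Par} (hT : Tab (Fk n) c ((20 / 21) ^ P.J) P.Er Lmax L P.W)
    (hS : ∀ ρ : ℝ, 0 ≤ ρ → ρ ≤ 1 → ∀ x y : ℝ, 0 < x → x ≤ y →
      ∑ k ∈ range (K + 1), ck h k ρ * x ^ k ≤ 0 → ∑ k ∈ range (K + 1), ck h k ρ * y ^ k ≤ 0)
    (hP : parB P q Lmax L.length = true) (hent : entB K den h q = true) (hden : den < 0)
    {dl dr : List St} (hchk : primF P L q dl dr = true) {A B : ℝ} (hA : A = (P.Ai : ℝ) / P.Di)
    (hB : B = (P.Bi : ℝ) / P.Di) {r : ℝ} (hr : 0 ≤ r) (hr1 : r ≠ 1) :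
    ∑ k ∈ range (K + 1), ck h k (A * r ^ 2 / (A * r ^ 2 + B)) * Fk n k ((A * r ^ 2 + B) / |r - 1|) ≤ 0 := by
  obtain ⟨e1, e2, e3⟩ := entB_spec hent
  have H := parOK_of hT hP
  obtain ⟨hl, hr'⟩ := primF_eq hchk
  subst hA hB
  exact prim_of_good hS e1 e2 e3 hden H.hA H.hBi H.hD hr1 (prim_sound H hl hr' hr hr1)

end Pool.Agent.H25.SD
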