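import Pool.Agent.H25.SD.Fam

/-!
# Linear forms in `F 0 p, F 1 p, …` and pieces in `ρ` (H25/SD)

`lin F k β p = ∑ β_j F (k+j) p`.  `two F k q ρ p = ∑_j F (k+j) p · Q_(k+j)(ρ)` where
`q = [q_k, q_(k+1), …]` and the list `q_k = [q_(k,0), …, q_(k,k)]` has the value
`Q_k(ρ) = ∑_a q_(k,a) ρ^a (1-ρ)^(k-a)`.
-/

namespace Pool.Agent.H25.SD

open Finset

/-- `∑ β_j F (k+j) p` -/
def lin (F : ℕ → ℝ → ℝ) : ℕ → List ℤ → ℝ → ℝ
  | _, [], _ => 0
  | k, b :: β, p => (b : ℝ) * F k p + lin F (k + 1) β p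

/-- `∑_a c_a x^(a0 + a) y^e`, the exponent of `y` decreases: value of `[c_0, …]` as
`∑ c_j x^(a+j) y^(k-a-j)` -/
def hv : ℕ → ℕ → List ℤ → ℝ → ℝ → ℝ
  | _, _, [], _, _ => 0
  | k, a, c :: l, x, y => (c : ℝ) * x ^ a * y ^ (k - a) + hv k (a + 1) l x y

/-- `∑_j F (k+j) p Q_(k+j)(ρ)` -/
def two (F : ℕ → ℝ → ℝ) : ℕ → List (List ℤ) → ℝ → ℝ → ℝ
  | _, [], _, _ => 0
  | k, q :: qs, ρ, p => F k p * hv k 0 q ρ (1 - ρ) + two F (k + 1) qs ρ p

/-- the polynomial `∑ c_j X^(a+j) Y^(k-a-j)` in `v`, `X = x + x' v`, `Y = y + y' v` -/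
def hpol (X Y : List ℤ) : ℕ → ℕ → List ℤ → List ℤ
  | _, _, [] => []
  | k, a, c :: l => ladd (lsmul c (lmul (lpow X a) (lpow Y (k - a)))) (hpol X Y k (a + 1) l)

/-- the polynomials `A_k(v) = (Y0)^(K-k) Q_k`, `Y0 = y (1+v)` -/
def apol (X Y Z : List ℤ) (K : ℕ) : ℕ → List (List ℤ) → List (List ℤ)
  | _, [] => []
  | k, q :: qs => lmul (lpow Z (K - k)) (hpol X Y k 0 q) :: apol X Y Z K (k + 1) qs

/-- the coefficient vectors -/
def bvec (A : List (List ℤ)) (al : ℕ) : List ℤ := A.map (fun l => l.getD al 0)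

theorem ev_hpol (X Y : List ℤ) (k : ℕ) (l : List ℤ) : ∀ a v,
    ev (hpol X Y k a l) v = hv k a l (ev X v) (ev Y v) := by
  induction l with
  | nil => intro a v; simp [hpol, hv, ev]
  | cons c l ih =>
    intro a v
    simp only [hpol, hv, ev_ladd, ev_lsmul, ev_lmul, ev_lpow, ih]
    ring

theorem hv_scale (k : ℕ) (l : List ℤ) (s x y : ℝ) : ∀ a, a + l.length ≤ k + 1 →
    hv k a l (s * x) (s * y) = s ^ k * hv k a l x y := by
  induction l with
  | nil => intro a _; simp [hv]
  | cons c l ih =>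
    intro a ha
    simp only [List.length_cons] at ha
    simp only [hv]
    rw [ih (a + 1) (by omega), mul_pow, mul_pow]
    have h : s ^ k = s ^ a * s ^ (k - a) := by rw [← pow_add]; congr 1; omega
    rw [h]
    ring

/-- well-formedness of the coefficient lists: `q_k` has at most `k+1` entries -/
def wf : ℕ → List (List ℤ) → Bool
  | _, [] => true
  | k, q :: qs => decide (q.length ≤ k + 1) && wf (k + 1) qs

theorem lin_bvec (F : ℕ → ℝ → ℝ) (p v : ℝ) (N : ℕ) (A : List (List ℤ)) :
    ∀ k, (∀ l ∈ A, l.length ≤ N) →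
    ∑ al ∈ range N, lin F k (bvec A al) p * v ^ al =
      (List.range A.length).foldr (fun j s => F (k + j) p * ev (A.getD j []) v + s) 0 := by
  induction A with
  | nil => intro k _; simp [bvec, lin]
  | cons l A ih =>
    intro k hl
    have h1 : ∀ al, lin F k (bvec (l :: A) al) p = (l.getD al 0 : ℝ) * F k p + lin F (k + 1) (bvec A al) p := by
      intro al; rfl
    simp only [h1, add_mul, Finset.sum_add_distrib]
    rw [ih (k + 1) (fun m hm => hl m (List.mem_cons_of_mem _ hm)), List.length_cons, List.range_succ_eq_map,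
      List.foldr_cons, List.foldr_map]
    have h2 : ∑ al ∈ range N, (l.getD al 0 : ℝ) * F k p * v ^ al = F k p * ev l v := by
      rw [ev_eq_sum l v N (hl l (List.mem_cons_self ..)), Finset.mul_sum]
      exact Finset.sum_congr rfl fun i _ => by ring
    rw [h2]
    simp only [List.getD_cons_zero, List.getD_cons_succ, Nat.succ_eq_add_one, add_zero]
    congr 2
    funext j s
    have : k + 1 + j = k + (j + 1) := by ring
    rw [this]

/-- recursive version of the fold -/
def tot (F : ℕ → ℝ → ℝ) : ℕ → List (List ℤ) → ℝ → ℝ → ℝ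
  | _, [], _, _ => 0
  | k, l :: A, v, p => F k p * ev l v + tot F (k + 1) A v p

theorem lin_bvec' (F : ℕ → ℝ → ℝ) (p v : ℝ) (N : ℕ) (A : List (List ℤ)) :
    ∀ k, (∀ l ∈ A, l.length ≤ N) →
    ∑ al ∈ range N, lin F k (bvec A al) p * v ^ al = tot F k A v p := by
  induction A with
  | nil => intro k _; simp [bvec, lin, tot]
  | cons l A ih =>
    intro k hl
    have h1 : ∀ al, lin F k (bvec (l :: A) al) p = (l.getD al 0 : ℝ) * F k p + lin F (k + 1) (bvec A al) p := by
      intro al; rfl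
    simp only [h1, add_mul, Finset.sum_add_distrib]
    rw [ih (k + 1) (fun m hm => hl m (List.mem_cons_of_mem _ hm))]
    have h2 : ∑ al ∈ range N, (l.getD al 0 : ℝ) * F k p * v ^ al = F k p * ev l v := by
      rw [ev_eq_sum l v N (hl l (List.mem_cons_self ..)), Finset.mul_sum]
      exact Finset.sum_congr rfl fun i _ => by ring
    rw [h2]
    rfl

/-- the homogenised identity: `(y (1+v))^K · two = tot` -/
theorem tot_apol (F : ℕ → ℝ → ℝ) (X Y Z : List ℤ) (K : ℕ) (v ρ p s : ℝ) (hX : ev X v = s * ρ)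
    (hY : ev Y v = s * (1 - ρ)) (hZ : ev Z v = s) (q : List (List ℤ)) :
    ∀ k, wf k q = true → k + q.length ≤ K + 1 →
    tot F k (apol X Y Z K k q) v p = s ^ K * two F k q ρ p := by
  induction q with
  | nil => intro k _ _; simp [apol, tot, two]
  | cons a q ih =>
    intro k hw hK
    simp only [wf, Bool.and_eq_true, decide_eq_true_eq] at hw
    simp only [List.length_cons] at hK
    simp only [apol, tot, two]
    rw [ih (k + 1) hw.2 (by omega), ev_lmul, ev_lpow, ev_hpol, hX, hY, hZ, hv_scale k a s ρ (1 - ρ) 0 (by omega)]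
    have h : s ^ K = s ^ (K - k) * s ^ k := by rw [← pow_add]; congr 1; omega
    rw [h]
    ring

/-- lengths bounded -/
def lenle (N : ℕ) : List (List ℤ) → Bool
  | [] => true
  | l :: A => decide (l.length ≤ N) && lenle N A

theorem lenle_spec {N : ℕ} {A : List (List ℤ)} (h : lenle N A = true) : ∀ l ∈ A, l.length ≤ N := by
  induction A with
  | nil => intro l hl; simp at hl
  | cons a A ih =>
    simp only [lenle, Bool.and_eq_true, decide_eq_true_eq] at h
    intro l hl
    rcases List.mem_cons.1 hl with rfl | h2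
    · exact h.1
    · exact ih h.2 l h2

/-- the polynomials of the piece `ρ ∈ [xa/y, xb/y]` -/
def piece (K : ℕ) (q : List (List ℤ)) (xa xb y : ℤ) : List (List ℤ) :=
  apol [xa, xb] [y - xa, y - xb] [y, y] K 0 q

theorem two_cont (F : ℕ → ℝ → ℝ) (q : List (List ℤ)) (p : ℝ) : ∀ k, Continuous fun ρ => two F k q ρ p := by
  have hh : ∀ (l : List ℤ) (k a : ℕ), Continuous fun ρ : ℝ => hv k a l ρ (1 - ρ) := by
    intro l
    induction l with
    | nil => intro k a; exact continuous_const
    | cons c l ih =>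
      intro k a
      simp only [hv]
      exact ((continuous_const.mul (continuous_id.pow a)).mul
        ((continuous_const.sub continuous_id).pow (k - a))).add (ih k (a + 1))
  induction q with
  | nil => intro k; exact continuous_const
  | cons a q ih =>
    intro k
    simp only [two]
    exact (continuous_const.mul (hh a k 0)).add (ih (k + 1))

/-- PIECE LEMMA: if all the linear forms of the piece are nonnegative at `p`, then `two ≥ 0` for all `ρ`
of the piece -/
theorem piece_nonneg (F : ℕ → ℝ → ℝ) {K : ℕ} {q : List (List ℤ)} {xa xb y : ℤ} {p : ℝ}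
    (hw : wf 0 q = true) (hq : q.length ≤ K + 1) (hy : 0 < y) (hab : xa < xb)
    (hlen : lenle (K + 1) (piece K q xa xb y) = true)
    (h : ∀ al < K + 1, 0 ≤ lin F 0 (bvec (piece K q xa xb y) al) p) {ρ : ℝ}
    (h1 : (xa : ℝ) ≤ y * ρ) (h2 : (y : ℝ) * ρ ≤ xb) : 0 ≤ two F 0 q ρ p := by
  have hyR : (0:ℝ) < y := by exact_mod_cast hy
  have habR : (xa:ℝ) < xb := by exact_mod_cast hab
  have key : ∀ ρ ∈ Set.Ico ((xa : ℝ) / y) ((xb : ℝ) / y), 0 ≤ two F 0 q ρ p := by
    intro ρ hρ
    have ha : (xa : ℝ) ≤ y * ρ := by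
      have := (div_le_iff₀ hyR).1 hρ.1
      linarith [mul_comm ρ (y:ℝ)]
    have hb : (y : ℝ) * ρ < xb := by
      have := (lt_div_iff₀ hyR).1 hρ.2
      linarith [mul_comm ρ (y:ℝ)]
    set v : ℝ := (y * ρ - xa) / (xb - y * ρ) with hv'
    have hden : 0 < (xb : ℝ) - y * ρ := by linarith
    have hv0 : 0 ≤ v := div_nonneg (by linarith) hden.le
    have e1 : (xa : ℝ) + v * xb = y * (1 + v) * ρ := by
      rw [hv']
      field_simp
      ring
    have hX : ev [xa, xb] v = (y * (1 + v)) * ρ := by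
      simp only [ev]; rw [← e1]; ring
    have hY : ev [y - xa, y - xb] v = (y * (1 + v)) * (1 - ρ) := by
      simp only [ev]
      push_cast
      have : (y * (1 + v)) * (1 - ρ) = y * (1 + v) - (xa + v * xb) := by rw [e1]; ring
      rw [this]
      ring
    have hZ : ev [y, y] v = y * (1 + v) := by simp only [ev]; ring
    have h3 := tot_apol F [xa, xb] [y - xa, y - xb] [y, y] K v ρ p (y * (1 + v)) hX hY hZ q 0 hw
      (by omega)
    have h4 := lin_bvec' F p v (K + 1) (piece K q xa xb y) 0 (lenle_spec hlen)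
    unfold piece at h4
    rw [h3] at h4
    have h5 : 0 ≤ (y * (1 + v)) ^ K * two F 0 q ρ p := by
      rw [← h4]
      refine Finset.sum_nonneg fun al hal => ?_
      exact mul_nonneg (h al (Finset.mem_range.1 hal)) (pow_nonneg hv0 _)
    have h6 : 0 < (y * (1 + v)) ^ K := by positivity
    by_contra hneg
    push Not at hneg
    have := mul_neg_of_pos_of_neg h6 hneg
    linarith
  have hne : (xa : ℝ) / y ≠ xb / y := by
    intro h
    have := (div_left_inj' hyR.ne').1 h
    linarith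
  have hmem : ρ ∈ closure (Set.Ico ((xa : ℝ) / y) ((xb : ℝ) / y)) := by
    rw [closure_Ico hne]
    constructor
    · rw [div_le_iff₀ hyR]; linarith [mul_comm ρ (y:ℝ)]
    · rw [le_div_iff₀ hyR]; linarith [mul_comm ρ (y:ℝ)]
  have hcl : IsClosed {ρ : ℝ | 0 ≤ two F 0 q ρ p} := isClosed_le continuous_const (two_cont F q p 0)
  exact (hcl.closure_subset_iff.2 key) hmem

end Pool.Agent.H25.SD
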