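import Mathlib

/-!
# Integer list polynomials (H25/SD): evaluation, sum, product, power, sign
-/

namespace Pool.Agent.H25.SD

/-- evaluation of an integer polynomial given by the list of its coefficients (constant first) -/
def ev : List ℤ → ℝ → ℝ
  | [], _ => 0
  | a :: l, x => (a : ℝ) + x * ev l x

/-- sum -/
def ladd : List ℤ → List ℤ → List ℤ
  | [], m => m
  | a :: l, [] => a :: l
  | a :: l, b :: m => (a + b) :: ladd l m

/-- scalar multiple -/
def lsmul (c : ℤ) : List ℤ → List ℤ
  | [] => []
  | a :: l => (c * a) :: lsmul c l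

/-- product -/
def lmul : List ℤ → List ℤ → List ℤ
  | [], _ => []
  | a :: l, m => ladd (lsmul a m) (0 :: lmul l m)

/-- power -/
def lpow (l : List ℤ) : ℕ → List ℤ
  | 0 => [1]
  | n + 1 => lmul l (lpow l n)

/-- all coefficients nonnegative -/
def lnn : List ℤ → Bool
  | [] => true
  | a :: l => (decide (0 ≤ a)) && lnn l

theorem ev_nil (x : ℝ) : ev [] x = 0 := rfl
theorem ev_cons (a : ℤ) (l : List ℤ) (x : ℝ) : ev (a :: l) x = (a : ℝ) + x * ev l x := rfl

theorem ev_ladd (l m : List ℤ) (x : ℝ) : ev (ladd l m) x = ev l x + ev m x := by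
  induction l generalizing m with
  | nil => simp [ladd, ev]
  | cons a l ih =>
    cases m with
    | nil => simp [ladd, ev]
    | cons b m => simp only [ladd, ev, ih]; push_cast; ring

theorem ev_lsmul (c : ℤ) (l : List ℤ) (x : ℝ) : ev (lsmul c l) x = c * ev l x := by
  induction l with
  | nil => simp [lsmul, ev]
  | cons a l ih => simp only [lsmul, ev, ih]; push_cast; ring

theorem ev_lmul (l m : List ℤ) (x : ℝ) : ev (lmul l m) x = ev l x * ev m x := by
  induction l with
  | nil => simp [lmul, ev]
  | cons a l ih => simp only [lmul, ev_ladd, ev_lsmul, ev, ih]; push_cast; ring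

theorem ev_lpow (l : List ℤ) (n : ℕ) (x : ℝ) : ev (lpow l n) x = ev l x ^ n := by
  induction n with
  | zero => simp [lpow, ev]
  | succ n ih => simp only [lpow, ev_lmul, ih]; ring

theorem ev_nonneg {l : List ℤ} (h : lnn l = true) {x : ℝ} (hx : 0 ≤ x) : 0 ≤ ev l x := by
  induction l with
  | nil => simp [ev]
  | cons a l ih =>
    simp only [lnn, Bool.and_eq_true, decide_eq_true_eq] at h
    have ha : (0 : ℝ) ≤ (a : ℝ) := by exact_mod_cast h.1
    have := ih h.2
    simp only [ev]
    positivity

/-- evaluation as a finite sum over `range N`, `N` at least the length -/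
theorem ev_eq_sum (l : List ℤ) (x : ℝ) (N : ℕ) (hN : l.length ≤ N) :
    ev l x = ∑ i ∈ Finset.range N, (l.getD i 0 : ℝ) * x ^ i := by
  induction l generalizing N with
  | nil => simp [ev]
  | cons a l ih =>
    cases N with
    | zero => simp at hN
    | succ N =>
      have hN' : l.length ≤ N := by simpa using hN
      rw [Finset.sum_range_succ']
      simp only [ev, List.getD_cons_succ, List.getD_cons_zero, pow_zero, mul_one, pow_succ]
      rw [ih N hN', Finset.mul_sum]
      rw [add_comm]
      congr 1
      refine Finset.sum_congr rfl fun i _ => ?_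
      ring

end Pool.Agent.H25.SD
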