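import Pool.Agent.H25.SD.Dig

/-!
# (P) from a staircase (H25/SD)

`A = Ai/Di`, `B = Bi/Di`; the variable `r` runs through `[ua/w, ub/w]`, `ρ = A r²/(A r² + B)` through
`[xa/y, xb/y]`, the node is `μ = (21/20)^(i+1-J) (1 - s/840) ≤ mu/10^6`.
-/

namespace Pool.Agent.H25.SD

open Finset

/-- data of a stair -/
structure St where
  ub : ℕ
  i : ℕ
  s : ℕ
  mu : ℕ
  xa : ℕ
  xb : ℕ

/-- parameters -/
structure Par where
  w : ℕ
  y : ℕ
  Ai : ℕ
  Bi : ℕ
  Di : ℕ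
  J : ℕ
  W : ℕ
  K : ℕ
  I : ℕ
  Er : ℕ
  B : ℕ

/-- the node is at most `mu/10^6` -/
def okMu (P : Par) (d : St) : Bool :=
  Nat.ble (21 ^ (d.i + 1) * 20 ^ P.J * (840 - d.s) * 1000000) (d.mu * (20 ^ (d.i + 1) * 21 ^ P.J * 840))

/-- Bernstein coefficients -/
def okB (P : Par) (qs : List ℕ) (q : List (List ℤ)) (d : St) : Bool :=
  (Nat.blt d.i P.W && (Nat.ble d.s 40 && (Nat.blt d.xa d.xb && lenle (P.K + 1) (piece P.K q d.xa d.xb P.y)))) &&
  (List.range (P.K + 1)).all fun al =>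
    Nat.ble (dN (bvec (piece P.K q d.xa d.xb P.y) al) (nup d.s P.I P.K P.Er (colQ P.B (d.i + 1) qs) (colQ P.B d.i qs)))
      (dP (bvec (piece P.K q d.xa d.xb P.y) al) (nlo d.s P.I P.K (colQ P.B (d.i + 1) qs)))

/-- left endpoint in `ρ` -/
def okA (P : Par) (ua : ℕ) (d : St) : Bool :=
  Nat.ble (d.xa * (P.Ai * ua ^ 2 + P.Bi * P.w ^ 2)) (P.y * (P.Ai * ua ^ 2))

/-- right endpoint in `ρ` -/
def okR (P : Par) (d : St) : Bool :=
  Nat.ble (P.y * (P.Ai * d.ub ^ 2)) (d.xb * (P.Ai * d.ub ^ 2 + P.Bi * P.w ^ 2))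

/-- the stairs for `r ≤ 1` -/
def stL (P : Par) (qs : List ℕ) (q : List (List ℤ)) : ℕ → List St → Bool
  | ua, [] => Nat.beq ua P.w
  | ua, d :: ds =>
    (okMu P d && okB P qs q d) && ((okA P ua d && okR P d) &&
      ((Nat.ble ua P.w && Nat.ble (d.mu * (P.w - ua) * P.w * P.Di) (1000000 * (P.Ai * ua ^ 2 + P.Bi * P.w ^ 2))) &&
        stL P qs q d.ub ds))

/-- the stairs for `r ≥ 1`; `ub = 0` stands for infinity -/
def stR (P : Par) (qs : List ℕ) (q : List (List ℤ)) : ℕ → List St → Bool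
  | _, [] => false
  | ua, d :: ds =>
    (okMu P d && okB P qs q d) && ((okA P ua d &&
      (Nat.ble P.w ua && Nat.ble (d.mu * (ua - P.w) * P.w * P.Di) (1000000 * (P.Ai * ua ^ 2 + P.Bi * P.w ^ 2)))) &&
      (if d.ub = 0 then Nat.ble P.y d.xb && Nat.ble (d.mu * P.Di * P.w) (2 * 1000000 * P.Ai * ua)
       else (okR P d && (Nat.ble ua d.ub &&
        (Nat.ble (d.mu * (d.ub - P.w) * P.w * P.Di) (1000000 * (P.Ai * d.ub ^ 2 + P.Bi * P.w ^ 2)) &&
         Nat.ble (P.Di * d.mu * (ua + d.ub - 2 * P.w) * P.w) (2 * 1000000 * (P.Ai * ua * d.ub + P.Bi * P.w ^ 2))))) &&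
        stR P qs q d.ub ds))

/-- the node -/
noncomputable def nodeR (P : Par) (d : St) : ℝ := (20 / 21) ^ P.J * (21 / 20) ^ (d.i + 1) * (1 - (d.s : ℝ) / 840)

theorem okMu_spec {P : Par} {d : St} (h : okMu P d = true) (hs : d.s ≤ 40) :
    nodeR P d ≤ (d.mu : ℝ) / 1000000 ∧ 0 < nodeR P d := by
  unfold okMu at h
  have h1 := Nat.le_of_ble_eq_true h
  have h2 : ((21 : ℝ) ^ (d.i + 1) * 20 ^ P.J * ((840 - d.s : ℕ) : ℝ) * 1000000) ≤
      (d.mu : ℝ) * (20 ^ (d.i + 1) * 21 ^ P.J * 840) := by exact_mod_cast h1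
  have h3 : ((840 - d.s : ℕ) : ℝ) = 840 - d.s := by
    rw [Nat.cast_sub (by omega)]; push_cast; ring
  have hsR : (d.s : ℝ) ≤ 40 := by exact_mod_cast hs
  rw [h3] at h2
  unfold nodeR
  constructor
  · rw [le_div_iff₀ (by norm_num), div_pow, div_pow]
    have h20 : (0:ℝ) < 20 ^ (d.i + 1) := by positivity
    have h21 : (0:ℝ) < 21 ^ P.J := by positivity
    have e : (20:ℝ) ^ P.J / 21 ^ P.J * (21 ^ (d.i + 1) / 20 ^ (d.i + 1)) * (1 - (d.s : ℝ) / 840) * 1000000 =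
        (21 ^ (d.i + 1) * 20 ^ P.J * (840 - d.s) * 1000000) / (20 ^ (d.i + 1) * 21 ^ P.J * 840) := by
      field_simp
    rw [e, div_le_iff₀ (by positivity)]
    exact h2
  · have : (0:ℝ) < 1 - (d.s : ℝ) / 840 := by
      have : (d.s : ℝ) / 840 ≤ 40 / 840 := by gcongr
      linarith
    positivity

theorem okB_spec {F : ℕ → ℝ → ℝ} (hF : Fam F) {c : ℝ} {Lmax : ℕ} {L : List (List ℕ)} {P : Par}
    (hT : Tab F c ((20 / 21) ^ P.J) P.Er Lmax L P.W) (hB : 0 < P.B) (hLB : ∀ l ∈ L, ∀ x ∈ l, x < P.B)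
    (hL : P.K + P.I + 2 ≤ L.length) (hlam : ((21 : ℝ) / 20) ^ (P.K + P.I + 1) ≤ 2) (hy : 0 < P.y)
    {q : List (List ℤ)} (hw : wf 0 q = true) (hq : q.length ≤ P.K + 1) {d : St}
    (h : okB P (L.map (H81.L2.packL P.B)) q d = true) {ρ : ℝ} (h1 : (d.xa : ℝ) ≤ P.y * ρ)
    (h2 : (P.y : ℝ) * ρ ≤ d.xb) : 0 ≤ two F 0 q ρ (nodeR P d) := by
  unfold okB at h
  simp only [Bool.and_eq_true, Nat.blt_eq, List.all_eq_true, List.mem_range] at h
  obtain ⟨⟨hi, hs, hx, hlen⟩, hall⟩ := h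
  have hs' := Nat.le_of_ble_eq_true hs
  refine piece_nonneg F (K := P.K) (q := q) (xa := d.xa) (xb := d.xb) (y := P.y) hw hq (by exact_mod_cast hy)
    (by exact_mod_cast hx) hlen ?_ (by exact_mod_cast h1) (by exact_mod_cast h2)
  intro al hal
  have hch := Nat.le_of_ble_eq_true (hall al hal)
  rw [colQ_eq hB hLB, colQ_eq hB hLB] at hch
  have hbl : (bvec (piece P.K q d.xa d.xb P.y) al).length ≤ P.K + 1 := by
    have : (piece P.K q (d.xa : ℤ) d.xb P.y).length = q.length := by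
      have haux : ∀ (X Y Z : List ℤ) (q : List (List ℤ)) (k : ℕ), (apol X Y Z P.K k q).length = q.length := by
        intro X Y Z q
        induction q with
        | nil => intro k; rfl
        | cons a q ih => intro k; simp [apol, ih]
      exact haux _ _ _ _ _
    simp [bvec, this]
    exact hq
  have hd := dot2 (fun k => 840 ^ (P.K + P.I + 1) * ((P.I + 1).factorial : ℝ) * c * F k (nodeR P d))
    (bvec (piece P.K q d.xa d.xb P.y) al) (nlo d.s P.I P.K (colD L (d.i + 1)))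
    (nup d.s P.I P.K P.Er (colD L (d.i + 1)) (colD L d.i)) 0 (by simpa [nlo] using hbl)
    (by simpa [nup] using hbl) (by
      intro j hj
      rw [zero_add]
      exact node_bounds hF hT hL hlam hi hs' (lt_of_lt_of_le hj hbl))
  have hch' : ((dN (bvec (piece P.K q d.xa d.xb P.y) al) (nup d.s P.I P.K P.Er (colD L (d.i + 1)) (colD L d.i)) : ℕ) : ℝ) ≤
      ((dP (bvec (piece P.K q d.xa d.xb P.y) al) (nlo d.s P.I P.K (colD L (d.i + 1))) : ℕ) : ℝ) := by
    exact_mod_cast hch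
  have hsum : 0 ≤ ∑ j ∈ range (bvec (piece P.K q d.xa d.xb P.y) al).length,
      ((bvec (piece P.K q d.xa d.xb P.y) al).getD j 0 : ℝ) *
      (840 ^ (P.K + P.I + 1) * ((P.I + 1).factorial : ℝ) * c * F (0 + j) (nodeR P d)) := by linarith
  have e : ∑ j ∈ range (bvec (piece P.K q d.xa d.xb P.y) al).length,
      ((bvec (piece P.K q d.xa d.xb P.y) al).getD j 0 : ℝ) *
      (840 ^ (P.K + P.I + 1) * ((P.I + 1).factorial : ℝ) * c * F (0 + j) (nodeR P d)) =
      840 ^ (P.K + P.I + 1) * ((P.I + 1).factorial : ℝ) * c *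
        lin F 0 (bvec (piece P.K q d.xa d.xb P.y) al) (nodeR P d) := by
    rw [lin_eq_sum, Finset.mul_sum]
    exact Finset.sum_congr rfl fun j _ => by ring
  rw [e] at hsum
  have hc := hT.cpos
  have hpos : (0:ℝ) < 840 ^ (P.K + P.I + 1) * ((P.I + 1).factorial : ℝ) * c := by positivity
  by_contra hneg
  push Not at hneg
  have := mul_neg_of_pos_of_neg hpos hneg
  linarith

theorem rho_mono {A B r s : ℝ} (hA : 0 < A) (hB : 0 < B) (hr : 0 ≤ r) (hrs : r ≤ s) :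
    A * r ^ 2 / (A * r ^ 2 + B) ≤ A * s ^ 2 / (A * s ^ 2 + B) := by
  have h1 : r ^ 2 ≤ s ^ 2 := pow_le_pow_left₀ hr hrs 2
  rw [div_le_div_iff₀ (by positivity) (by positivity)]
  have : A * r ^ 2 * B ≤ A * s ^ 2 * B := by gcongr
  nlinarith

theorem okA_spec {P : Par} {ua : ℕ} {d : St} (hw : 0 < P.w) (hA : 0 < P.Ai) (hB : 0 < P.Bi) (hD : 0 < P.Di)
    (h : okA P ua d = true) {r : ℝ} (hr : (ua : ℝ) / P.w ≤ r) :
    (d.xa : ℝ) ≤ P.y * (((P.Ai : ℝ) / P.Di) * r ^ 2 / (((P.Ai : ℝ) / P.Di) * r ^ 2 + (P.Bi : ℝ) / P.Di)) := by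
  unfold okA at h
  have h1 := Nat.le_of_ble_eq_true h
  have h2 : (d.xa : ℝ) * (P.Ai * ua ^ 2 + P.Bi * P.w ^ 2) ≤ P.y * (P.Ai * ua ^ 2) := by exact_mod_cast h1
  have hwR : (0:ℝ) < P.w := by exact_mod_cast hw
  have hAR : (0:ℝ) < P.Ai := by exact_mod_cast hA
  have hBR : (0:ℝ) < P.Bi := by exact_mod_cast hB
  have hDR : (0:ℝ) < P.Di := by exact_mod_cast hD
  have h3 := rho_mono (A := (P.Ai : ℝ) / P.Di) (B := (P.Bi : ℝ) / P.Di) (by positivity) (by positivity)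
    (by positivity : (0:ℝ) ≤ (ua : ℝ) / P.w) hr
  have h4 : ((P.Ai : ℝ) / P.Di) * ((ua : ℝ) / P.w) ^ 2 / (((P.Ai : ℝ) / P.Di) * ((ua : ℝ) / P.w) ^ 2 + (P.Bi : ℝ) / P.Di) =
      (P.Ai * ua ^ 2) / (P.Ai * ua ^ 2 + P.Bi * P.w ^ 2) := by
    field_simp
  rw [h4] at h3
  have h5 : (d.xa : ℝ) ≤ P.y * ((P.Ai * ua ^ 2) / (P.Ai * ua ^ 2 + P.Bi * P.w ^ 2)) := by
    rw [← mul_div_assoc, le_div_iff₀ (by positivity)]
    exact h2
  exact h5.trans (mul_le_mul_of_nonneg_left h3 (Nat.cast_nonneg _))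

theorem okR_spec {P : Par} {d : St} (hw : 0 < P.w) (hA : 0 < P.Ai) (hB : 0 < P.Bi) (hD : 0 < P.Di)
    (h : okR P d = true) {r : ℝ} (hr0 : 0 ≤ r) (hr : r ≤ (d.ub : ℝ) / P.w) :
    P.y * (((P.Ai : ℝ) / P.Di) * r ^ 2 / (((P.Ai : ℝ) / P.Di) * r ^ 2 + (P.Bi : ℝ) / P.Di)) ≤ d.xb := by
  unfold okR at h
  have h1 := Nat.le_of_ble_eq_true h
  have h2 : (P.y : ℝ) * (P.Ai * d.ub ^ 2) ≤ d.xb * (P.Ai * d.ub ^ 2 + P.Bi * P.w ^ 2) := by exact_mod_cast h1
  have hwR : (0:ℝ) < P.w := by exact_mod_cast hw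
  have hAR : (0:ℝ) < P.Ai := by exact_mod_cast hA
  have hBR : (0:ℝ) < P.Bi := by exact_mod_cast hB
  have hDR : (0:ℝ) < P.Di := by exact_mod_cast hD
  have h3 := rho_mono (A := (P.Ai : ℝ) / P.Di) (B := (P.Bi : ℝ) / P.Di) (by positivity) (by positivity)
    hr0 hr
  have h4 : ((P.Ai : ℝ) / P.Di) * ((d.ub : ℝ) / P.w) ^ 2 / (((P.Ai : ℝ) / P.Di) * ((d.ub : ℝ) / P.w) ^ 2 + (P.Bi : ℝ) / P.Di) =
      (P.Ai * d.ub ^ 2) / (P.Ai * d.ub ^ 2 + P.Bi * P.w ^ 2) := by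
    field_simp
  rw [h4] at h3
  have h5 : P.y * (((P.Ai : ℝ) * d.ub ^ 2) / (P.Ai * d.ub ^ 2 + P.Bi * P.w ^ 2)) ≤ d.xb := by
    rw [← mul_div_assoc, div_le_iff₀ (by positivity)]
    exact h2
  exact (mul_le_mul_of_nonneg_left h3 (Nat.cast_nonneg _)).trans h5

/-- the hypotheses on the parameters -/
structure ParOK (F : ℕ → ℝ → ℝ) (c : ℝ) (Lmax : ℕ) (L : List (List ℕ)) (q : List (List ℤ)) (P : Par) : Prop where
  fam : Fam F
  tab : Tab F c ((20 / 21) ^ P.J) P.Er Lmax L P.W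
  hB : 0 < P.B
  hLB : ∀ l ∈ L, ∀ x ∈ l, x < P.B
  hL : P.K + P.I + 2 ≤ L.length
  hlam : ((21 : ℝ) / 20) ^ (P.K + P.I + 1) ≤ 2
  hy : 0 < P.y
  hw : 0 < P.w
  hA : 0 < P.Ai
  hBi : 0 < P.Bi
  hD : 0 < P.Di
  wf : wf 0 q = true
  hq : q.length ≤ P.K + 1

/-- the conclusion for one `r` -/
def Good (F : ℕ → ℝ → ℝ) (q : List (List ℤ)) (P : Par) (r : ℝ) : Prop :=
  ∃ μ : ℝ, 0 < μ ∧ μ * |r - 1| ≤ ((P.Ai : ℝ) / P.Di) * r ^ 2 + (P.Bi : ℝ) / P.Di ∧
    0 ≤ two F 0 q (((P.Ai : ℝ) / P.Di) * r ^ 2 / (((P.Ai : ℝ) / P.Di) * r ^ 2 + (P.Bi : ℝ) / P.Di)) μ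

theorem okB_s {P : Par} {qs : List ℕ} {q : List (List ℤ)} {d : St} (h : okB P qs q d = true) : d.s ≤ 40 := by
  unfold okB at h
  simp only [Bool.and_eq_true] at h
  exact Nat.le_of_ble_eq_true h.1.2.1

theorem stL_sound {F : ℕ → ℝ → ℝ} {c : ℝ} {Lmax : ℕ} {L : List (List ℕ)} {q : List (List ℤ)} {P : Par}
    (H : ParOK F c Lmax L q P) (ds : List St) : ∀ ua, stL P (L.map (H81.L2.packL P.B)) q ua ds = true →
    ∀ r : ℝ, (ua : ℝ) / P.w ≤ r → r < 1 → Good F q P r := by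
  have hwR : (0:ℝ) < P.w := by exact_mod_cast H.hw
  have hDR : (0:ℝ) < P.Di := by exact_mod_cast H.hD
  have hAR : (0:ℝ) < P.Ai := by exact_mod_cast H.hA
  have hBR : (0:ℝ) < P.Bi := by exact_mod_cast H.hBi
  induction ds with
  | nil =>
    intro ua h r h1 h2
    simp only [stL] at h
    have h3 : ua = P.w := Nat.eq_of_beq_eq_true h
    rw [h3, div_self hwR.ne'] at h1
    linarith
  | cons d ds ih =>
    intro ua h r h1 h2
    simp only [stL, Bool.and_eq_true] at h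
    obtain ⟨⟨hmu, hb⟩, ⟨ha, hr⟩, ⟨hle, hgeo⟩, hrec⟩ := h
    rcases le_or_gt r ((d.ub : ℝ) / P.w) with h3 | h3
    · have hr0 : 0 ≤ r := le_trans (by positivity) h1
      obtain ⟨hm1, hm2⟩ := okMu_spec hmu (okB_s hb)
      refine ⟨nodeR P d, hm2, ?_, okB_spec H.fam H.tab H.hB H.hLB H.hL H.hlam H.hy H.wf H.hq hb
        (okA_spec H.hw H.hA H.hBi H.hD ha h1) (okR_spec H.hw H.hA H.hBi H.hD hr hr0 h3)⟩
      have hle' := Nat.le_of_ble_eq_true hle
      have hg := Nat.le_of_ble_eq_true hgeo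
      have hg' : (d.mu : ℝ) * ((P.w : ℝ) - ua) * P.w * P.Di ≤ 1000000 * (P.Ai * ua ^ 2 + P.Bi * P.w ^ 2) := by
        have : (((d.mu * (P.w - ua) * P.w * P.Di : ℕ)) : ℝ) ≤ ((1000000 * (P.Ai * ua ^ 2 + P.Bi * P.w ^ 2) : ℕ) : ℝ) := by
          exact_mod_cast hg
        push_cast [Nat.cast_sub hle'] at this
        exact this
      rw [abs_of_neg (by linarith)]
      -- μ (1 - r) ≤ μ (1 - ra) ≤ A ra² + B ≤ A r² + B
      set ra : ℝ := (ua : ℝ) / P.w with hra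
      have hra0 : 0 ≤ ra := by positivity
      have e1 : (d.mu : ℝ) / 1000000 * (1 - ra) ≤ (P.Ai : ℝ) / P.Di * ra ^ 2 + (P.Bi : ℝ) / P.Di := by
        have e2 : (d.mu : ℝ) / 1000000 * (1 - ra) = ((d.mu : ℝ) * ((P.w : ℝ) - ua) * P.w * P.Di) / (1000000 * P.w ^ 2 * P.Di) := by
          rw [hra]; field_simp
        have e3 : (P.Ai : ℝ) / P.Di * ra ^ 2 + (P.Bi : ℝ) / P.Di = (1000000 * (P.Ai * ua ^ 2 + P.Bi * P.w ^ 2)) / (1000000 * P.w ^ 2 * P.Di) := by
          rw [hra]; field_simp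
        rw [e2, e3]
        gcongr
      have e4 : nodeR P d * -(r - 1) ≤ (d.mu : ℝ) / 1000000 * (1 - ra) := by
        have : -(r - 1) ≤ 1 - ra := by linarith
        exact mul_le_mul hm1 this (by linarith) (by positivity)
      have e5 : (P.Ai : ℝ) / P.Di * ra ^ 2 ≤ (P.Ai : ℝ) / P.Di * r ^ 2 := by gcongr
      linarith
    · exact ih d.ub hrec r h3.le h2

theorem stR_sound {F : ℕ → ℝ → ℝ} {c : ℝ} {Lmax : ℕ} {L : List (List ℕ)} {q : List (List ℤ)} {P : Par}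
    (H : ParOK F c Lmax L q P) (ds : List St) : ∀ ua, stR P (L.map (H81.L2.packL P.B)) q ua ds = true →
    ∀ r : ℝ, (ua : ℝ) / P.w ≤ r → 1 < r → Good F q P r := by
  have hwR : (0:ℝ) < P.w := by exact_mod_cast H.hw
  have hDR : (0:ℝ) < P.Di := by exact_mod_cast H.hD
  have hAR : (0:ℝ) < P.Ai := by exact_mod_cast H.hA
  have hBR : (0:ℝ) < P.Bi := by exact_mod_cast H.hBi
  induction ds with
  | nil => intro ua h; simp [stR] at h
  | cons d ds ih =>
    intro ua h r h1 h2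
    simp only [stR, Bool.and_eq_true] at h
    obtain ⟨⟨hmu, hb⟩, ⟨ha, hle, hga⟩, hlast⟩ := h
    obtain ⟨hm1, hm2⟩ := okMu_spec hmu (okB_s hb)
    have hr0 : 0 ≤ r := by linarith
    have hle' := Nat.le_of_ble_eq_true hle
    have hg := Nat.le_of_ble_eq_true hga
    set ra : ℝ := (ua : ℝ) / P.w with hra
    have hra0 : 0 ≤ ra := by positivity
    have hra1 : 1 ≤ ra := by rw [hra, le_div_iff₀ hwR, one_mul]; exact_mod_cast hle'
    set m : ℝ := (d.mu : ℝ) / 1000000 with hm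
    have hm0 : 0 ≤ m := by positivity
    set A : ℝ := (P.Ai : ℝ) / P.Di with hA
    set B : ℝ := (P.Bi : ℝ) / P.Di with hB
    have hA0 : 0 < A := by positivity
    have e1 : m * (ra - 1) ≤ A * ra ^ 2 + B := by
      have hg' : (d.mu : ℝ) * ((ua : ℝ) - P.w) * P.w * P.Di ≤ 1000000 * (P.Ai * ua ^ 2 + P.Bi * P.w ^ 2) := by
        have : (((d.mu * (ua - P.w) * P.w * P.Di : ℕ)) : ℝ) ≤ ((1000000 * (P.Ai * ua ^ 2 + P.Bi * P.w ^ 2) : ℕ) : ℝ) := by
          exact_mod_cast hg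
        push_cast [Nat.cast_sub hle'] at this
        exact this
      have e2 : m * (ra - 1) = ((d.mu : ℝ) * ((ua : ℝ) - P.w) * P.w * P.Di) / (1000000 * P.w ^ 2 * P.Di) := by
        rw [hra, hm]; field_simp
      have e3 : A * ra ^ 2 + B = (1000000 * (P.Ai * ua ^ 2 + P.Bi * P.w ^ 2)) / (1000000 * P.w ^ 2 * P.Di) := by
        rw [hra, hA, hB]; field_simp
      rw [e2, e3]
      gcongr
    have hfin : ∀ (hgeo : m * (r - 1) ≤ A * r ^ 2 + B) (hxb : P.y * (A * r ^ 2 / (A * r ^ 2 + B)) ≤ d.xb), Good F q P r := by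
      intro hgeo hxb
      refine ⟨nodeR P d, hm2, ?_, okB_spec H.fam H.tab H.hB H.hLB H.hL H.hlam H.hy H.wf H.hq hb
        (okA_spec H.hw H.hA H.hBi H.hD ha h1) hxb⟩
      rw [abs_of_pos (by linarith)]
      have : nodeR P d * (r - 1) ≤ m * (r - 1) := mul_le_mul_of_nonneg_right hm1 (by linarith)
      linarith
    by_cases hub : d.ub = 0
    · rw [if_pos hub] at hlast
      simp only [Bool.and_eq_true] at hlast
      have hy' := Nat.le_of_ble_eq_true hlast.1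
      have hdv := Nat.le_of_ble_eq_true hlast.2
      apply hfin
      · -- f(r) = A r² - m r + B + m, f(ra) ≥ 0, f' ≥ 0
        have hdv' : (d.mu : ℝ) * P.Di * P.w ≤ 2 * 1000000 * P.Ai * ua := by exact_mod_cast hdv
        have e4 : m ≤ 2 * A * ra := by
          have e5 : m = ((d.mu : ℝ) * P.Di * P.w) / (1000000 * P.Di * P.w) := by rw [hm]; field_simp
          have e6 : 2 * A * ra = (2 * 1000000 * P.Ai * ua) / (1000000 * P.Di * P.w) := by rw [hA, hra]; field_simp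
          rw [e5, e6]
          gcongr
        nlinarith [mul_nonneg (sub_nonneg.2 h1) (sub_nonneg.2 e4), mul_nonneg hA0.le (sq_nonneg (r - ra))]
      · have h7 : A * r ^ 2 / (A * r ^ 2 + B) ≤ 1 := by
          rw [div_le_one (by positivity)]
          have : 0 < B := by positivity
          linarith
        have h8 : (P.y : ℝ) ≤ d.xb := by exact_mod_cast hy'
        have h9 : (0:ℝ) ≤ P.y := Nat.cast_nonneg _
        nlinarith
    · rw [if_neg hub] at hlast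
      simp only [Bool.and_eq_true] at hlast
      obtain ⟨⟨hr, hlt, hgb, hgc⟩, hrec⟩ := hlast
      rcases le_or_gt r ((d.ub : ℝ) / P.w) with h3 | h3
      · apply hfin
        · set rb : ℝ := (d.ub : ℝ) / P.w with hrb
          have hlt' := Nat.le_of_ble_eq_true hlt
          have hgb' := Nat.le_of_ble_eq_true hgb
          have hgc' := Nat.le_of_ble_eq_true hgc
          have hwub : P.w ≤ d.ub := hle'.trans hlt'
          have f2 : m * (rb - 1) ≤ A * rb ^ 2 + B := by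
            have hg' : (d.mu : ℝ) * ((d.ub : ℝ) - P.w) * P.w * P.Di ≤ 1000000 * (P.Ai * d.ub ^ 2 + P.Bi * P.w ^ 2) := by
              have : (((d.mu * (d.ub - P.w) * P.w * P.Di : ℕ)) : ℝ) ≤ ((1000000 * (P.Ai * d.ub ^ 2 + P.Bi * P.w ^ 2) : ℕ) : ℝ) := by
                exact_mod_cast hgb'
              push_cast [Nat.cast_sub hwub] at this
              exact this
            have e2 : m * (rb - 1) = ((d.mu : ℝ) * ((d.ub : ℝ) - P.w) * P.w * P.Di) / (1000000 * P.w ^ 2 * P.Di) := by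
              rw [hrb, hm]; field_simp
            have e3 : A * rb ^ 2 + B = (1000000 * (P.Ai * d.ub ^ 2 + P.Bi * P.w ^ 2)) / (1000000 * P.w ^ 2 * P.Di) := by
              rw [hrb, hA, hB]; field_simp
            rw [e2, e3]
            gcongr
          have f3 : m * (ra + rb - 2) ≤ 2 * (A * ra * rb + B) := by
            have hsub : 2 * P.w ≤ ua + d.ub := by omega
            have hg' : (P.Di : ℝ) * d.mu * ((ua : ℝ) + d.ub - 2 * P.w) * P.w ≤ 2 * 1000000 * (P.Ai * ua * d.ub + P.Bi * P.w ^ 2) := by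
              have : (((P.Di * d.mu * (ua + d.ub - 2 * P.w) * P.w : ℕ)) : ℝ) ≤ ((2 * 1000000 * (P.Ai * ua * d.ub + P.Bi * P.w ^ 2) : ℕ) : ℝ) := by
                exact_mod_cast hgc'
              push_cast [Nat.cast_sub hsub] at this
              linarith [this]
            have e2 : m * (ra + rb - 2) = ((P.Di : ℝ) * d.mu * ((ua : ℝ) + d.ub - 2 * P.w) * P.w) / (1000000 * P.w ^ 2 * P.Di) := by
              rw [hra, hrb, hm]; field_simp
            have e3 : 2 * (A * ra * rb + B) = (2 * 1000000 * (P.Ai * ua * d.ub + P.Bi * P.w ^ 2)) / (1000000 * P.w ^ 2 * P.Di) := by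
              rw [hra, hrb, hA, hB]; field_simp
            rw [e2, e3]
            gcongr
          -- convex combination
          rcases eq_or_lt_of_le (h1.trans h3) with hEq | hLt
          · have : r = rb := le_antisymm h3 (hEq ▸ h1)
            rw [this]; exact f2
          · set θ : ℝ := (r - ra) / (rb - ra) with hθ
            have hden : 0 < rb - ra := by linarith
            have hθ0 : 0 ≤ θ := div_nonneg (by linarith) hden.le
            have hθ1 : θ ≤ 1 := (div_le_one hden).2 (by linarith)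
            have hr' : r = (1 - θ) * ra + θ * rb := by rw [hθ]; field_simp; ring
            have g1 : 0 ≤ (1 - θ) ^ 2 * (A * ra ^ 2 + B - m * (ra - 1)) := mul_nonneg (sq_nonneg _) (by linarith)
            have g2 : 0 ≤ θ ^ 2 * (A * rb ^ 2 + B - m * (rb - 1)) := mul_nonneg (sq_nonneg _) (by linarith)
            have g3 : 0 ≤ θ * (1 - θ) * (2 * (A * ra * rb + B) - m * (ra + rb - 2)) :=
              mul_nonneg (mul_nonneg hθ0 (by linarith)) (by linarith)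
            have g4 : A * r ^ 2 + B - m * (r - 1) = (1 - θ) ^ 2 * (A * ra ^ 2 + B - m * (ra - 1)) +
                θ ^ 2 * (A * rb ^ 2 + B - m * (rb - 1)) +
                θ * (1 - θ) * (2 * (A * ra * rb + B) - m * (ra + rb - 2)) := by
              rw [hr']; ring
            linarith
        · exact okR_spec H.hw H.hA H.hBi H.hD hr hr0 h3
      · exact ih d.ub hrec r h3.le h2

/-- (P) from the two staircases -/
theorem prim_sound {F : ℕ → ℝ → ℝ} {c : ℝ} {Lmax : ℕ} {L : List (List ℕ)} {q : List (List ℤ)} {P : Par}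
    (H : ParOK F c Lmax L q P) {dl dr : List St} (hl : stL P (L.map (H81.L2.packL P.B)) q 0 dl = true)
    (hr : stR P (L.map (H81.L2.packL P.B)) q P.w dr = true) {r : ℝ} (hr0 : 0 ≤ r) (hr1 : r ≠ 1) :
    Good F q P r := by
  have hwR : (0:ℝ) < P.w := by exact_mod_cast H.hw
  rcases lt_or_gt_of_ne hr1 with h | h
  · exact stL_sound H dl 0 hl r (by simpa using hr0) h
  · exact stR_sound H dr P.w hr r (by rw [div_self hwR.ne']; exact h.le) h

end Pool.Agent.H25.SD
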