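import Pool.Agent.H25.SD.Fast

/-!
# The staircases in pieces (H25/SD)

The kernel checks of `primF` are cut into pieces, so that each of them needs little memory.
-/

namespace Pool.Agent.H25.SD

open H81.L2

/-- a part of the staircase for `r ≤ 1`, from `ua` to `ue` -/
def segL (P : Par) (qs : List ℕ) (q : List (List ℤ)) (ue : ℕ) : ℕ → List St → Bool
  | ua, [] => Nat.beq ua ue
  | ua, d :: ds =>
    (okMu P d && okBf P qs q d) && ((okA P ua d && okR P d) &&
      ((Nat.ble ua P.w && Nat.ble (d.mu * (P.w - ua) * P.w * P.Di) (1000000 * (P.Ai * ua ^ 2 + P.Bi * P.w ^ 2))) &&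
        segL P qs q ue d.ub ds))

/-- a part of the staircase for `r ≥ 1`, from `ua` to `ue`, without the last stair -/
def segR (P : Par) (qs : List ℕ) (q : List (List ℤ)) (ue : ℕ) : ℕ → List St → Bool
  | ua, [] => Nat.beq ua ue
  | ua, d :: ds =>
    (okMu P d && okBf P qs q d) && ((okA P ua d &&
      (Nat.ble P.w ua && Nat.ble (d.mu * (ua - P.w) * P.w * P.Di) (1000000 * (P.Ai * ua ^ 2 + P.Bi * P.w ^ 2)))) &&
      (Nat.blt 0 d.ub && ((okR P d && (Nat.ble ua d.ub &&
        (Nat.ble (d.mu * (d.ub - P.w) * P.w * P.Di) (1000000 * (P.Ai * d.ub ^ 2 + P.Bi * P.w ^ 2)) &&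
         Nat.ble (P.Di * d.mu * (ua + d.ub - 2 * P.w) * P.w) (2 * 1000000 * (P.Ai * ua * d.ub + P.Bi * P.w ^ 2))))) &&
        segR P qs q ue d.ub ds)))

theorem stLf_seg (P : Par) (qs : List ℕ) (q : List (List ℤ)) (ds : List St) :
    ∀ ua, stLf P qs q ua ds = segL P qs q P.w ua ds := by
  induction ds with
  | nil => intro ua; rfl
  | cons d ds ih => intro ua; simp only [stLf, segL, ih]

theorem segL_append {P : Par} {qs : List ℕ} {q : List (List ℤ)} {um ue : ℕ} {e : List St}
    (he : segL P qs q ue um e = true) (ds : List St) :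
    ∀ ua, segL P qs q um ua ds = true → segL P qs q ue ua (ds ++ e) = true := by
  induction ds with
  | nil =>
    intro ua h
    have h' : ua = um := Nat.eq_of_beq_eq_true h
    subst h'
    simpa using he
  | cons d ds ih =>
    intro ua h
    simp only [segL, Bool.and_eq_true] at h
    simp only [List.cons_append, segL, Bool.and_eq_true]
    exact ⟨h.1, h.2.1, h.2.2.1, ih d.ub h.2.2.2⟩

theorem segR_append {P : Par} {qs : List ℕ} {q : List (List ℤ)} {um ue : ℕ} {e : List St}
    (he : segR P qs q ue um e = true) (ds : List St) :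
    ∀ ua, segR P qs q um ua ds = true → segR P qs q ue ua (ds ++ e) = true := by
  induction ds with
  | nil =>
    intro ua h
    have h' : ua = um := Nat.eq_of_beq_eq_true h
    subst h'
    simpa using he
  | cons d ds ih =>
    intro ua h
    simp only [segR, Bool.and_eq_true] at h
    simp only [List.cons_append, segR, Bool.and_eq_true]
    exact ⟨h.1, h.2.1, h.2.2.1, h.2.2.2.1, ih d.ub h.2.2.2.2⟩

theorem segR_stRf {P : Par} {qs : List ℕ} {q : List (List ℤ)} {um : ℕ} {e : List St}
    (he : stRf P qs q um e = true) (ds : List St) :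
    ∀ ua, segR P qs q um ua ds = true → stRf P qs q ua (ds ++ e) = true := by
  induction ds with
  | nil =>
    intro ua h
    have h' : ua = um := Nat.eq_of_beq_eq_true h
    subst h'
    simpa using he
  | cons d ds ih =>
    intro ua h
    simp only [segR, Bool.and_eq_true, Nat.blt_eq] at h
    simp only [List.cons_append, stRf, Bool.and_eq_true]
    have h0 : ¬ d.ub = 0 := by omega
    refine ⟨h.1, h.2.1, ?_⟩
    rw [if_neg h0]
    simp only [Bool.and_eq_true]
    exact ⟨h.2.2.2.1, ih d.ub h.2.2.2.2⟩

/-- piece for the kernel: stairs `n, …, n + m - 1` of the left staircase -/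
def partL (P : Par) (L : List (List ℕ)) (q : List (List ℤ)) (ua ue n m : ℕ) (ds : List St) : Bool :=
  forceL (L.map (packL P.B)) fun qs => segL P qs q ue ua ((ds.drop n).take m)

/-- piece for the kernel: stairs `n, …, n + m - 1` of the right staircase -/
def partR (P : Par) (L : List (List ℕ)) (q : List (List ℤ)) (ua ue n m : ℕ) (ds : List St) : Bool :=
  forceL (L.map (packL P.B)) fun qs => segR P qs q ue ua ((ds.drop n).take m)

/-- piece for the kernel: the last stairs of the right staircase -/
def lastR (P : Par) (L : List (List ℕ)) (q : List (List ℤ)) (ua n : ℕ) (ds : List St) : Bool :=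
  forceL (L.map (packL P.B)) fun qs => stRf P qs q ua (ds.drop n)

/-- the stairs from `n` on are good, starting at `ua` -/
def TailL (P : Par) (L : List (List ℕ)) (q : List (List ℤ)) (ua n : ℕ) (ds : List St) : Prop :=
  segL P (L.map (packL P.B)) q P.w ua (ds.drop n) = true

/-- the stairs from `n` on are good, starting at `ua` -/
def TailR (P : Par) (L : List (List ℕ)) (q : List (List ℤ)) (ua n : ℕ) (ds : List St) : Prop :=
  stRf P (L.map (packL P.B)) q ua (ds.drop n) = true

theorem TailL.step {P : Par} {L : List (List ℕ)} {q : List (List ℤ)} {ua ue n m : ℕ} {ds : List St}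
    (h : partL P L q ua ue n m ds = true) (ht : TailL P L q ue (n + m) ds) : TailL P L q ua n ds := by
  unfold partL at h
  rw [forceL_eq] at h
  have h1 := segL_append (e := ds.drop (n + m)) ht _ ua h
  unfold TailL
  rw [← List.drop_drop, List.take_append_drop] at h1
  exact h1

theorem TailL.last {P : Par} {L : List (List ℕ)} {q : List (List ℤ)} {ua n m : ℕ} {ds : List St}
    (h : partL P L q ua P.w n m ds = true) (hl : ds.length ≤ n + m) : TailL P L q ua n ds := by
  refine TailL.step h ?_
  unfold TailL
  rw [List.drop_eq_nil_of_le hl]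
  show Nat.beq P.w P.w = true
  exact Nat.beq_refl _

theorem TailR.last {P : Par} {L : List (List ℕ)} {q : List (List ℤ)} {ua n : ℕ} {ds : List St}
    (h : lastR P L q ua n ds = true) : TailR P L q ua n ds := by
  unfold lastR at h
  rw [forceL_eq] at h
  exact h

theorem TailR.step {P : Par} {L : List (List ℕ)} {q : List (List ℤ)} {ua ue n m : ℕ} {ds : List St}
    (h : partR P L q ua ue n m ds = true) (ht : TailR P L q ue (n + m) ds) : TailR P L q ua n ds := by
  unfold partR at h
  rw [forceL_eq] at h
  have h1 := segR_stRf (e := ds.drop (n + m)) ht _ ua h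
  unfold TailR
  rw [← List.drop_drop, List.take_append_drop] at h1
  exact h1

theorem primF_of {P : Par} {L : List (List ℕ)} {q : List (List ℤ)} {dl dr : List St}
    (h1 : TailL P L q 0 0 dl) (h2 : TailR P L q P.w 0 dr) : primF P L q dl dr = true := by
  unfold primF
  rw [forceL_eq, stLf_seg, Bool.and_eq_true]
  exact ⟨h1, h2⟩

end Pool.Agent.H25.SD
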