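import Pool.Agent.H25.SD.Fast

/-!
# The check of (D) in pieces (H25/SD)
-/

namespace Pool.Agent.H25.SD

open H81.L2

/-- one piece `[x, x']` of the check of (D) -/
def oneD (P : Par) (n u Lmax ones : ℕ) (qm qr1 c0 cW : List ℕ) (BT : List (List (List ℤ))) (N : List ℤ)
    (q : List (List ℤ)) (x x' : ℕ) : Bool :=
  Nat.blt x x' && forceZZ (piece P.K q x x' P.y) fun A => lenle (P.K + 1) A &&
      (List.range (P.K + 1)).all fun al => forceZ (bvec A al) fun b =>
        chkBetaF P n u Lmax ones qm qr1 c0 cW BT N b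

/-- one piece for the kernel, all evaluations forced -/
def partD (P : Par) (n u Lmax : ℕ) (L : List (List ℕ)) (q : List (List ℤ)) (x x' : ℕ) : Bool :=
  forceL (L.map (packL P.B)) fun qs =>
  forceL (qs.map fun q => Nat.div q P.B) fun qm =>
  forceL ((qs.map fun q => Nat.mod q (Nat.pow P.B P.W)).drop (P.I + 1)) fun qr1 =>
  forceL (colQ P.B 0 qs) fun c0 => forceL (colQ P.B P.W qs) fun cW =>
  force1 ((P.B ^ P.W - 1) / (P.B - 1)) fun ones =>
  forceZZZ (bT ((21 : ℕ) : ℤ) P.I P.K) fun BT =>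
  forceZ (lpow [((21 : ℕ) : ℤ), ((21 : ℕ) : ℤ)] (P.K + P.I)) fun N =>
    oneD P n u Lmax ones qm qr1 c0 cW BT N q x x'

/-- the pieces from `x` on are good -/
def TailD (P : Par) (n u Lmax : ℕ) (L : List (List ℕ)) (q : List (List ℤ)) (x : ℕ) (xs : List ℕ) : Prop :=
  chkDf P n u Lmax ((P.B ^ P.W - 1) / (P.B - 1)) ((L.map (packL P.B)).map fun q => Nat.div q P.B)
    (((L.map (packL P.B)).map fun q => Nat.mod q (Nat.pow P.B P.W)).drop (P.I + 1))
    (colQ P.B 0 (L.map (packL P.B))) (colQ P.B P.W (L.map (packL P.B)))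
    (bT ((21 : ℕ) : ℤ) P.I P.K) (lpow [((21 : ℕ) : ℤ), ((21 : ℕ) : ℤ)] (P.K + P.I)) q x xs = true

theorem TailD.nil (P : Par) (n u Lmax : ℕ) (L : List (List ℕ)) (q : List (List ℤ)) :
    TailD P n u Lmax L q P.y [] := by
  unfold TailD
  show Nat.beq P.y P.y = true
  exact Nat.beq_refl _

theorem TailD.cons {P : Par} {n u Lmax : ℕ} {L : List (List ℕ)} {q : List (List ℤ)} {x x' : ℕ} {xs : List ℕ}
    (h : partD P n u Lmax L q x x' = true) (ht : TailD P n u Lmax L q x' xs) :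
    TailD P n u Lmax L q x (x' :: xs) := by
  unfold partD at h
  simp only [forceL_eq, force1_eq, forceZZZ_eq] at h
  rw [forceZ_eq] at h
  unfold TailD at ht ⊢
  simp only [chkDf, Bool.and_eq_true]
  refine ⟨?_, ht⟩
  unfold oneD at h
  rw [Bool.and_eq_true] at h
  exact h

theorem dualF_of {P : Par} {n u Lmax : ℕ} {L : List (List ℕ)} {q : List (List ℤ)} {xs : List ℕ}
    (h : TailD P n u Lmax L q 0 xs) : dualF P n u Lmax L q xs = true := by
  unfold dualF
  simp only [forceL_eq, force1_eq, forceZZZ_eq]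
  rw [forceZ_eq]
  exact h

end Pool.Agent.H25.SD
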