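import Pool.Agent.H25.SD.Chk

/-!
# Soundness of the window check (H25/SD)
-/

namespace Pool.Agent.H25.SD

open Finset H81.L2

theorem lin_eq_sum (F : ℕ → ℝ → ℝ) (p : ℝ) (l : List ℤ) : ∀ k,
    lin F k l p = ∑ j ∈ range l.length, (l.getD j 0 : ℝ) * F (k + j) p := by
  induction l with
  | nil => intro k; simp [lin]
  | cons a l ih =>
    intro k
    rw [List.length_cons, Finset.sum_range_succ']
    simp only [lin, ih, List.getD_cons_succ, List.getD_cons_zero, add_zero]
    rw [add_comm]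
    congr 1
    refine Finset.sum_congr rfl fun j _ => ?_
    congr 2
    ring

theorem lin_wls (F : ℕ → ℝ → ℝ) (P : ℝ) (T : ℤ) (I M : ℕ) (β : List ℤ) (b : ℕ) :
    lin F 0 (colZ (wls T I M β) b) P =
      ∑ r ∈ range (M + 1), F r P * ((wl T I M β 0 r).getD b 0 : ℝ) := by
  rw [lin_eq_sum]
  have h1 : (colZ (wls T I M β) b).length = M + 1 := by simp [colZ, wls]
  rw [h1]
  refine Finset.sum_congr rfl fun r hr => ?_
  have hr' : r < M + 1 := Finset.mem_range.1 hr
  have h2 : (colZ (wls T I M β) b).getD r 0 = (wl T I M β 0 r).getD b 0 := by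
    rw [List.getD_eq_getElem _ _ (by rw [h1]; exact hr')]
    simp [colZ, wls]
  rw [h2, zero_add]
  ring

theorem sP_negp_dN (β : List ℤ) : ∀ m : List ℕ, dN (β.map negp) m = 0 := by
  induction β with
  | nil => intro m; simp [dN]
  | cons a β ih =>
    intro m
    cases m with
    | nil => simp [dN]
    | cons b m =>
      simp only [List.map_cons, dN, ih]
      have : (-(negp a)).toNat = 0 := by unfold negp; omega
      rw [this]; simp

/-- soundness of `chk1` -/
theorem chk1_sound {F : ℕ → ℝ → ℝ} {c p0 : ℝ} {Er Lmax : ℕ} {L : List (List ℕ)} {W : ℕ}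
    (hT : Tab F c p0 Er Lmax L W) {B e : ℕ} (hB : B = 2 ^ e) (he : 1 ≤ e) {qm qr : List ℕ} {d : ℕ}
    (hqm : qm = L.map (fun l => ∑ i ∈ range W, l.getD (i + 1) 0 * B ^ i))
    (hqr : qr = (L.drop d).map (fun l => ∑ i ∈ range W, l.getD i 0 * B ^ i))
    {col βn : List ℤ} (hcol : col.length ≤ L.length) (hβn : d + βn.length ≤ L.length)
    (hdN : ∀ m, dN βn m = 0)
    {c1 c2 : ℕ} (h : chk1 B W (∑ i ∈ range W, B ^ i) Er Lmax c1 c2 qm qr col βn = true) :
    ∀ i < W, (c2 : ℝ) * lin F d βn (p0 * (21 / 20) ^ i) <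
      (c1 : ℝ) * lin F 0 col (p0 * (21 / 20) ^ (i + 1)) := by
  unfold chk1 at h
  rw [Bool.and_eq_true, Bool.and_eq_true] at h
  obtain ⟨h1, h2, h3⟩ := h
  have h1' := Nat.le_of_ble_eq_true h1
  have h2' : c1 * (sP col * Lmax) < B := by rwa [Nat.blt_eq] at h2
  rw [dN_packed B W L qm (fun i => i + 1) hqm col, dP_packed B W L qm (fun i => i + 1) hqm col,
    dP_packed B W (L.drop d) qr (fun i => i) hqr βn] at h3
  have hcolD : ∀ i, i ≤ W → ∀ x ∈ colD L i, x ≤ Lmax := by
    intro i hi x hx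
    simp only [colD, List.mem_map] at hx
    obtain ⟨l, hl, rfl⟩ := hx
    obtain ⟨r, hr, rfl⟩ := List.getElem_of_mem hl
    have := hT.mx r hr i hi
    rwa [List.getD_eq_getElem _ _ hr] at this
  have hcolD' : ∀ i, i ≤ W → ∀ x ∈ colD (L.drop d) i, x ≤ Lmax := by
    intro i hi x hx
    apply hcolD i hi x
    simp only [colD, List.mem_map] at hx ⊢
    obtain ⟨l, hl, rfl⟩ := hx
    exact ⟨l, List.mem_of_mem_drop hl, rfl⟩
  have key := wk_ltK hB he (k := W)
    (x := fun i => c1 * dN col (colD L (i + 1)) + c1 * (Er * sN col) +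
      (c2 * dP βn (colD (L.drop d) i) + c2 * (Er * sP βn)))
    (y := fun i => c1 * dP col (colD L (i + 1))) ?_ ?_ ?_ ?_ h3
  · intro i hi
    have hk := key i hi
    -- real bounds
    have hc := hT.cpos
    obtain ⟨b1, _⟩ := dot_bounds F c (p0 * (21 / 20) ^ (i + 1)) Er hc col (colD L (i + 1)) 0
      (by simpa [colD] using hcol) (by
        intro j hj
        have hj' : j < L.length := by simpa [colD] using hj
        have e1 : (colD L (i + 1)).getD j 0 = (L.getD j []).getD (i + 1) 0 := by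
          rw [List.getD_eq_getElem _ _ hj, List.getD_eq_getElem _ _ hj']
          simp [colD]
        rw [e1, zero_add]
        exact ⟨hT.lo j hj' (i + 1) (by omega), hT.up j hj' (i + 1) (by omega)⟩)
    obtain ⟨_, b2⟩ := dot_bounds F c (p0 * (21 / 20) ^ i) Er hc βn (colD (L.drop d) i) d
      (by simp [colD]; omega) (by
        intro j hj
        have hj' : j < (L.drop d).length := by simpa [colD] using hj
        have hj2 : d + j < L.length := by simp at hj'; omega
        have e1 : (colD (L.drop d) i).getD j 0 = (L.getD (d + j) []).getD i 0 := by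
          rw [List.getD_eq_getElem _ _ hj, List.getD_eq_getElem _ _ hj2]
          simp [colD]
        rw [e1]
        exact ⟨hT.lo _ hj2 i (by omega), hT.up _ hj2 i (by omega)⟩)
    rw [hdN] at b2
    have hkR : ((c1 * dN col (colD L (i + 1)) + c1 * (Er * sN col) +
      (c2 * dP βn (colD (L.drop d) i) + c2 * (Er * sP βn)) : ℕ) : ℝ) <
      ((c1 * dP col (colD L (i + 1)) : ℕ) : ℝ) := by exact_mod_cast hk
    push_cast at hkR b2
    have hc1 : (0:ℝ) ≤ c1 := Nat.cast_nonneg _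
    have hc2 : (0:ℝ) ≤ c2 := Nat.cast_nonneg _
    have u1 := mul_le_mul_of_nonneg_left b1 hc1
    have u2 := mul_le_mul_of_nonneg_left b2 hc2
    have u3 : c * ((c2 : ℝ) * lin F d βn (p0 * (21 / 20) ^ i)) <
        c * ((c1 : ℝ) * lin F 0 col (p0 * (21 / 20) ^ (i + 1))) := by nlinarith
    exact lt_of_mul_lt_mul_left u3 hc.le
  · simp only [add_mul, Finset.sum_add_distrib, Finset.mul_sum, mul_assoc]
  · simp only [Finset.mul_sum, mul_assoc]
  · intro i hi
    have w1 := dN_le col (colD L (i + 1)) Lmax (hcolD (i + 1) (by omega))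
    have w2 := dP_le βn (colD (L.drop d) i) Lmax (hcolD' i (by omega))
    have w3 := Nat.mul_le_mul_left c1 w1
    have w4 := Nat.mul_le_mul_left c2 w2
    omega
  · intro i hi
    have w1 := dP_le col (colD L (i + 1)) Lmax (hcolD (i + 1) (by omega))
    have w3 := Nat.mul_le_mul_left c1 w1
    omega

theorem chkB_sound {B W T I K Er Lmax ones : ℕ} {qm qr : List ℕ} {β : List ℤ} {A : List (List ℤ)}
    (Ns : List ℤ) : ∀ b, chkB B W T I K Er Lmax ones qm qr β b Ns A = true →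
    ∀ j < Ns.length, 0 ≤ Ns.getD j 0 ∧
      chk1 B W ones Er Lmax ((I + 1) * T ^ (I + 1)) (2 * (Ns.getD j 0).toNat) qm qr (colZ A (b + j))
        (β.map negp) = true := by
  induction Ns with
  | nil => intro b _ j hj; simp at hj
  | cons N Ns ih =>
    intro b h j hj
    simp only [chkB, Bool.and_eq_true, decide_eq_true_eq] at h
    cases j with
    | zero => simpa using h.1
    | succ j =>
      have := ih (b + 1) h.2 j (by simpa using hj)
      simp only [List.getD_cons_succ]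
      have e : b + (j + 1) = b + 1 + j := by ring
      rw [e]
      exact this

/-- soundness on one window -/
theorem chkV_window {F : ℕ → ℝ → ℝ} (hF : Fam F) {c p0 : ℝ} {Er Lmax : ℕ} {L : List (List ℕ)} {W : ℕ}
    (hT : Tab F c p0 Er Lmax L W) {B e : ℕ} (hB : B = 2 ^ e) (he : 1 ≤ e) {I K : ℕ}
    (hL : K + I + 2 ≤ L.length) (hlam : ((21 : ℝ) / 20) ^ (K + I + 1) ≤ 2) {qm qr : List ℕ}
    (hqm : qm = L.map (fun l => ∑ i ∈ range W, l.getD (i + 1) 0 * B ^ i))
    (hqr : qr = L.map (fun l => ∑ i ∈ range W, l.getD i 0 * B ^ i))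
    {β : List ℤ} (h : chkV B W 21 I K Er Lmax (∑ i ∈ range W, B ^ i) qm qr β = true)
    {i : ℕ} (hi : i < W) {p : ℝ} (h1 : p0 * (21 / 20) ^ i < p) (h2 : p ≤ p0 * (21 / 20) ^ (i + 1)) :
    0 < lin F 0 β p := by
  unfold chkV at h
  simp only [Bool.and_eq_true, decide_eq_true_eq, beq_iff_eq] at h
  obtain ⟨hβ, hlen, hN, hB2⟩ := h
  set P : ℝ := p0 * (21 / 20) ^ (i + 1) with hP
  have hP0 : 0 < P := by have := hT.p0pos; positivity
  have hprev : P * (1 - 1 / ((21 : ℕ) : ℝ)) = p0 * (21 / 20) ^ i := by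
    rw [hP, pow_succ]; push_cast; ring
  refine win_real hF (T := 21) (by norm_num) (I := I) (K := K) hP0 hβ ?_ ?_ (le_of_eq hN) ?_
    (by rw [hprev]; exact h1) h2
  · have : (1 : ℝ) / (1 - 1 / ((21 : ℕ) : ℝ)) = 21 / 20 := by norm_num
    rw [this]; exact hlam
  · intro r hr
    have := lenle_spec hlen (wl ((21 : ℕ) : ℤ) I (K + I) β 0 r) (by
      simp only [wls, List.mem_map, List.mem_range]
      exact ⟨r, hr, rfl⟩)
    exact this
  · intro b hb
    rw [hprev]
    have hb' : b < (lpow [((21 : ℕ) : ℤ), ((21:ℕ):ℤ)] (K + I)).length := by rw [hN]; exact hb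
    obtain ⟨hpos, hchk⟩ := chkB_sound _ 0 hB2 b hb'
    rw [zero_add] at hchk
    have hqr' : qr.drop (I + 1) = (L.drop (I + 1)).map (fun l => ∑ i ∈ range W, l.getD i 0 * B ^ i) := by
      rw [hqr, List.map_drop]
    have hs := chk1_sound hT hB he hqm hqr' (d := I + 1) (col := colZ (wls ((21:ℕ):ℤ) I (K + I) β) b)
      (βn := β.map negp) (by simp [colZ, wls]; omega) (by simp; omega) (sP_negp_dN β) hchk i hi
    rw [lin_wls] at hs
    have e1 : (((lpow [((21 : ℕ) : ℤ), ((21:ℕ):ℤ)] (K + I)).getD b 0).toNat : ℝ) =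
        ((lpow [((21 : ℕ) : ℤ), ((21:ℕ):ℤ)] (K + I)).getD b 0 : ℝ) := by
      have := Int.toNat_of_nonneg hpos
      exact_mod_cast congrArg (Int.cast : ℤ → ℝ) this
    have e2 : ((2 * ((lpow [((21 : ℕ) : ℤ), ((21:ℕ):ℤ)] (K + I)).getD b 0).toNat : ℕ) : ℝ) =
        2 * ((lpow [((21 : ℕ) : ℤ), ((21:ℕ):ℤ)] (K + I)).getD b 0 : ℝ) := by
      rw [Nat.cast_mul, e1]
      norm_num
    rw [e2] at hs
    have e3 : (((I + 1) * 21 ^ (I + 1) : ℕ) : ℝ) = ((I:ℝ) + 1) * ((21:ℕ):ℝ) ^ (I + 1) := by push_cast; ring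
    rw [e3] at hs
    linarith [hs]

/-- soundness on the whole range -/
theorem chkV_sound {F : ℕ → ℝ → ℝ} (hF : Fam F) {c p0 : ℝ} {Er Lmax : ℕ} {L : List (List ℕ)} {W : ℕ}
    (hT : Tab F c p0 Er Lmax L W) {B e : ℕ} (hB : B = 2 ^ e) (he : 1 ≤ e) {I K : ℕ}
    (hL : K + I + 2 ≤ L.length) (hlam : ((21 : ℝ) / 20) ^ (K + I + 1) ≤ 2) {qm qr : List ℕ}
    (hqm : qm = L.map (fun l => ∑ i ∈ range W, l.getD (i + 1) 0 * B ^ i))
    (hqr : qr = L.map (fun l => ∑ i ∈ range W, l.getD i 0 * B ^ i))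
    {β : List ℤ} (h : chkV B W 21 I K Er Lmax (∑ i ∈ range W, B ^ i) qm qr β = true)
    {p : ℝ} (h1 : p0 < p) (h2 : p ≤ p0 * (21 / 20) ^ W) : 0 < lin F 0 β p := by
  have hex : ∃ i < W, p0 * (21 / 20) ^ i < p ∧ p ≤ p0 * (21 / 20) ^ (i + 1) := by
    have hmain : ∀ V : ℕ, p ≤ p0 * (21 / 20) ^ V → ∃ i < V, p0 * (21 / 20) ^ i < p ∧
        p ≤ p0 * (21 / 20) ^ (i + 1) := by
      intro V
      induction V with
      | zero => intro h; simp at h; linarith
      | succ V ih =>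
        intro h
        rcases le_or_gt p (p0 * (21 / 20) ^ V) with h3 | h3
        · obtain ⟨i, hi, h4⟩ := ih h3
          exact ⟨i, by omega, h4⟩
        · exact ⟨V, by omega, h3, h⟩
    exact hmain W h2
  obtain ⟨i, hi, h3, h4⟩ := hex
  exact chkV_window hF hT hB he hL hlam hqm hqr h hi h3 h4

end Pool.Agent.H25.SD
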