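import Pool.Agent.H25.SD.Sound

/-!
# The staircase for (P) (H25/SD)

Node values: for `μ = p0 (21/20)^i (1 - s/840)`, `0 ≤ s ≤ 40`, `1 ≤ i ≤ W`, the numbers
`840^(K+I+1) (I+1)! c F k μ`, `k ≤ K`, are between `nlo` and `nup`.
-/

namespace Pool.Agent.H25.SD

open Finset

/-- `∑_(i' ≤ I) ((I+1)!/i'!) s^i' 840^(E-i') m_(k+i')` for `m` the column, from index `j = i'` on -/
def tsum (s E I : ℕ) (m : List ℕ) (k : ℕ) : ℕ :=
  ((List.range (I + 1)).map fun i => ((I + 1).factorial / i.factorial) * s ^ i * 840 ^ (E - i) * m.getD (k + i) 0).sum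

/-- lower bounds of `840^(K+I+1) (I+1)! c F k μ`, `k = 0..K` -/
def nlo (s I K : ℕ) (m : List ℕ) : List ℕ :=
  (List.range (K + 1)).map fun k => (840 - s) ^ k * tsum s (K + I + 1 - k) I m k

/-- upper bounds; `m` column at the node, `m'` column at the previous node -/
def nup (s I K Er : ℕ) (m m' : List ℕ) : List ℕ :=
  (List.range (K + 1)).map fun k => (840 - s) ^ k * (tsum s (K + I + 1 - k) I (m.map (· + Er)) k +
    2 * s ^ (I + 1) * 840 ^ (K + I + 1 - k - (I + 1)) * (m'.getD (k + I + 1) 0 + Er))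

theorem list_range_sum (f : ℕ → ℕ) (n : ℕ) : ((List.range n).map f).sum = ∑ i ∈ range n, f i := by
  induction n with
  | zero => simp
  | succ n ih => rw [List.range_succ, List.map_append, List.sum_append, ih, Finset.sum_range_succ]; simp

theorem tsum_cast (s E I : ℕ) (m : List ℕ) (k : ℕ) (hE : I ≤ E) : (tsum s E I m k : ℝ) =
    840 ^ E * ((I + 1).factorial : ℝ) * ∑ i ∈ range (I + 1), (m.getD (k + i) 0 : ℝ) * ((s : ℝ) / 840) ^ i / (i.factorial : ℝ) := by
  unfold tsum
  rw [list_range_sum, Nat.cast_sum, Finset.mul_sum]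
  refine Finset.sum_congr rfl fun i hi => ?_
  have hi' : i ≤ I := by simpa [Nat.lt_succ_iff] using hi
  have h1 : (((I + 1).factorial / i.factorial : ℕ) : ℝ) = ((I + 1).factorial : ℝ) / (i.factorial : ℝ) := by
    rw [Nat.cast_div (Nat.factorial_dvd_factorial (by omega)) (by positivity)]
  have h2 : (840:ℝ) ^ E = 840 ^ i * 840 ^ (E - i) := by rw [← pow_add]; congr 1; omega
  rw [Nat.cast_mul, Nat.cast_mul, Nat.cast_mul, h1, h2, div_pow]
  push_cast
  field_simp

/-- node values -/
theorem node_bounds {F : ℕ → ℝ → ℝ} (hF : Fam F) {c p0 : ℝ} {Er Lmax : ℕ} {L : List (List ℕ)} {W : ℕ}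
    (hT : Tab F c p0 Er Lmax L W) {I K : ℕ}
    (hL : K + I + 2 ≤ L.length) (hlam : ((21 : ℝ) / 20) ^ (K + I + 1) ≤ 2) {i s : ℕ} (hi : i < W)
    (hs : s ≤ 40) {k : ℕ} (hk : k < K + 1) :
    (((nlo s I K (colD L (i + 1))).getD k 0 : ℕ) : ℝ) ≤
      840 ^ (K + I + 1) * ((I + 1).factorial : ℝ) * c * F k (p0 * (21 / 20) ^ (i + 1) * (1 - s / 840)) ∧
    840 ^ (K + I + 1) * ((I + 1).factorial : ℝ) * c * F k (p0 * (21 / 20) ^ (i + 1) * (1 - s / 840)) ≤
      (((nup s I K Er (colD L (i + 1)) (colD L i)).getD k 0 : ℕ) : ℝ) := by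
  set P : ℝ := p0 * (21 / 20) ^ (i + 1) with hP
  have hP0 : 0 < P := by have := hT.p0pos; positivity
  have hc := hT.cpos
  have hsR : (s : ℝ) ≤ 40 := by exact_mod_cast hs
  have hs0 : (0:ℝ) ≤ s := Nat.cast_nonneg _
  have hprev : P * (1 - 1 / (21:ℝ)) = p0 * (21 / 20) ^ i := by rw [hP, pow_succ]; ring
  obtain ⟨t1, t2⟩ := F_taylor hF I k (P := P) (t := (s:ℝ) / 840) (τ := 1 / 21) hP0 (by positivity)
    (by rw [div_le_div_iff₀ (by norm_num) (by norm_num)]; linarith) (by norm_num)
  rw [hprev] at t2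
  have hcol : ∀ i' ≤ W, ∀ j < L.length, (colD L i').getD j 0 = (L.getD j []).getD i' 0 := by
    intro i' _ j hj
    rw [List.getD_eq_getElem _ _ (by simpa [colD] using hj), List.getD_eq_getElem _ _ hj]
    simp [colD]
  have e0 : (840:ℝ) ^ (K + I + 1) = 840 ^ k * 840 ^ (K + I + 1 - k) := by rw [← pow_add]; congr 1; omega
  have e1 : ((840 - s : ℕ) : ℝ) = 840 * (1 - (s:ℝ) / 840) := by
    rw [Nat.cast_sub (by omega)]; push_cast; ring
  have h1s : 0 ≤ 1 - (s:ℝ) / 840 := by
    have : (s:ℝ) / 840 ≤ 40 / 840 := by gcongr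
    linarith
  constructor
  · have e2 : (nlo s I K (colD L (i + 1))).getD k 0 = (840 - s) ^ k * tsum s (K + I + 1 - k) I (colD L (i + 1)) k := by
      rw [List.getD_eq_getElem _ _ (by simpa [nlo] using hk)]
      simp [nlo]
    rw [e2, Nat.cast_mul, Nat.cast_pow, e1, tsum_cast _ _ _ _ _ (by omega), mul_pow]
    calc (840:ℝ) ^ k * (1 - (s:ℝ) / 840) ^ k * (840 ^ (K + I + 1 - k) * ((I + 1).factorial : ℝ) *
          ∑ i' ∈ range (I + 1), ((colD L (i + 1)).getD (k + i') 0 : ℝ) * ((s:ℝ) / 840) ^ i' / (i'.factorial : ℝ))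
        ≤ (840:ℝ) ^ k * (1 - (s:ℝ) / 840) ^ k * (840 ^ (K + I + 1 - k) * ((I + 1).factorial : ℝ) *
          (c * ∑ i' ∈ range (I + 1), F (k + i') P * ((s:ℝ) / 840) ^ i' / (i'.factorial : ℝ))) := by
          have h3 : ∑ i' ∈ range (I + 1), ((colD L (i + 1)).getD (k + i') 0 : ℝ) * ((s:ℝ) / 840) ^ i' / (i'.factorial : ℝ) ≤
              c * ∑ i' ∈ range (I + 1), F (k + i') P * ((s:ℝ) / 840) ^ i' / (i'.factorial : ℝ) := by
            rw [Finset.mul_sum]
            refine Finset.sum_le_sum fun i' hi' => ?_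
            have hi2 : k + i' < L.length := by
              have := Finset.mem_range.1 hi'
              omega
            rw [hcol (i + 1) (by omega) _ hi2]
            have := hT.lo (k + i') hi2 (i + 1) (by omega)
            rw [← mul_div_assoc, ← mul_assoc]
            gcongr
          gcongr
      _ = 840 ^ (K + I + 1) * ((I + 1).factorial : ℝ) * c * ((1 - (s:ℝ) / 840) ^ k *
          ∑ i' ∈ range (I + 1), F (k + i') P * ((s:ℝ) / 840) ^ i' / (i'.factorial : ℝ)) := by
          rw [e0]; ring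
      _ ≤ _ := by gcongr
  · have e2 : (nup s I K Er (colD L (i + 1)) (colD L i)).getD k 0 = (840 - s) ^ k *
        (tsum s (K + I + 1 - k) I ((colD L (i + 1)).map (· + Er)) k +
        2 * s ^ (I + 1) * 840 ^ (K + I + 1 - k - (I + 1)) * ((colD L i).getD (k + I + 1) 0 + Er)) := by
      rw [List.getD_eq_getElem _ _ (by simpa [nup] using hk)]
      simp [nup]
    have hk2 : k + I + 1 < L.length := by omega
    have hrem : c * F (k + I + 1) (p0 * (21 / 20) ^ i) ≤ ((colD L i).getD (k + I + 1) 0 : ℝ) + Er := by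
      rw [hcol i (by omega) _ hk2]
      exact hT.up _ hk2 i (by omega)
    rw [e2, Nat.cast_mul, Nat.cast_pow, e1, Nat.cast_add, tsum_cast _ _ _ _ _ (by omega), mul_pow]
    have h4 : c * ∑ i' ∈ range (I + 1), F (k + i') P * ((s:ℝ) / 840) ^ i' / (i'.factorial : ℝ) ≤
        ∑ i' ∈ range (I + 1), (((colD L (i + 1)).map (· + Er)).getD (k + i') 0 : ℝ) * ((s:ℝ) / 840) ^ i' / (i'.factorial : ℝ) := by
      rw [Finset.mul_sum]
      refine Finset.sum_le_sum fun i' hi' => ?_
      have hi2 : k + i' < L.length := by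
        have := Finset.mem_range.1 hi'
        omega
      have e3 : ((colD L (i + 1)).map (· + Er)).getD (k + i') 0 = (L.getD (k + i') []).getD (i + 1) 0 + Er := by
        rw [List.getD_eq_getElem _ _ (by simpa [colD] using hi2), List.getD_eq_getElem _ _ hi2]
        simp [colD]
      rw [e3]
      have := hT.up (k + i') hi2 (i + 1) (by omega)
      rw [← mul_div_assoc, ← mul_assoc]
      push_cast
      gcongr
    have hpow : (1 / (1 - 1 / (21:ℝ))) ^ (k + I + 1) ≤ 2 := by
      have : (1:ℝ) / (1 - 1 / 21) = 21 / 20 := by norm_num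
      rw [this]
      exact (pow_le_pow_right₀ (by norm_num) (by omega)).trans hlam
    have hFp : 0 < F (k + I + 1) (p0 * (21 / 20) ^ i) := hF.pos _ _ (by have := hT.p0pos; positivity)
    have hf : (0:ℝ) < ((I + 1).factorial : ℝ) := by positivity
    have h5 : 840 ^ (K + I + 1 - k) * ((I + 1).factorial : ℝ) * (c * (F (k + I + 1) (p0 * (21 / 20) ^ i) *
        (1 / (1 - 1 / 21)) ^ (k + I + 1) * ((s:ℝ) / 840) ^ (I + 1) / ((I + 1).factorial : ℝ))) ≤
        ((2 * s ^ (I + 1) * 840 ^ (K + I + 1 - k - (I + 1)) * ((colD L i).getD (k + I + 1) 0 + Er) : ℕ) : ℝ) := by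
      have e5 : (840:ℝ) ^ (K + I + 1 - k) = 840 ^ (K + I + 1 - k - (I + 1)) * 840 ^ (I + 1) := by
        rw [← pow_add]; congr 1; omega
      have e7 : (840:ℝ) ^ (I + 1) * ((s:ℝ) / 840) ^ (I + 1) = (s:ℝ) ^ (I + 1) := by
        rw [← mul_pow]; congr 1; field_simp
      calc 840 ^ (K + I + 1 - k) * ((I + 1).factorial : ℝ) * (c * (F (k + I + 1) (p0 * (21 / 20) ^ i) *
          (1 / (1 - 1 / 21)) ^ (k + I + 1) * ((s:ℝ) / 840) ^ (I + 1) / ((I + 1).factorial : ℝ)))
          = 840 ^ (K + I + 1 - k - (I + 1)) * (s:ℝ) ^ (I + 1) * (1 / (1 - 1 / 21)) ^ (k + I + 1) *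
            (c * F (k + I + 1) (p0 * (21 / 20) ^ i)) := by
            rw [e5, ← e7]
            generalize F (k + I + 1) (p0 * (21 / 20) ^ i) = Q
            generalize ((1:ℝ) / (1 - 1 / 21)) ^ (k + I + 1) = Q2
            field_simp
        _ ≤ 840 ^ (K + I + 1 - k - (I + 1)) * (s:ℝ) ^ (I + 1) * 2 *
            (((colD L i).getD (k + I + 1) 0 : ℝ) + Er) := by
            have : 0 ≤ c * F (k + I + 1) (p0 * (21 / 20) ^ i) := by positivity
            gcongr
        _ = _ := by push_cast; ring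
    have hq : 0 ≤ (1 - (s:ℝ) / 840) ^ k := pow_nonneg h1s _
    calc 840 ^ (K + I + 1) * ((I + 1).factorial : ℝ) * c * F k (P * (1 - (s:ℝ) / 840))
        ≤ 840 ^ (K + I + 1) * ((I + 1).factorial : ℝ) * c * ((1 - (s:ℝ) / 840) ^ k *
          (∑ i' ∈ range (I + 1), F (k + i') P * ((s:ℝ) / 840) ^ i' / (i'.factorial : ℝ) +
          F (k + I + 1) (p0 * (21 / 20) ^ i) * (1 / (1 - 1 / 21)) ^ (k + I + 1) * ((s:ℝ) / 840) ^ (I + 1) /
          ((I + 1).factorial : ℝ))) := by gcongr
      _ = 840 ^ k * (1 - (s:ℝ) / 840) ^ k * (840 ^ (K + I + 1 - k) * ((I + 1).factorial : ℝ) *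
          (c * ∑ i' ∈ range (I + 1), F (k + i') P * ((s:ℝ) / 840) ^ i' / (i'.factorial : ℝ)) +
          840 ^ (K + I + 1 - k) * ((I + 1).factorial : ℝ) * (c * (F (k + I + 1) (p0 * (21 / 20) ^ i) *
        (1 / (1 - 1 / 21)) ^ (k + I + 1) * ((s:ℝ) / 840) ^ (I + 1) / ((I + 1).factorial : ℝ)))) := by
          rw [e0]; ring
      _ ≤ _ := by gcongr

/-- generic dot product bounds from two-sided bounds -/
theorem dot2 (f : ℕ → ℝ) (w : List ℤ) : ∀ (lo up : List ℕ) (k : ℕ), w.length ≤ lo.length →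
    w.length ≤ up.length → (∀ j < w.length, (lo.getD j 0 : ℝ) ≤ f (k + j) ∧ f (k + j) ≤ (up.getD j 0 : ℝ)) →
    (dP w lo : ℝ) - (dN w up : ℝ) ≤ ∑ j ∈ range w.length, (w.getD j 0 : ℝ) * f (k + j) := by
  induction w with
  | nil => intro lo up k _ _ _; simp [dP, dN]
  | cons a w ih =>
    intro lo up k h1 h2 h
    cases lo with
    | nil => simp at h1
    | cons b lo =>
      cases up with
      | nil => simp at h2
      | cons d up =>
        have h0 := h 0 (by simp)
        simp only [List.getD_cons_zero, add_zero] at h0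
        have i1 := ih lo up (k + 1) (by simpa using h1) (by simpa using h2) (fun j hj => by
          have := h (j + 1) (by simpa using hj)
          simp only [List.getD_cons_succ] at this
          have e : k + 1 + j = k + (j + 1) := by ring
          rw [e]; exact this)
        rw [List.length_cons, Finset.sum_range_succ']
        simp only [List.getD_cons_succ, List.getD_cons_zero, add_zero]
        have e6 : ∑ j ∈ range w.length, (w.getD j 0 : ℝ) * f (k + (j + 1)) =
            ∑ j ∈ range w.length, (w.getD j 0 : ℝ) * f (k + 1 + j) := by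
          refine Finset.sum_congr rfl fun j _ => ?_
          congr 2; ring
        rw [e6]
        simp only [dP, dN]
        push_cast
        rcases le_total 0 a with ha | ha
        · have e1 : ((a.toNat : ℕ) : ℝ) = (a : ℝ) := by
            have : ((a.toNat : ℤ) : ℝ) = (a : ℝ) := by rw [Int.toNat_of_nonneg ha]
            exact_mod_cast this
          have e2 : ((-a).toNat : ℕ) = 0 := by omega
          have haR : (0:ℝ) ≤ a := by exact_mod_cast ha
          rw [e1, e2]
          have u1 := mul_le_mul_of_nonneg_left h0.1 haR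
          push_cast; linarith
        · have e1 : (((-a).toNat : ℕ) : ℝ) = -(a : ℝ) := by
            have : (((-a).toNat : ℤ) : ℝ) = ((-a : ℤ) : ℝ) := by rw [Int.toNat_of_nonneg (by omega)]
            push_cast at this ⊢
            exact_mod_cast this
          have e2 : (a.toNat : ℕ) = 0 := by omega
          have haR : (a:ℝ) ≤ 0 := by exact_mod_cast ha
          rw [e1, e2]
          have u1 := mul_le_mul_of_nonpos_left h0.2 haR
          push_cast; linarith

end Pool.Agent.H25.SD
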