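import Pool.Agent.H25.SD.Chk

/-!
# Shortening of a table (H25/SD)
-/

namespace Pool.Agent.H25.SD

theorem getD_map_take (L : List (List ℕ)) (m r : ℕ) (hr : r < L.length) :
    (L.map (List.take m)).getD r [] = (L.getD r []).take m := by
  rw [List.getD_eq_getElem _ _ (by simpa using hr), List.getElem_map, List.getD_eq_getElem _ _ hr]

theorem getD_take (l : List ℕ) (m i : ℕ) (hi : i < m) : (l.take m).getD i 0 = l.getD i 0 := by
  rcases lt_or_ge i l.length with h | h
  · rw [List.getD_eq_getElem _ _ (by rw [List.length_take]; exact lt_min hi h), List.getD_eq_getElem _ _ h,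
      List.getElem_take]
  · rw [List.getD_eq_default _ _ (by rw [List.length_take]; omega), List.getD_eq_default _ _ h]

/-- a table may be shortened -/
theorem Tab.take {F : ℕ → ℝ → ℝ} {c p0 : ℝ} {Er Lmax : ℕ} {L : List (List ℕ)} {W : ℕ}
    (h : Tab F c p0 Er Lmax L W) {m : ℕ} (hm : m ≤ W) :
    Tab F c p0 Er Lmax (L.map (List.take (m + 1))) m := by
  refine ⟨h.cpos, h.p0pos, ?_, ?_, ?_, ?_⟩
  · intro r hr
    rw [List.length_map] at hr
    rw [getD_map_take _ _ _ hr, List.length_take, h.len r hr]
    omega
  · intro r hr i hi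
    rw [List.length_map] at hr
    rw [getD_map_take _ _ _ hr, getD_take _ _ _ (by omega)]
    exact h.lo r hr i (by omega)
  · intro r hr i hi
    rw [List.length_map] at hr
    rw [getD_map_take _ _ _ hr, getD_take _ _ _ (by omega)]
    exact h.up r hr i (by omega)
  · intro r hr i hi
    rw [List.length_map] at hr
    rw [getD_map_take _ _ _ hr, getD_take _ _ _ (by omega)]
    exact h.mx r hr i (by omega)

end Pool.Agent.H25.SD
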