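import Pool.Agent.H25.SD.Lin

/-!
# Windows (H25/SD): positivity of `lin F 0 β` on `(P(1-1/T), P]` from finitely many linear inequalities
between the numbers `F r P`
-/

namespace Pool.Agent.H25.SD

open Finset

/-- `(I!/i!) (T + (T-1) w)^k w^i (T (1+w))^(M-k-i)` -/
def bpoly (T : ℤ) (I M k i : ℕ) : List ℤ :=
  lsmul ((I.factorial / i.factorial : ℕ) : ℤ)
    (lmul (lpow [T, T - 1] k) (List.replicate i 0 ++ lpow [T, T] (M - k - i)))

/-- the polynomial in `w` which multiplies `F r P` -/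
def wl (T : ℤ) (I M : ℕ) : List ℤ → ℕ → ℕ → List ℤ
  | [], _, _ => []
  | b :: β, k, r => ladd (if k ≤ r ∧ r ≤ k + I then lsmul b (bpoly T I M k (r - k)) else [])
      (wl T I M β (k + 1) r)

/-- negative part -/
def negp (b : ℤ) : ℤ := max (-b) 0

/-- `∑ β_k (1-t)^k ∑_{i ≤ I} F (k+i) P t^i / i!` -/
noncomputable def mainT (F : ℕ → ℝ → ℝ) (P : ℝ) (I : ℕ) : ℕ → List ℤ → ℝ → ℝ
  | _, [], _ => 0
  | k, b :: β, t => (b : ℝ) * ((1 - t) ^ k * ∑ i ∈ range (I + 1), F (k + i) P * t ^ i / (i.factorial : ℝ)) +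
      mainT F P I (k + 1) β t

theorem ev_replicate (i : ℕ) (l : List ℤ) (w : ℝ) : ev (List.replicate i 0 ++ l) w = w ^ i * ev l w := by
  induction i with
  | zero => simp
  | succ i ih => simp only [List.replicate_succ, List.cons_append, ev, ih]; push_cast; ring

theorem ev_bpoly (T : ℤ) (I M k i : ℕ) (hi : i ≤ I) (w : ℝ) : ev (bpoly T I M k i) w =
    ((I.factorial : ℝ) / (i.factorial : ℝ)) * ((T + (T - 1) * w) ^ k * (w ^ i * (T * (1 + w)) ^ (M - k - i))) := by
  unfold bpoly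
  rw [ev_lsmul, ev_lmul, ev_lpow, ev_replicate, ev_lpow]
  have h1 : (((I.factorial / i.factorial : ℕ) : ℤ) : ℝ) = (I.factorial : ℝ) / (i.factorial : ℝ) := by
    rw [Int.cast_natCast, Nat.cast_div (Nat.factorial_dvd_factorial hi) (by positivity)]
  rw [h1]
  simp only [ev]
  push_cast
  ring_nf

theorem sum_shift (f g : ℕ → ℝ) (k I M : ℕ) (h : k + I ≤ M) :
    ∑ r ∈ range (M + 1), (if k ≤ r ∧ r ≤ k + I then f r * g (r - k) else 0) =
      ∑ i ∈ range (I + 1), f (k + i) * g i := by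
  rw [← Finset.sum_filter]
  have h1 : (range (M + 1)).filter (fun r => k ≤ r ∧ r ≤ k + I) = Finset.Ico k (k + I + 1) := by
    ext r
    simp only [Finset.mem_filter, Finset.mem_range, Finset.mem_Ico]
    omega
  rw [h1, Finset.sum_Ico_eq_sum_range]
  have h2 : k + I + 1 - k = I + 1 := by omega
  rw [h2]
  refine Finset.sum_congr rfl fun i _ => ?_
  congr 2
  omega

theorem main_eq (F : ℕ → ℝ → ℝ) (P : ℝ) (T : ℤ) (I M : ℕ) (w : ℝ) (hw : 0 ≤ w) (hT : 2 ≤ T)
    (β : List ℤ) : ∀ k, k + β.length ≤ M - I + 1 → I ≤ M →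
    (I.factorial : ℝ) * ((T : ℝ) * (1 + w)) ^ M * mainT F P I k β (w / (T * (1 + w))) =
      ∑ r ∈ range (M + 1), F r P * ev (wl T I M β k r) w := by
  have hTR : (2 : ℝ) ≤ T := by exact_mod_cast hT
  have hs : 0 < (T : ℝ) * (1 + w) := by positivity
  induction β with
  | nil => intro k _ _; simp [mainT, wl, ev]
  | cons b β ih =>
    intro k hk hI
    simp only [List.length_cons] at hk
    simp only [mainT, wl, ev_ladd]
    have hR : ∑ r ∈ range (M + 1), F r P * (ev (if k ≤ r ∧ r ≤ k + I then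
        lsmul b (bpoly T I M k (r - k)) else []) w + ev (wl T I M β (k + 1) r) w) =
        ∑ r ∈ range (M + 1), F r P * ev (if k ≤ r ∧ r ≤ k + I then
        lsmul b (bpoly T I M k (r - k)) else []) w +
        ∑ r ∈ range (M + 1), F r P * ev (wl T I M β (k + 1) r) w := by
      rw [← Finset.sum_add_distrib]
      exact Finset.sum_congr rfl fun _ _ => by ring
    rw [hR, mul_add, ih (k + 1) (by omega) hI]
    congr 1
    have h1 : ∀ r, F r P * ev (if k ≤ r ∧ r ≤ k + I then lsmul b (bpoly T I M k (r - k)) else []) w =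
        if k ≤ r ∧ r ≤ k + I then F r P * (b * ev (bpoly T I M k (r - k)) w) else 0 := by
      intro r
      split_ifs
      · rw [ev_lsmul]
      · simp [ev]
    simp only [h1]
    rw [sum_shift (fun r => F r P) (fun i => (b : ℝ) * ev (bpoly T I M k i) w) k I M (by omega)]
    rw [Finset.mul_sum, Finset.mul_sum, Finset.mul_sum]
    refine Finset.sum_congr rfl fun i hi => ?_
    have hiI : i ≤ I := by simpa [Nat.lt_succ_iff] using hi
    rw [ev_bpoly T I M k i hiI w]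
    set s := (T : ℝ) * (1 + w) with hs'
    have e1 : 1 - w / s = (T + (T - 1) * w) / s := by
      rw [hs']; field_simp; ring
    have e2 : s ^ M = s ^ k * s ^ i * s ^ (M - k - i) := by
      rw [← pow_add, ← pow_add]; congr 1; omega
    rw [e1, div_pow, div_pow, e2]
    have : ((i.factorial : ℕ) : ℝ) ≠ 0 := by positivity
    field_simp

theorem lin_lower {F : ℕ → ℝ → ℝ} (hF : Fam F) {P τ t C : ℝ} {I Kmax : ℕ} (hP : 0 < P) (ht : 0 ≤ t)
    (htτ : t ≤ τ) (hτ : τ < 1) (hC : (1 / (1 - τ)) ^ (Kmax + I + 1) ≤ C) (β : List ℤ) :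
    ∀ k, k + β.length ≤ Kmax + 1 →
    mainT F P I k β t - C * τ ^ (I + 1) / ((I + 1).factorial : ℝ) *
      lin F (k + I + 1) (β.map negp) (P * (1 - τ)) ≤ lin F k β (P * (1 - t)) := by
  have h1τ : 0 < 1 - τ := by linarith
  induction β with
  | nil => intro k _; simp [mainT, lin]
  | cons b β ih =>
    intro k hk
    simp only [List.length_cons] at hk
    simp only [List.map_cons, mainT, lin]
    have h1 := ih (k + 1) (by omega)
    have e : k + 1 + I + 1 = k + I + 1 + 1 := by ring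
    rw [e] at h1
    obtain ⟨h2, h3⟩ := F_taylor hF I k hP ht htτ hτ
    set L := ∑ i ∈ range (I + 1), F (k + i) P * t ^ i / (i.factorial : ℝ) with hL
    set Q := F (k + I + 1) (P * (1 - τ)) with hQ
    have hQ0 : 0 < Q := hF.pos _ _ (mul_pos hP h1τ)
    have hC' : (1 / (1 - τ)) ^ (k + I + 1) ≤ C := by
      refine le_trans (pow_le_pow_right₀ ?_ (by omega)) hC
      rw [le_div_iff₀ h1τ]; linarith
    have hp1 : 0 < (1 / (1 - τ)) ^ (k + I + 1) := by positivity
    -- remainder bound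
    have h4 : F k (P * (1 - t)) ≤ (1 - t) ^ k * L + C * τ ^ (I + 1) / ((I + 1).factorial : ℝ) * Q := by
      refine h3.trans ?_
      rw [mul_add]
      have h5 : (1 - t) ^ k ≤ 1 := pow_le_one₀ (by linarith) (by linarith)
      have h5' : 0 ≤ (1 - t) ^ k := pow_nonneg (by linarith) _
      have h6 : t ^ (I + 1) ≤ τ ^ (I + 1) := pow_le_pow_left₀ ht htτ _
      have h7 : Q * (1 / (1 - τ)) ^ (k + I + 1) * t ^ (I + 1) / ((I + 1).factorial : ℝ) ≤
          Q * C * τ ^ (I + 1) / ((I + 1).factorial : ℝ) := by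
        have : 0 ≤ t ^ (I + 1) := pow_nonneg ht _
        have hC0 : 0 < C := lt_of_lt_of_le hp1 hC'
        have hQC : 0 ≤ Q * C := by positivity
        gcongr
      have h8 : 0 ≤ Q * (1 / (1 - τ)) ^ (k + I + 1) * t ^ (I + 1) / ((I + 1).factorial : ℝ) := by
        have : 0 ≤ t ^ (I + 1) := pow_nonneg ht _
        positivity
      have h9 : (1 - t) ^ k * (Q * (1 / (1 - τ)) ^ (k + I + 1) * t ^ (I + 1) / ((I + 1).factorial : ℝ)) ≤
          1 * (Q * C * τ ^ (I + 1) / ((I + 1).factorial : ℝ)) := mul_le_mul h5 h7 h8 (by norm_num)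
      linarith [h9, show C * τ ^ (I + 1) / ((I + 1).factorial : ℝ) * Q = 1 * (Q * C * τ ^ (I + 1) / ((I + 1).factorial : ℝ)) by ring]
    have h10 : (b : ℝ) * ((1 - t) ^ k * L) - C * τ ^ (I + 1) / ((I + 1).factorial : ℝ) * (((negp b : ℤ) : ℝ) * Q) ≤
        b * F k (P * (1 - t)) := by
      rcases le_total 0 b with hb | hb
      · have e1 : negp b = 0 := by unfold negp; omega
        have hbR : (0:ℝ) ≤ b := by exact_mod_cast hb
        rw [e1]
        simp only [Int.cast_zero, zero_mul, mul_zero, sub_zero]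
        exact mul_le_mul_of_nonneg_left h2 hbR
      · have e1 : negp b = -b := by unfold negp; omega
        have hbR : (b:ℝ) ≤ 0 := by exact_mod_cast hb
        rw [e1]
        push_cast
        have h11 := mul_le_mul_of_nonpos_left h4 hbR
        linarith [h11, mul_add (b:ℝ) ((1 - t) ^ k * L) (C * τ ^ (I + 1) / ((I + 1).factorial : ℝ) * Q),
          show C * τ ^ (I + 1) / ((I + 1).factorial : ℝ) * (-(b:ℝ) * Q) =
            -(b * (C * τ ^ (I + 1) / ((I + 1).factorial : ℝ) * Q)) by ring]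
    have h12 : C * τ ^ (I + 1) / ((I + 1).factorial : ℝ) * (((negp b : ℤ) : ℝ) * Q +
        lin F (k + I + 1 + 1) (List.map negp β) (P * (1 - τ))) =
        C * τ ^ (I + 1) / ((I + 1).factorial : ℝ) * (((negp b : ℤ) : ℝ) * Q) +
        C * τ ^ (I + 1) / ((I + 1).factorial : ℝ) * lin F (k + I + 1 + 1) (List.map negp β) (P * (1 - τ)) := by ring
    rw [h12]
    linarith

/-- WINDOW LEMMA -/
theorem win_real {F : ℕ → ℝ → ℝ} (hF : Fam F) {T : ℕ} (hT : 2 ≤ T) {I K : ℕ} {β : List ℤ} {P : ℝ}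
    (hP : 0 < P) (hβ : β.length ≤ K + 1)
    (hlam : (1 / (1 - 1 / (T : ℝ))) ^ (K + I + 1) ≤ 2)
    (hlen : ∀ r < K + I + 1, (wl T I (K + I) β 0 r).length ≤ K + I + 1)
    (hlenN : (lpow [(T : ℤ), T] (K + I)).length ≤ K + I + 1)
    (h : ∀ b < K + I + 1, 2 * lin F (I + 1) (β.map negp) (P * (1 - 1 / (T : ℝ))) *
        ((lpow [(T : ℤ), T] (K + I)).getD b 0 : ℝ) <
      ((I : ℝ) + 1) * (T : ℝ) ^ (I + 1) * ∑ r ∈ range (K + I + 1), F r P * ((wl T I (K + I) β 0 r).getD b 0 : ℝ))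
    {p : ℝ} (h1 : P * (1 - 1 / (T : ℝ)) < p) (h2 : p ≤ P) : 0 < lin F 0 β p := by
  have hTR : (2 : ℝ) ≤ T := by exact_mod_cast hT
  have hT0 : (0:ℝ) < T := by linarith
  set M := K + I with hM
  set S := lin F (I + 1) (β.map negp) (P * (1 - 1 / (T : ℝ))) with hS
  -- t and w
  set t : ℝ := 1 - p / P with ht
  have hpP : p = P * (1 - t) := by rw [ht]; field_simp; ring
  have ht0 : 0 ≤ t := by rw [ht]; have := (div_le_one hP).2 h2; linarith
  have ht1 : t < 1 / T := by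
    rw [ht]
    have : 1 - 1 / (T:ℝ) < p / P := by rw [lt_div_iff₀ hP]; linarith
    linarith
  have hτ1 : 1 / (T:ℝ) < 1 := by rw [div_lt_one hT0]; linarith
  set w : ℝ := T * t / (1 - T * t) with hw
  have hTt : T * t < 1 := by
    have := (lt_div_iff₀ hT0).1 ht1
    linarith [mul_comm t (T:ℝ)]
  have hw0 : 0 ≤ w := div_nonneg (by positivity) (by linarith)
  have hne : (1 - T * t) ≠ 0 := by linarith
  have h1w : 1 + w = 1 / (1 - T * t) := by rw [hw]; field_simp; ring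
  have hne' : (1 - t * T) ≠ 0 := by rw [mul_comm]; exact hne
  have htw : t = w / (T * (1 + w)) := by
    rw [h1w, hw]; field_simp
  have hz : ((T : ℤ) : ℝ) = (T : ℝ) := by simp
  -- polynomial positivity
  have hpoly : 0 < ((I : ℝ) + 1) * (T : ℝ) ^ (I + 1) * ∑ r ∈ range (M + 1), F r P * ev (wl T I M β 0 r) w -
      2 * S * ev (lpow [(T : ℤ), T] M) w := by
    have e1 : ∑ r ∈ range (M + 1), F r P * ev (wl T I M β 0 r) w =
        ∑ b ∈ range (M + 1), (∑ r ∈ range (M + 1), F r P * ((wl T I M β 0 r).getD b 0 : ℝ)) * w ^ b := by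
      rw [Finset.sum_congr rfl (fun b _ => Finset.sum_mul _ _ _), Finset.sum_comm]
      refine Finset.sum_congr rfl fun r hr => ?_
      rw [ev_eq_sum _ w (M + 1) (hlen r (Finset.mem_range.1 hr)), Finset.mul_sum]
      exact Finset.sum_congr rfl fun b _ => by ring
    have e2 : ev (lpow [(T : ℤ), T] M) w = ∑ b ∈ range (M + 1), ((lpow [(T : ℤ), T] M).getD b 0 : ℝ) * w ^ b :=
      ev_eq_sum _ w (M + 1) hlenN
    rw [e1, e2, Finset.mul_sum, Finset.mul_sum, ← Finset.sum_sub_distrib]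
    have e3 : ∀ b ∈ range (M + 1), 0 ≤ ((I : ℝ) + 1) * (T : ℝ) ^ (I + 1) *
        ((∑ r ∈ range (M + 1), F r P * ((wl T I M β 0 r).getD b 0 : ℝ)) * w ^ b) -
        2 * S * (((lpow [(T : ℤ), T] M).getD b 0 : ℝ) * w ^ b) := by
      intro b hb
      have := h b (Finset.mem_range.1 hb)
      have hwb : 0 ≤ w ^ b := pow_nonneg hw0 b
      nlinarith [mul_nonneg (sub_nonneg.2 this.le) hwb]
    refine Finset.sum_pos' e3 ⟨0, by simp, ?_⟩
    have := h 0 (by omega)
    simp only [pow_zero, mul_one]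
    linarith
  -- conclusion
  have hmain := main_eq F P (T : ℤ) I M w hw0 (by exact_mod_cast hT) β 0 (by omega) (by omega)
  have hN : ev (lpow [(T : ℤ), T] M) w = ((T : ℝ) * (1 + w)) ^ M := by
    rw [ev_lpow]; simp only [ev]; push_cast; ring
  rw [← hmain, hN, hz, ← htw] at hpoly
  have hlow := lin_lower hF (P := P) (τ := 1 / (T:ℝ)) (t := t) (C := 2) (I := I) (Kmax := K) hP ht0 ht1.le hτ1
    hlam β 0 (by omega)
  rw [hpP]
  refine lt_of_lt_of_le ?_ hlow
  have hzI : 0 + I + 1 = I + 1 := by ring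
  rw [hzI, ← hS]
  have hs : 0 < ((T:ℝ) * (1 + w)) ^ M := by positivity
  have hf : (((I + 1).factorial : ℕ) : ℝ) = ((I:ℝ) + 1) * (I.factorial : ℝ) := by
    rw [Nat.factorial_succ]; push_cast; ring
  have hI0 : (0:ℝ) < (I.factorial : ℝ) := by positivity
  have hI1 : (0:ℝ) < (I:ℝ) + 1 := by positivity
  rw [hf]
  have key : 0 < ((I:ℝ) + 1) * (T:ℝ) ^ (I + 1) * (I.factorial : ℝ) * ((T:ℝ) * (1 + w)) ^ M *
      (mainT F P I 0 β t - 2 * (1 / (T:ℝ)) ^ (I + 1) / (((I:ℝ) + 1) * (I.factorial : ℝ)) * S) := by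
    have e4 : ((I:ℝ) + 1) * (T:ℝ) ^ (I + 1) * (I.factorial : ℝ) * ((T:ℝ) * (1 + w)) ^ M *
      (mainT F P I 0 β t - 2 * (1 / (T:ℝ)) ^ (I + 1) / (((I:ℝ) + 1) * (I.factorial : ℝ)) * S) =
      ((I : ℝ) + 1) * (T : ℝ) ^ (I + 1) * ((I.factorial : ℝ) * ((T : ℝ) * (1 + w)) ^ M * mainT F P I 0 β t) -
      2 * S * ((T : ℝ) * (1 + w)) ^ M := by
      rw [one_div, inv_pow]
      field_simp
    rw [e4]
    exact hpoly
  exact (pos_iff_pos_of_mul_pos key).1 (by positivity)

end Pool.Agent.H25.SD
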